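import Pool.Agent.Helper38.LCA.Mol

/-!
# LCA-13: the mollified function has total variation at most `P E`

`∫ p, ml n E p * dvg φ p = ∫ p, ∫ t, ρ t * 1_E (p - t) * dvg φ p = ∫ t, ρ t * (∫ p, 1_E (p - t) * dvg φ p)` (Fubini; the integrand is bounded with support in a product of compact sets)
`= ∫ t, ρ t * (∫ q in E, dvg φ (q + t))` (translation invariance of the volume).  `φ_t q = φ (q + t)` is a test field with `dvg φ_t q = dvg φ (q + t)`, so the inner integral is `≤ P E`: the
definition of `Per` as a supremum gives `ENNReal.ofReal (∫ q in E, dvg φ_t q) ≤ Per E < ⊤` and `ENNReal.ofReal_le_iff_le_toReal`.  `∫ ρ = 1`, `ρ ≥ 0`.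
-/

namespace Pool.Agent.Helper38.LCA

open Finset Real Pool.Agent.Helper98.LC MeasureTheory Pool.Agent.Helper79.HC

theorem test_le {E : Set ℂ} (hP : Per E < ⊤) {φ : ℂ → ℂ} (hφ : IsTest φ) :
    ∫ p in E, dvg φ p ≤ P E := by
  have h : ENNReal.ofReal (∫ p in E, dvg φ p) ≤ Per E :=
    le_iSup₂ (f := fun (φ : ℂ → ℂ) (_ : IsTest φ) => ENNReal.ofReal (∫ z in E, dvg φ z)) φ hφ
  exact (ENNReal.ofReal_le_iff_le_toReal hP.ne).1 h

private theorem dvg_cont {φ : ℂ → ℂ} (hφ : IsTest φ) : Continuous (dvg φ) := by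
  have h1 : Continuous (fderiv ℝ φ) := hφ.smooth.continuous_fderiv (by norm_num)
  unfold dvg
  exact (Complex.continuous_re.comp (h1.clm_apply continuous_const)).add
    (Complex.continuous_im.comp (h1.clm_apply continuous_const))

private theorem dvg_supp {φ : ℂ → ℂ} (hφ : IsTest φ) : HasCompactSupport (dvg φ) := by
  have h1 : HasCompactSupport (fderiv ℝ φ) := hφ.supp.fderiv (𝕜 := ℝ)
  exact h1.comp_left (g := fun L : ℂ →L[ℝ] ℂ => (L 1).re + (L Complex.I).im) (by simp)

private theorem shift_test {φ : ℂ → ℂ} (hφ : IsTest φ) (t : ℂ) :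
    IsTest (fun q => φ (q + t)) where
  smooth := hφ.smooth.comp (contDiff_id.add contDiff_const)
  supp := hφ.supp.comp_homeomorph (Homeomorph.addRight t)
  bound := fun z => hφ.bound (z + t)

private theorem shift_dvg (φ : ℂ → ℂ) (t q : ℂ) :
    dvg (fun q => φ (q + t)) q = dvg φ (q + t) := by
  unfold dvg
  rw [fderiv_comp_add_right]

theorem ml_per (n : ℕ) {E : Set ℂ} (hE : MeasurableSet E) (hP : Per E < ⊤) {φ : ℂ → ℂ}
    (hφ : IsTest φ) : ∫ p, ml n E p * dvg φ p ≤ P E := by
  set ρ : ℂ → ℝ := (bp n).normed volume with hρ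
  set f : ℂ → ℝ := E.indicator (fun _ => (1 : ℝ)) with hf
  have hρi : Integrable ρ := (bp n).integrable_normed
  have hρ0 : ∀ t, 0 ≤ ρ t := fun t => (bp n).nonneg_normed t
  have hρ1 : ∫ t, ρ t = 1 := (bp n).integral_normed
  have hDi : Integrable (dvg φ) := (dvg_cont hφ).integrable_of_hasCompactSupport (dvg_supp hφ)
  have hfm : Measurable f := measurable_const.indicator hE
  have hf1 : ∀ q, |f q| ≤ 1 := by
    intro q
    rw [hf]
    by_cases hq : q ∈ E
    · rw [Set.indicator_of_mem hq, abs_one]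
    · rw [Set.indicator_of_notMem hq, abs_zero]
      exact zero_le_one
  have hint : Integrable (Function.uncurry fun p t : ℂ => ρ t * f (p - t) * dvg φ p)
      (volume.prod volume) := by
    have h1 : Integrable (fun z : ℂ × ℂ => dvg φ z.1 * ρ z.2) (volume.prod volume) :=
      hDi.mul_prod hρi
    have h2 : Integrable (fun z : ℂ × ℂ => f (z.1 - z.2) * (dvg φ z.1 * ρ z.2))
        (volume.prod volume) := by
      refine h1.bdd_mul (c := 1) ?_ ?_
      · exact (hfm.comp (measurable_fst.sub measurable_snd)).aestronglyMeasurable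
      · exact Filter.Eventually.of_forall fun z => hf1 _
    refine h2.congr (Filter.Eventually.of_forall fun z => ?_)
    show f (z.1 - z.2) * (dvg φ z.1 * ρ z.2) = ρ z.2 * f (z.1 - z.2) * dvg φ z.1
    ring
  have e1 : ∫ p, ml n E p * dvg φ p = ∫ p, ∫ t, ρ t * f (p - t) * dvg φ p := by
    refine integral_congr_ae (Filter.Eventually.of_forall fun p => ?_)
    show ml n E p * dvg φ p = ∫ t, ρ t * f (p - t) * dvg φ p
    rw [ml_eq, ← integral_mul_const]
  have e2 : ∀ t, ∫ p, ρ t * f (p - t) * dvg φ p =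
      ρ t * ∫ q in E, dvg (fun q => φ (q + t)) q := by
    intro t
    rw [← integral_add_right_eq_self (fun p => ρ t * f (p - t) * dvg φ p) t]
    rw [← integral_indicator hE, ← integral_const_mul]
    refine integral_congr_ae (Filter.Eventually.of_forall fun q => ?_)
    show ρ t * f (q + t - t) * dvg φ (q + t) = ρ t * E.indicator (dvg fun q => φ (q + t)) q
    rw [add_sub_cancel_right, hf]
    by_cases hq : q ∈ E
    · rw [Set.indicator_of_mem hq, Set.indicator_of_mem hq, shift_dvg]
      ring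
    · rw [Set.indicator_of_notMem hq, Set.indicator_of_notMem hq]
      ring
  have hint2 : Integrable (fun t => ∫ p, ρ t * f (p - t) * dvg φ p) := hint.integral_prod_right
  rw [e1, integral_integral_swap hint]
  have h3 : ∫ t, ρ t * P E = P E := by
    rw [integral_mul_const, hρ1, one_mul]
  rw [← h3]
  refine integral_mono hint2 (hρi.mul_const _) fun t => ?_
  show ∫ p, ρ t * f (p - t) * dvg φ p ≤ ρ t * P E
  rw [e2]
  exact mul_le_mul_of_nonneg_left (test_le hP (shift_test hφ t)) (hρ0 t)

end Pool.Agent.Helper38.LCA
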