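import Pool.Agent.Helper38.LCA.Lower
import Pool.Agent.Helper38.LCA.MolPer

/-!
# LCA-16: the weighted total variation of one mollified set, and its area

* `int_GK`: `∫ s in 0..1, fE (2s - 1) = (1/2) ∫ s in (-1)..1, fE s = 1/2`, `∫ s in 0..1, K (1/2 - s) = 0`.
* `one`: `M = 4 + K`, `w s = M - GK K s` is continuous and `≥ 0` for `0 ≤ s ≤ 1` (`0 ≤ fE ≤ 4`, `|K (1/2 - s)| ≤ K/2`), `H t = ∫ s in 0..t, w s`, `H 0 = 0`, `H 1 = M - 1/2` (`int_GK`).
  By the definition of `Per E < ⊤` there is a test field `φ` with `∫ p in E, dvg φ p ≥ P E - κ'`, `κ' = κ / (2 (M + 1))` (if `P E ≤ κ'` take `φ = 0`).  Let `r₀` be such that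
  `tsupport φ ⊆ closedBall 0 r₀`, and `n₀` such that `∫ p, H (ml n E p) * dvg φ p ≥ (M - 1/2) (P E - κ') - κ/2` for `n ≥ n₀` (`lim_int`).  For `χ` as in the statement:
  `∫ χ ‖gr u‖ GK K u = M ∫ χ ‖gr u‖ - ∫ χ (w u ‖gr u‖) ≤ M P E - (M - 1/2)(P E - κ') + κ/2 ≤ P E / 2 + κ` (`grad_le` with `ml_per`, `lower`).
* `vol_ge`: `∫_E (1 - ml n E) → 0` (dominated convergence on the finite measure space `E`, `ml_ae`), and `vol (E ∩ {ml n E ≤ 3/4}) ≤ 4 ∫_E (1 - ml n E)`
  (`mul_meas_ge_le_integral_of_nonneg` or `mul_meas_ge_le_lintegral`).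
-/

namespace Pool.Agent.Helper38.LCA

open Finset Real Pool.Agent.Helper98.LC MeasureTheory Pool.Agent.Helper79.HC Filter Topology

private lemma on_fE_cont : Continuous fE := by
  unfold fE
  fun_prop

private lemma on_GK_cont (K : ℝ) : Continuous (GK K) := by
  unfold GK
  exact (on_fE_cont.comp (by fun_prop)).add (by fun_prop)

private lemma on_fE_le (s : ℝ) : fE s ≤ 4 := by
  unfold fE
  have := abs_nonneg s
  exact max_le (by norm_num) (by linarith)

theorem int_GK (K : ℝ) : ∫ s in (0 : ℝ)..1, GK K s = 1 / 2 := by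
  have hc : Continuous fun s : ℝ => fE (2 * s - 1) := on_fE_cont.comp (by fun_prop)
  have hi : ∀ a b : ℝ, IntervalIntegrable (fun s : ℝ => fE (2 * s - 1)) volume a b :=
    fun a b => hc.intervalIntegrable a b
  have h1 : ∫ s in (0 : ℝ)..(3 / 8), fE (2 * s - 1) = 0 := by
    rw [intervalIntegral.integral_congr (g := fun _ => (0 : ℝ))]
    · simp
    · intro s hs
      rw [Set.uIcc_of_le (by norm_num), Set.mem_Icc] at hs
      simp only [fE]
      rw [abs_of_nonpos (by linarith [hs.2])]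
      exact max_eq_left (by linarith [hs.2])
  have h2 : ∫ s in (3 / 8 : ℝ)..(1 / 2), fE (2 * s - 1) = 1 / 4 := by
    rw [intervalIntegral.integral_congr (g := fun s => (32 : ℝ) * s - 12)]
    · rw [intervalIntegral.integral_sub (Continuous.intervalIntegrable (by fun_prop) _ _)
        (Continuous.intervalIntegrable (by fun_prop) _ _),
        intervalIntegral.integral_const_mul, integral_id]
      simp
      norm_num
    · intro s hs
      rw [Set.uIcc_of_le (by norm_num), Set.mem_Icc] at hs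
      simp only [fE]
      rw [abs_of_nonpos (by linarith [hs.2])]
      rw [max_eq_right (by linarith [hs.1])]
      ring
  have h3 : ∫ s in (1 / 2 : ℝ)..(5 / 8), fE (2 * s - 1) = 1 / 4 := by
    rw [intervalIntegral.integral_congr (g := fun s => (20 : ℝ) - 32 * s)]
    · rw [intervalIntegral.integral_sub (Continuous.intervalIntegrable (by fun_prop) _ _)
        (Continuous.intervalIntegrable (by fun_prop) _ _),
        intervalIntegral.integral_const_mul, integral_id]
      simp
      norm_num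
    · intro s hs
      rw [Set.uIcc_of_le (by norm_num), Set.mem_Icc] at hs
      simp only [fE]
      rw [abs_of_nonneg (by linarith [hs.1])]
      rw [max_eq_right (by linarith [hs.2])]
      ring
  have h4 : ∫ s in (5 / 8 : ℝ)..1, fE (2 * s - 1) = 0 := by
    rw [intervalIntegral.integral_congr (g := fun _ => (0 : ℝ))]
    · simp
    · intro s hs
      rw [Set.uIcc_of_le (by norm_num), Set.mem_Icc] at hs
      simp only [fE]
      rw [abs_of_nonneg (by linarith [hs.1])]
      exact max_eq_left (by linarith [hs.1])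
  have h5 : ∫ s in (0 : ℝ)..1, fE (2 * s - 1) = 1 / 2 := by
    rw [← intervalIntegral.integral_add_adjacent_intervals (hi 0 (3 / 8)) (hi (3 / 8) 1),
      ← intervalIntegral.integral_add_adjacent_intervals (hi (3 / 8) (1 / 2)) (hi (1 / 2) 1),
      ← intervalIntegral.integral_add_adjacent_intervals (hi (1 / 2) (5 / 8)) (hi (5 / 8) 1),
      h1, h2, h3, h4]
    norm_num
  have h6 : ∫ s in (0 : ℝ)..1, K * (1 / 2 - s) = 0 := by
    rw [intervalIntegral.integral_const_mul,
      intervalIntegral.integral_sub (Continuous.intervalIntegrable (by fun_prop) _ _)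
        (Continuous.intervalIntegrable (by fun_prop) _ _), integral_id]
    simp
  unfold GK
  rw [intervalIntegral.integral_add (hi 0 1) (Continuous.intervalIntegrable (by fun_prop) _ _),
    h5, h6]
  norm_num

theorem one {E : Set ℂ} (hE : MeasurableSet E) (hP : Per E < ⊤) {K κ : ℝ} (hK : 0 ≤ K)
    (hκ : 0 < κ) :
    ∃ (n₀ : ℕ) (r₀ : ℝ), ∀ n, n₀ ≤ n → ∀ χ : ℂ → ℝ, ContDiff ℝ 1 χ → HasCompactSupport χ →
      (∀ p, 0 ≤ χ p ∧ χ p ≤ 1) → (∀ p, ‖p‖ ≤ r₀ → χ p = 1) →
      ∫ p, χ p * (‖gr (ml n E) p‖ * GK K (ml n E p)) ≤ P E / 2 + κ := by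
  obtain ⟨M, hM⟩ : ∃ M, M = 4 + K := ⟨_, rfl⟩
  have hM0 : 4 ≤ M := by rw [hM]; linarith
  obtain ⟨w, hw⟩ : ∃ w : ℝ → ℝ, w = fun s => M - GK K s := ⟨_, rfl⟩
  have hwc : Continuous w := by
    rw [hw]
    exact continuous_const.sub (on_GK_cont K)
  have hw0 : ∀ s, 0 ≤ s → s ≤ 1 → 0 ≤ w s := by
    intro s h0 h1
    rw [hw]
    have h2 := on_fE_le (2 * s - 1)
    have h3 : K * (1 / 2 - s) ≤ K := by
      calc K * (1 / 2 - s) ≤ K * 1 := mul_le_mul_of_nonneg_left (by linarith) hK
        _ = K := mul_one K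
    simp only [GK]
    rw [hM]
    linarith
  obtain ⟨H, hH⟩ : ∃ H : ℝ → ℝ, H = fun t => ∫ s in (0 : ℝ)..t, w s := ⟨_, rfl⟩
  have hHc : Continuous H := by
    rw [hH]
    exact intervalIntegral.continuous_primitive (fun a b => hwc.intervalIntegrable a b) 0
  have hH0 : H 0 = 0 := by
    rw [hH]
    exact intervalIntegral.integral_same
  have hH1 : H 1 = M - 1 / 2 := by
    rw [hH, hw]
    simp only
    rw [intervalIntegral.integral_sub (Continuous.intervalIntegrable (by fun_prop) _ _)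
      ((on_GK_cont K).intervalIntegrable 0 1),
      int_GK]
    simp
  obtain ⟨κ', hκ'⟩ : ∃ κ', κ' = κ / (2 * (M + 1)) := ⟨_, rfl⟩
  have hκ'0 : 0 < κ' := by rw [hκ']; positivity
  have hκ'1 : (M + 1) * κ' = κ / 2 := by
    rw [hκ']
    field_simp
  -- the test field
  obtain ⟨φ, hφ, hφE⟩ : ∃ φ : ℂ → ℂ, IsTest φ ∧ P E - κ' ≤ ∫ p in E, dvg φ p := by
    by_contra hcon
    push Not at hcon
    have h0 : IsTest (fun _ : ℂ => (0 : ℂ)) :=
      ⟨contDiff_const, HasCompactSupport.zero, fun z => by simp⟩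
    have h1 := hcon _ h0
    have h2 : ∫ p in E, dvg (fun _ : ℂ => (0 : ℂ)) p = 0 := by
      have : ∀ p, dvg (fun _ : ℂ => (0 : ℂ)) p = 0 := by
        intro p
        unfold dvg
        simp
      simp [this]
    rw [h2] at h1
    have h3 : Per E ≤ ENNReal.ofReal (P E - κ') := by
      unfold Per
      exact iSup₂_le fun φ hφ => ENNReal.ofReal_le_ofReal (hcon φ hφ).le
    have h4 : P E ≤ P E - κ' := by
      have h5 := ENNReal.toReal_mono ENNReal.ofReal_ne_top h3
      rwa [ENNReal.toReal_ofReal h1.le] at h5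
    linarith
  obtain ⟨r₀, hr₀⟩ := hφ.supp.isCompact.isBounded.subset_closedBall (0 : ℂ)
  have hlim := lim_int hE hHc hH0 hφ
  rw [hH1] at hlim
  have hev := hlim.eventually (lt_mem_nhds (show (M - 1 / 2) * (∫ p in E, dvg φ p) - κ / 2 <
    (M - 1 / 2) * ∫ p in E, dvg φ p by linarith))
  obtain ⟨n₀, hn₀⟩ := eventually_atTop.1 hev
  refine ⟨n₀, r₀, fun n hn χ hχ hs h01 hχ1 => ?_⟩
  have hu := ml_smooth n hE
  have hg : Continuous (fun p => ‖gr (ml n E) p‖) := (gr_cont hu).continuous.norm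
  have hlow := lower hu (fun p => ⟨ml_nonneg n E p, ml_le_one n hE p⟩) hwc hw0 hχ.continuous hs
    (fun p => (h01 p).1) hφ (fun p hp => hχ1 p (by
      have := hr₀ hp
      rwa [mem_closedBall_zero_iff] at this))
  have hgrad := grad_le hu (fun ψ hψ => ml_per n hE hP hψ) hχ hs h01
  have hnn : (M - 1 / 2) * (∫ p in E, dvg φ p) - κ / 2 < ∫ p, H (ml n E p) * dvg φ p :=
    hn₀ n hn
  have hlow' : ∫ p, H (ml n E p) * dvg φ p ≤
      ∫ p, χ p * (w (ml n E p) * ‖gr (ml n E) p‖) := by
    rw [hH]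
    exact hlow
  have i1 : Integrable (fun p => χ p * ‖gr (ml n E) p‖) :=
    (hχ.continuous.mul hg).integrable_of_hasCompactSupport hs.mul_right
  have i2 : Integrable (fun p => χ p * (w (ml n E p) * ‖gr (ml n E) p‖)) :=
    (hχ.continuous.mul ((hwc.comp hu.continuous).mul hg)).integrable_of_hasCompactSupport
      hs.mul_right
  have heq : ∫ p, χ p * (‖gr (ml n E) p‖ * GK K (ml n E p)) =
      M * (∫ p, χ p * ‖gr (ml n E) p‖) - ∫ p, χ p * (w (ml n E p) * ‖gr (ml n E) p‖) := by
    rw [← integral_const_mul, ← integral_sub (i1.const_mul M) i2]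
    refine integral_congr_ae (Eventually.of_forall fun p => ?_)
    simp only [hw]
    ring
  rw [heq]
  have a1 : M * (∫ p, χ p * ‖gr (ml n E) p‖) ≤ M * P E :=
    mul_le_mul_of_nonneg_left hgrad (by linarith)
  have a2 : (M - 1 / 2) * (P E - κ') ≤ (M - 1 / 2) * ∫ p in E, dvg φ p :=
    mul_le_mul_of_nonneg_left hφE (by linarith)
  nlinarith

theorem vol_ge {E : Set ℂ} (hE : MeasurableSet E) {A κ : ℝ} (hv : volume E = ENNReal.ofReal A)
    (hκ : 0 < κ) :
    ∃ n₀ : ℕ, ∀ n, n₀ ≤ n → ENNReal.ofReal (A - κ) ≤ volume {p | 3 / 4 < ml n E p} := by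
  have hfin : volume E < ⊤ := by
    rw [hv]
    exact ENNReal.ofReal_lt_top
  have : IsFiniteMeasure (volume.restrict E) := ⟨by rwa [Measure.restrict_apply_univ]⟩
  have hm : ∀ n, AEStronglyMeasurable (fun p => 1 - ml n E p) (volume.restrict E) := fun n =>
    (continuous_const.sub (ml_smooth n hE).continuous).aestronglyMeasurable
  have hb : ∀ n p, ‖1 - ml n E p‖ ≤ 1 := by
    intro n p
    rw [Real.norm_eq_abs, abs_le]
    have h1 := ml_nonneg n E p
    have h2 := ml_le_one n hE p
    constructor <;> linarith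
  have hlim : Tendsto (fun n => ∫ p in E, (1 - ml n E p)) atTop (𝓝 (∫ _p in E, (0 : ℝ))) := by
    refine tendsto_integral_of_dominated_convergence (fun _ => (1 : ℝ)) hm (integrable_const _)
      (fun n => Eventually.of_forall fun p => hb n p) ?_
    rw [ae_restrict_iff' hE]
    filter_upwards [ml_ae hE] with p hp hpE
    rw [Set.indicator_of_mem hpE] at hp
    have := hp.const_sub 1
    rwa [sub_self] at this
  rw [integral_zero] at hlim
  have hev := hlim.eventually (gt_mem_nhds (show (0 : ℝ) < κ / 4 by linarith))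
  obtain ⟨n₀, hn₀⟩ := eventually_atTop.1 hev
  refine ⟨n₀, fun n hn => ?_⟩
  have h1 : ∫ p in E, (1 - ml n E p) < κ / 4 := hn₀ n hn
  have hint : Integrable (fun p => 1 - ml n E p) (volume.restrict E) :=
    Integrable.of_bound (hm n) 1 (Eventually.of_forall fun p => hb n p)
  have h2 := mul_meas_ge_le_integral_of_nonneg (μ := volume.restrict E)
    (f := fun p => 1 - ml n E p) (Eventually.of_forall fun p => by
      have := ml_le_one n hE p
      simp only [Pi.zero_apply]
      linarith) hint (1 / 4)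
  have h3 : (volume.restrict E).real {p | 1 / 4 ≤ 1 - ml n E p} ≤ κ := by linarith
  have h4 : (volume.restrict E) {p | 1 / 4 ≤ 1 - ml n E p} ≤ ENNReal.ofReal κ := by
    rw [← ENNReal.ofReal_toReal (measure_ne_top (volume.restrict E) {p | 1 / 4 ≤ 1 - ml n E p})]
    exact ENNReal.ofReal_le_ofReal h3
  have h5 : volume E ≤ (volume.restrict E) {p | 1 / 4 ≤ 1 - ml n E p} +
      volume {p | 3 / 4 < ml n E p} := by
    rw [← Measure.restrict_apply_univ E]
    have hsub : (Set.univ : Set ℂ) ⊆ {p | 1 / 4 ≤ 1 - ml n E p} ∪ {p | 3 / 4 < ml n E p} := by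
      intro p _
      rcases le_or_gt (1 / 4) (1 - ml n E p) with h | h
      · exact Or.inl h
      · refine Or.inr ?_
        change 3 / 4 < ml n E p
        linarith
    calc (volume.restrict E) Set.univ
        ≤ (volume.restrict E) ({p | 1 / 4 ≤ 1 - ml n E p} ∪ {p | 3 / 4 < ml n E p}) :=
          measure_mono hsub
      _ ≤ (volume.restrict E) {p | 1 / 4 ≤ 1 - ml n E p} +
          (volume.restrict E) {p | 3 / 4 < ml n E p} := measure_union_le _ _
      _ ≤ _ := by
          gcongr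
          exact Measure.restrict_le_self
  rw [ENNReal.ofReal_sub _ hκ.le, ← hv]
  rw [tsub_le_iff_left]
  exact h5.trans (by gcongr)

end Pool.Agent.Helper38.LCA
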