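import Pool.Agent.Helper38.LCA.NetOf
import Pool.Agent.Helper38.LCA.One

/-!
# LCA-17: the approximation theorem

* `exists_smooth`: `u i = ml n (E i)` with `n` so large that `one` holds for every `i` with `κ / (N + 1)` (`K = KN N`) and `vol_ge` for every `E i.succ` with `κ`.  `r` is larger than all `r₀` of `one` and than the
  radii of `ml_far` for `E i.succ` with `1 / (8 (N + 1))`; then `u 0 = 1 - ∑ u i.succ ≥ 7/8` for `‖p‖ ≥ r` (`ml_sum`).  For `ρ ≥ r` let `χ` be a smooth function with compact support, `0 ≤ χ ≤ 1`, `χ = 1` on `Sq ρ`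
  and on the ball with radius `ρ` (`ContDiffBump (0 : ℂ)` with `rIn = 2 ρ + 1`).  `F = ∑ ‖gr (u i)‖ GK (u i) ≥ 0` (`point` with `ω = 0`, `gr_sum`), so `∫_{Sq ρ} F ≤ ∫ χ F = ∑ i ∫ χ ‖gr (u i)‖ GK (u i) ≤ ∑ P (E i) / 2 + κ`.
* `approx`: `E = Fin.cons (⋃ i, R i)ᶜ R` is a partition (`IsPart`; `clusterPer R < ⊤` gives `Per (⋃ i, R i)ᶜ < ⊤`, and `(∑ i, P (E i)) = 2 (clusterPer R).toReal`).  `exists_smooth` with `κ = min (δ/4) (δ A0)`,
  `net_of_smooth` with `δ/2`.  (`Pool.Agent.Helper79.HC.A0 = Pool.Agent.Helper98.LC.A0` by `rfl`.)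
-/

namespace Pool.Agent.Helper38.LCA

open Finset Real Pool.Agent.Helper98.LC MeasureTheory

theorem exists_smooth {N : ℕ} {E : Fin (N + 1) → Set ℂ} (hE : IsPart E) {κ : ℝ} (hκ : 0 < κ) :
    ∃ (r : ℝ) (u : Fin (N + 1) → ℂ → ℝ), 0 < r ∧ SmoothPart E κ r u := by
  have hN : (0 : ℝ) < (N : ℝ) + 1 := by positivity
  have hKN : 0 ≤ KN N := by unfold KN; positivity
  have h1 := fun i => one (hE.meas i) (hE.per i) hKN (κ := κ / ((N : ℝ) + 1)) (by positivity)
  choose n₁ r₁ H₁ using h1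
  have h2 := fun i : Fin N => vol_ge (hE.meas i.succ) (A := A0) (κ := κ) (hE.vol i) hκ
  choose n₂ H₂ using h2
  obtain ⟨n, hn⟩ : ∃ n, n = (∑ i, n₁ i) + ∑ i, n₂ i := ⟨_, rfl⟩
  have hn1 : ∀ i, n₁ i ≤ n := fun i => by
    have := Finset.single_le_sum (f := n₁) (fun j _ => Nat.zero_le _) (Finset.mem_univ i)
    omega
  have hn2 : ∀ i, n₂ i ≤ n := fun i => by
    have := Finset.single_le_sum (f := n₂) (fun j _ => Nat.zero_le _) (Finset.mem_univ i)
    omega
  have h3 := fun i : Fin N => ml_far n (hE.meas i.succ) (by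
    rw [hE.vol i]
    exact ENNReal.ofReal_lt_top) (κ := 1 / (8 * ((N : ℝ) + 1))) (by positivity)
  choose r₃ hr₃ H₃ using h3
  obtain ⟨r, hr⟩ : ∃ r, r = 1 + (∑ i, |r₁ i|) + ∑ i, |r₃ i| := ⟨_, rfl⟩
  have hr0 : 0 < r := by
    rw [hr]
    have := Finset.sum_nonneg (s := Finset.univ) (f := fun i => |r₁ i|) fun i _ => abs_nonneg _
    have := Finset.sum_nonneg (s := Finset.univ) (f := fun i => |r₃ i|) fun i _ => abs_nonneg _
    linarith
  have hr1 : ∀ i, r₁ i ≤ r := fun i => by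
    have h4 := Finset.single_le_sum (f := fun i => |r₁ i|) (fun j _ => abs_nonneg _)
      (Finset.mem_univ i)
    have h5 := Finset.sum_nonneg (s := Finset.univ) (f := fun i => |r₃ i|) fun i _ => abs_nonneg _
    have h6 := le_abs_self (r₁ i)
    linarith
  have hr3 : ∀ i, r₃ i ≤ r := fun i => by
    have h4 := Finset.single_le_sum (f := fun i => |r₃ i|) (fun j _ => abs_nonneg _)
      (Finset.mem_univ i)
    have h5 := Finset.sum_nonneg (s := Finset.univ) (f := fun i => |r₁ i|) fun i _ => abs_nonneg _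
    have h6 := le_abs_self (r₃ i)
    linarith
  have hu : ∀ i, ContDiff ℝ 2 (ml n (E i)) := fun i => ml_smooth n (hE.meas i)
  have hnn : ∀ i p, 0 ≤ ml n (E i) p := fun i p => ml_nonneg n (E i) p
  have hsum : ∀ p, ∑ i, ml n (E i) p = 1 := fun p => ml_sum n hE p
  refine ⟨r, fun i => ml n (E i), hr0, ⟨hu, hnn, hsum, ?_, ?_, ?_⟩⟩
  · intro p hp
    have h4 := hsum p
    rw [Fin.sum_univ_succ] at h4
    have h5 : ∑ i : Fin N, ml n (E i.succ) p ≤ ∑ _i : Fin N, 1 / (8 * ((N : ℝ) + 1)) :=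
      Finset.sum_le_sum fun i _ => H₃ i p ((hr3 i).trans hp)
    rw [Finset.sum_const, Finset.card_univ, Fintype.card_fin, nsmul_eq_mul] at h5
    have h6 : (N : ℝ) * (1 / (8 * ((N : ℝ) + 1))) ≤ 1 / 8 := by
      rw [mul_one_div, div_le_div_iff₀ (by positivity) (by norm_num)]
      linarith
    linarith
  · intro i
    exact H₂ i n (hn2 i)
  · intro ρ hρ
    have hρ0 : 0 < ρ := lt_of_lt_of_le hr0 hρ
    -- the cut-off function
    let χ : ContDiffBump (0 : ℂ) := ⟨2 * ρ + 1, 2 * ρ + 2, by linarith, by linarith⟩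
    have hχs : ContDiff ℝ 1 (fun p => χ p) := χ.contDiff
    have hχc : HasCompactSupport (fun p => χ p) := χ.hasCompactSupport
    have hχ01 : ∀ p, 0 ≤ χ p ∧ χ p ≤ 1 := fun p => ⟨χ.nonneg, χ.le_one⟩
    have hχ1 : ∀ p, ‖p‖ ≤ 2 * ρ + 1 → χ p = 1 := fun p hp =>
      χ.one_of_mem_closedBall (by rwa [mem_closedBall_zero_iff])
    have hF := no_F_cont hu
    have hF0 := no_F_nonneg hu hnn hsum
    have i1 : Integrable (fun p => χ p * ∑ i, ‖gr (ml n (E i)) p‖ * GK (KN N) (ml n (E i) p)) :=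
      (hχs.continuous.mul hF).integrable_of_hasCompactSupport hχc.mul_right
    have h4 : ∫ p in Sq ρ, ∑ i, ‖gr (ml n (E i)) p‖ * GK (KN N) (ml n (E i) p) ≤
        ∫ p, χ p * ∑ i, ‖gr (ml n (E i)) p‖ * GK (KN N) (ml n (E i) p) := by
      have h5 : ∫ p in Sq ρ, ∑ i, ‖gr (ml n (E i)) p‖ * GK (KN N) (ml n (E i) p) =
          ∫ p in Sq ρ, χ p * ∑ i, ‖gr (ml n (E i)) p‖ * GK (KN N) (ml n (E i) p) := by
        refine setIntegral_congr_fun (Sq_meas ρ) fun p hp => ?_
        rw [hχ1 p ((Complex.norm_le_abs_re_add_abs_im p).trans (by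
          have := hp.1
          have := hp.2
          linarith)), one_mul]
      rw [h5]
      exact setIntegral_le_integral i1 (Filter.Eventually.of_forall fun p =>
        mul_nonneg (hχ01 p).1 (hF0 p))
    have h6 : ∫ p, χ p * ∑ i, ‖gr (ml n (E i)) p‖ * GK (KN N) (ml n (E i) p) =
        ∑ i, ∫ p, χ p * (‖gr (ml n (E i)) p‖ * GK (KN N) (ml n (E i) p)) := by
      rw [← integral_finsetSum]
      · refine integral_congr_ae (Filter.Eventually.of_forall fun p => ?_)
        simp only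
        rw [Finset.mul_sum]
      · intro i _
        exact (hχs.continuous.mul (((gr_cont (hu i)).continuous.norm).mul
          ((no_GK_cont _).comp (hu i).continuous))).integrable_of_hasCompactSupport hχc.mul_right
    have h7 : ∑ i, ∫ p, χ p * (‖gr (ml n (E i)) p‖ * GK (KN N) (ml n (E i) p)) ≤
        ∑ i, (P (E i) / 2 + κ / ((N : ℝ) + 1)) := by
      refine Finset.sum_le_sum fun i _ => ?_
      refine H₁ i n (hn1 i) (fun p => χ p) hχs hχc hχ01 fun p hp => hχ1 p ?_
      have := hr1 i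
      linarith
    have h8 : ∑ i : Fin (N + 1), (P (E i) / 2 + κ / ((N : ℝ) + 1)) = (∑ i, P (E i)) / 2 + κ := by
      rw [Finset.sum_add_distrib, ← Finset.sum_div, Finset.sum_const, Finset.card_univ,
        Fintype.card_fin, nsmul_eq_mul]
      congr 1
      push_cast
      field_simp
    linarith

/-- The approximation theorem. -/
theorem approx {N : ℕ} {R : Fin N → Set ℂ} (hR : Pool.Agent.Helper79.HC.IsCluster R)
    (hP : Pool.Agent.Helper79.HC.clusterPer R < ⊤) {δ : ℝ} (hδ : 0 < δ) :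
    ∃ (G : Net) (n : ℕ) (c : V → Fin (N + 1)), OutBox c 0 n ∧
      (∀ i : Fin N, 1 - δ ≤ ar G c n i.succ) ∧
      per2 G c n ≤ 2 * (Pool.Agent.Helper79.HC.clusterPer R).toReal + δ := by
  have hA0 : 0 < A0 := by unfold A0; positivity
  obtain ⟨E, hEdef⟩ : ∃ E : Fin (N + 1) → Set ℂ, E = Fin.cons (⋃ i, R i)ᶜ R := ⟨_, rfl⟩
  have hE0 : E 0 = (⋃ i, R i)ᶜ := by rw [hEdef]; rfl
  have hEs : ∀ i : Fin N, E i.succ = R i := fun i => by rw [hEdef]; rfl
  have hPout : Pool.Agent.Helper79.HC.Per (⋃ i, R i)ᶜ < ⊤ := by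
    unfold Pool.Agent.Helper79.HC.clusterPer at hP
    rw [lt_top_iff_ne_top] at hP ⊢
    intro h
    apply hP
    rw [h, top_add]
    exact ENNReal.top_div_of_ne_top (by norm_num)
  have hE : IsPart E := by
    refine ⟨?_, ?_, ?_, ?_, ?_⟩
    · intro i
      refine Fin.cases ?_ (fun i => ?_) i
      · rw [hE0]
        exact (MeasurableSet.iUnion hR.measurable).compl
      · rw [hEs]
        exact hR.measurable i
    · have h1 : ∀ i : Fin N, Disjoint (E 0) (E i.succ) := by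
        intro i
        rw [hE0, hEs, Set.disjoint_left]
        intro x hx hxi
        exact hx (Set.mem_iUnion.2 ⟨i, hxi⟩)
      intro i j
      refine Fin.cases ?_ (fun i => ?_) i
      · refine Fin.cases (fun h => absurd rfl h) (fun j _ => h1 j) j
      · refine Fin.cases (fun _ => (h1 i).symm) (fun j hij => ?_) j
        rw [hEs, hEs]
        exact hR.disjoint i j fun h => hij (by rw [h])
    · rw [Set.eq_univ_iff_forall]
      intro x
      rw [Set.mem_iUnion]
      by_cases hx : x ∈ ⋃ i, R i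
      · obtain ⟨i, hi⟩ := Set.mem_iUnion.1 hx
        exact ⟨i.succ, by rwa [hEs]⟩
      · exact ⟨0, by rw [hE0]; exact hx⟩
    · intro i
      rw [hEs]
      exact hR.area i
    · intro i
      refine Fin.cases ?_ (fun i => ?_) i
      · rw [hE0]
        exact hPout
      · rw [hEs]
        exact hR.finite i
  have hsum : ∑ i, P (E i) = 2 * (Pool.Agent.Helper79.HC.clusterPer R).toReal := by
    rw [Fin.sum_univ_succ]
    unfold Pool.Agent.Helper79.HC.clusterPer
    rw [ENNReal.toReal_div, ENNReal.toReal_add hPout.ne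
      (ENNReal.sum_lt_top.2 fun i _ => hR.finite i).ne,
      ENNReal.toReal_sum fun i _ => (hR.finite i).ne]
    have h2 : ∀ i : Fin N, P (E i.succ) = (Pool.Agent.Helper79.HC.Per (R i)).toReal := fun i => by
      rw [hEs]
      rfl
    rw [Finset.sum_congr rfl fun i _ => h2 i]
    have h3 : P (E 0) = (Pool.Agent.Helper79.HC.Per (⋃ i, R i)ᶜ).toReal := by
      rw [hE0]
      rfl
    rw [h3]
    simp only [ENNReal.toReal_ofNat]
    ring
  obtain ⟨κ, hκ⟩ : ∃ κ, κ = min (δ / 4) (δ * A0) := ⟨_, rfl⟩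
  have hκ0 : 0 < κ := by rw [hκ]; exact lt_min (by linarith) (by positivity)
  have hκ1 : κ ≤ δ / 4 := by rw [hκ]; exact min_le_left _ _
  have hκ2 : κ ≤ δ * A0 := by rw [hκ]; exact min_le_right _ _
  obtain ⟨r, u, hr, hu⟩ := exists_smooth hE hκ0
  obtain ⟨G, n, c, h1, h2, h3⟩ := net_of_smooth hu hr hκ0.le (δ := δ / 2) (by linarith)
  refine ⟨G, n, c, h1, fun i => le_trans ?_ (h2 i), ?_⟩
  · rw [le_div_iff₀ hA0]
    linarith
  · rw [hsum] at h3
    linarith

end Pool.Agent.Helper38.LCA
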