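import Pool.Agent.Helper98.LC.Defs
import Pool.Agent.Helper79.HC.Defs

/-!
# Project LC, block A (approximation of clusters by labelled nets): definitions

Labels are `Fin (N + 1)`; `v x i` are the values of `N + 1` nonnegative functions with sum `1` at the
vertices of the grid, `c i ∈ [0, 1/4]` are thresholds.  The label of `x` is an index `i` with the
largest `v x i - c i`.
-/

namespace Pool.Agent.Helper38.LCA

open Finset Real Pool.Agent.Helper98.LC

/-- the position of a vertex -/
noncomputable def pos (h : ℝ) (x : V) : ℂ := ⟨h * (x.1 : ℝ), h * (x.2 : ℝ)⟩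

/-- the label of a vertex -/
noncomputable def lab {N : ℕ} (v : V → Fin (N + 1) → ℝ) (c : Fin (N + 1) → ℝ) (x : V) :
    Fin (N + 1) :=
  (Finite.exists_max fun i => v x i - c i).choose

/-- no ties -/
def Gen {N : ℕ} (v : V → Fin (N + 1) → ℝ) (c : Fin (N + 1) → ℝ) : Prop :=
  ∀ x i j, i ≠ j → v x i - v x j ≠ c i - c j

/-- the difference of the two competing functions -/
noncomputable def dd {N : ℕ} (v : V → Fin (N + 1) → ℝ) (c : Fin (N + 1) → ℝ) (x : V)
    (i j : Fin (N + 1)) : ℝ := (v x i - c i) - (v x j - c j)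

/-- the crossing point of an edge -/
noncomputable def qpt {N : ℕ} (h : ℝ) (v : V → Fin (N + 1) → ℝ) (c : Fin (N + 1) → ℝ)
    (x y : V) : ℂ :=
  if lab v c x = lab v c y then (pos h x + pos h y) / 2
  else
    ((dd v c x (lab v c x) (lab v c y) : ℝ) * pos h y -
      (dd v c y (lab v c x) (lab v c y) : ℝ) * pos h x) /
      ((dd v c x (lab v c x) (lab v c y) - dd v c y (lab v c x) (lab v c y) : ℝ) : ℂ)

/-- `1` if the labels are different -/
noncomputable def chg {N : ℕ} (v : V → Fin (N + 1) → ℝ) (c : Fin (N + 1) → ℝ) (x y : V) : ℝ :=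
  if lab v c x = lab v c y then 0 else 1

open Classical in
/-- the centre of a triangle: the mean of the crossing points of the edges with different labels -/
noncomputable def zpt {N : ℕ} (h : ℝ) (v : V → Fin (N + 1) → ℝ) (c : Fin (N + 1) → ℝ)
    (x y w : V) : ℂ :=
  if lab v c x = lab v c y ∧ lab v c y = lab v c w then (pos h x + pos h y + pos h w) / 3
  else
    ((chg v c x y : ℂ) * qpt h v c x y + (chg v c y w : ℂ) * qpt h v c y w +
      (chg v c w x : ℂ) * qpt h v c w x) / ((chg v c x y + chg v c y w + chg v c w x : ℝ) : ℂ)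

/-- the half of the interface in the triangle on the left side of the dart `(x, k)` -/
noncomputable def SS {ι : Type} [DecidableEq ι] (G : Net) (c : V → ι) (x : V) (k : Fin 6) : ℝ :=
  (if c x = c (x + dir k) then 0 else ‖G.z x k - G.q x k‖) +
  (if c (x + dir k) = c (x + dir (k + 1)) then 0 else ‖G.z x k - G.q (x + dir k) (k + 2)‖) +
  (if c (x + dir (k + 1)) = c x then 0 else ‖G.z x k - G.q (x + dir (k + 1)) (k + 4)‖)

/-- the density of the difference of two independent thresholds -/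
noncomputable def fE (s : ℝ) : ℝ := max 0 (4 - 16 * |s|)

/-- the weight -/
noncomputable def GK (K s : ℝ) : ℝ := fE (2 * s - 1) + K * (1 / 2 - s)

/-- the constant of the weight -/
noncomputable def KN (N : ℕ) : ℝ := 128 * ((N : ℝ) + 1) ^ 3

/-- one vertex is separated from the two others at the level `s` -/
noncomputable def iso1 (a b c s : ℝ) : ℝ :=
  if (a - s) * (b - s) < 0 ∧ (a - s) * (c - s) < 0 then |a - s| / (|a - b| * |a - c|) else 0

/-- the normalised length of the level segment in a triangle -/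
noncomputable def Iso (a b c s : ℝ) : ℝ := iso1 a b c s + iso1 b c a s + iso1 c a b s

/-- `2 * area * |gradient|` of the affine function with the values `a, b, c` at `x, y, w` -/
noncomputable def Rr (h : ℝ) (x y w : V) (a b c : ℝ) : ℝ :=
  ‖(a : ℂ) * (pos h y - pos h w) + (b : ℂ) * (pos h w - pos h x) + (c : ℂ) * (pos h x - pos h y)‖

/-- pairs of labels which may meet near `x` -/
def Al {N : ℕ} (ω : ℝ) (v : Fin (N + 1) → ℝ) (i j : Fin (N + 1)) : Prop :=
  i < j ∧ (∀ k, v k - 1 / 4 - 2 * ω ≤ v i) ∧ (∀ k, v k - 1 / 4 - 2 * ω ≤ v j)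

/-- the gradient -/
noncomputable def gr (u : ℂ → ℝ) (p : ℂ) : ℂ := ⟨fderiv ℝ u p 1, fderiv ℝ u p Complex.I⟩

/-- the square -/
def Sq (r : ℝ) : Set ℂ := {p | |p.re| ≤ r ∧ |p.im| ≤ r}

/-- A partition of the plane into `N` regions with area `A0` and an outer region `E 0`, all with
finite perimeter. -/
structure IsPart {N : ℕ} (E : Fin (N + 1) → Set ℂ) : Prop where
  meas : ∀ i, MeasurableSet (E i)
  disj : ∀ i j, i ≠ j → Disjoint (E i) (E j)
  cover : ⋃ i, E i = Set.univ
  vol : ∀ i : Fin N, MeasureTheory.volume (E i.succ) = ENNReal.ofReal Pool.Agent.Helper79.HC.A0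
  per : ∀ i, Pool.Agent.Helper79.HC.Per (E i) < ⊤

/-- the real perimeter -/
noncomputable def P (E : Set ℂ) : ℝ := (Pool.Agent.Helper79.HC.Per E).toReal

/-- A smooth partition of unity near the partition `E`. -/
structure SmoothPart {N : ℕ} (E : Fin (N + 1) → Set ℂ) (κ r : ℝ) (u : Fin (N + 1) → ℂ → ℝ) :
    Prop where
  smooth : ∀ i, ContDiff ℝ 2 (u i)
  nonneg : ∀ i p, 0 ≤ u i p
  sum_eq : ∀ p, ∑ i, u i p = 1
  far : ∀ p, r ≤ ‖p‖ → 7 / 8 ≤ u 0 p
  vol : ∀ i : Fin N,
    ENNReal.ofReal (A0 - κ) ≤ MeasureTheory.volume {p | 3 / 4 < u i.succ p}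
  per : ∀ ρ, r ≤ ρ → ∫ p in Sq ρ, ∑ i, ‖gr (u i) p‖ * GK (KN N) (u i p) ≤ (∑ i, P (E i)) / 2 + κ

end Pool.Agent.Helper38.LCA
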