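import Pool.Agent.Helper38.LCA.Defs

/-!
# LCA-01: the pointwise inequality

`n = N + 1` labels, `m = ∑ ‖g i‖`, `D = ∑ ‖g i‖ (1/2 - v i) = ∑ v i (m/2 - ‖g i‖)` (`∑ v = 1`).  `g i = - ∑_{j ≠ i} g j`, so `‖g i‖ ≤ m/2` and `D ≥ 0`.
`fE` is even, `0 ≤ fE ≤ 4`, and Lipschitz with constant 16.  The right side is `∑ ‖g i‖ fE (2 v i - 1) + KN N * D`, `KN N = 128 n³`.
* If `v i, v j, v l ≥ τ ≥ 0` for distinct `i, j, l`: `D ≥ τ (3m/2 - ‖g i‖ - ‖g j‖ - ‖g l‖) ≥ τ m / 2`.
* If `N = 0` the left side is `0`.  If `N ≥ 1` let `a ≠ b` be the labels of the two largest values: `v l ≤ v b ≤ v a` for all `l ≠ a, b` (`Finset.exists_max_image` twice).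
  So `v l * m ≤ 2 D` for `l ≠ a, b`, and `(1 - v a - v b) m = ∑_{l ≠ a, b} v l * m ≤ 2 n D`.
* The pair `{a, b}`: `‖g a - g b‖ fE (v a - v b) ≤ (‖g a‖ + ‖g b‖) fE (v a - v b)`; `fE (v a - v b) ≤ fE (2 v a - 1) + 16 (1 - v a - v b)` and the same with `b`
  (`|(2 v b - 1) - (v b - v a)| = 1 - v a - v b`).  So the term is `≤ ‖g a‖ fE (2 v a - 1) + ‖g b‖ fE (2 v b - 1) + 16 * 2 n D`.
* If another pair `(i, j)` is allowed, then there is `l ≠ a, b` in `{i, j}` with `v l ≥ v a - 1/4 - 2ω ≥ v a - 3/8`.  If `v a ≥ 7/16` then `v l ≥ 1/16`; otherwise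
  `∑_{l ≠ a, b} v l = 1 - v a - v b ≥ 1/8`, so some `l ≠ a, b` has `v l ≥ 1/(8n)`.  In any case `m / (16 n) ≤ 2 D`, `m ≤ 32 n D`.  There are at most `n²/2` pairs `i < j` and each
  term is `≤ 4 m`: together `≤ 64 n³ D`.  Total: `32 n + 64 n³ ≤ 128 n³`.
-/

namespace Pool.Agent.Helper38.LCA

open Finset Real Pool.Agent.Helper98.LC

private theorem po_fE_nonneg (s : ℝ) : 0 ≤ fE s := le_max_left _ _

private theorem po_fE_le (s : ℝ) : fE s ≤ 4 := by
  unfold fE
  have := abs_nonneg s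
  exact max_le (by norm_num) (by linarith)

private theorem po_fE_lip (s t : ℝ) : fE s ≤ fE t + 16 * |s - t| := by
  unfold fE
  have h1 := abs_sub_abs_le_abs_sub t s
  rw [abs_sub_comm t s] at h1
  have h2 := abs_nonneg (s - t)
  apply max_le
  · have := le_max_left 0 (4 - 16 * |t|)
    linarith
  · have := le_max_right 0 (4 - 16 * |t|)
    linarith

private theorem po_fE_neg (s : ℝ) : fE (-s) = fE s := by
  unfold fE
  rw [abs_neg]

private theorem po_two {n : ℕ} (f : Fin n → ℝ) (hf : ∀ i, 0 ≤ f i) {a b : Fin n} (hab : a ≠ b) :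
    f a + f b ≤ ∑ i, f i := by
  have h1 : ∑ i ∈ ({a, b} : Finset (Fin n)), f i ≤ ∑ i, f i :=
    Finset.sum_le_sum_of_subset_of_nonneg (Finset.subset_univ _) fun i _ _ => hf i
  rwa [Finset.sum_pair hab] at h1

private theorem po_three {n : ℕ} (f : Fin n → ℝ) (hf : ∀ i, 0 ≤ f i) {a b l : Fin n}
    (hab : a ≠ b) (hal : l ≠ a) (hbl : l ≠ b) : f a + f b + f l ≤ ∑ i, f i := by
  have h1 : ∑ i ∈ ({l, a, b} : Finset (Fin n)), f i ≤ ∑ i, f i :=
    Finset.sum_le_sum_of_subset_of_nonneg (Finset.subset_univ _) fun i _ _ => hf i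
  rw [Finset.sum_insert (by simp [hal, hbl]), Finset.sum_pair hab] at h1
  linarith

open Classical in
theorem point {N : ℕ} {ω : ℝ} (hω : ω ≤ 1 / 16) (v : Fin (N + 1) → ℝ) (hv : ∀ i, 0 ≤ v i)
    (hs : ∑ i, v i = 1) (g : Fin (N + 1) → ℂ) (hg : ∑ i, g i = 0) :
    ∑ i, ∑ j, (if Al ω v i j then ‖g i - g j‖ * fE (v i - v j) else 0) ≤
      ∑ i, ‖g i‖ * GK (KN N) (v i) := by
  obtain ⟨m, hm⟩ : ∃ m : ℝ, m = ∑ i, ‖g i‖ := ⟨_, rfl⟩
  obtain ⟨D, hD⟩ : ∃ D : ℝ, D = ∑ i, ‖g i‖ * (1 / 2 - v i) := ⟨_, rfl⟩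
  obtain ⟨n, hn⟩ : ∃ n : ℝ, n = (N : ℝ) + 1 := ⟨_, rfl⟩
  have hm0 : 0 ≤ m := by rw [hm]; exact Finset.sum_nonneg fun i _ => norm_nonneg _
  -- the half bound
  have hhalf : ∀ i, ‖g i‖ ≤ m / 2 := by
    intro i
    have h1 : g i = -∑ j ∈ Finset.univ.erase i, g j := by
      have h2 := Finset.add_sum_erase Finset.univ g (Finset.mem_univ i)
      rw [hg] at h2
      exact eq_neg_of_add_eq_zero_left h2
    have h3 : ‖g i‖ ≤ ∑ j ∈ Finset.univ.erase i, ‖g j‖ := by
      conv_lhs => rw [h1, norm_neg]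
      exact norm_sum_le _ _
    have h4 := Finset.add_sum_erase Finset.univ (fun j => ‖g j‖) (Finset.mem_univ i)
    have h5 : ‖g i‖ + ∑ j ∈ Finset.univ.erase i, ‖g j‖ = m := by rw [hm]; exact h4
    linarith
  have hD' : D = ∑ i, v i * (m / 2 - ‖g i‖) := by
    have h1 : ∑ i, v i * (m / 2 - ‖g i‖) = (∑ i, v i) * (m / 2) - ∑ i, v i * ‖g i‖ := by
      rw [Finset.sum_mul, ← Finset.sum_sub_distrib]
      exact Finset.sum_congr rfl fun i _ => by ring
    have h2 : D = (∑ i, ‖g i‖) * (1 / 2) - ∑ i, v i * ‖g i‖ := by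
      rw [hD, Finset.sum_mul, ← Finset.sum_sub_distrib]
      exact Finset.sum_congr rfl fun i _ => by ring
    rw [h1, h2, hs, ← hm]
    ring
  have hterm : ∀ i, 0 ≤ v i * (m / 2 - ‖g i‖) := fun i =>
    mul_nonneg (hv i) (by linarith [hhalf i])
  have hD0 : 0 ≤ D := by rw [hD']; exact Finset.sum_nonneg fun i _ => hterm i
  have hR : ∑ i, ‖g i‖ * GK (KN N) (v i) =
      ∑ i, ‖g i‖ * fE (2 * v i - 1) + KN N * D := by
    rw [hD, Finset.mul_sum, ← Finset.sum_add_distrib]
    refine Finset.sum_congr rfl fun i _ => ?_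
    unfold GK
    ring
  have hKN : KN N = 128 * n ^ 3 := by rw [hn]; rfl
  have hF0 : 0 ≤ ∑ i, ‖g i‖ * fE (2 * v i - 1) :=
    Finset.sum_nonneg fun i _ => mul_nonneg (norm_nonneg _) (po_fE_nonneg _)
  have hn1 : 1 ≤ n := by
    rw [hn]
    have : (0 : ℝ) ≤ (N : ℝ) := Nat.cast_nonneg N
    linarith
  rw [hR, hKN]
  rcases Nat.eq_zero_or_pos N with hN | hN
  · -- N = 0
    subst hN
    have h1 : ∑ i : Fin (0 + 1), ∑ j : Fin (0 + 1),
        (if Al ω v i j then ‖g i - g j‖ * fE (v i - v j) else 0) = 0 := by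
      refine Finset.sum_eq_zero fun i _ => Finset.sum_eq_zero fun j _ => ?_
      rw [if_neg]
      rintro ⟨h1, -⟩
      have h2 : i = j := Fin.ext (by
        have := i.2
        have := j.2
        omega)
      rw [h2] at h1
      exact lt_irrefl _ h1
    rw [h1]
    positivity
  have hn2 : 2 ≤ n := by
    rw [hn]
    have : (1 : ℝ) ≤ (N : ℝ) := by exact_mod_cast hN
    linarith
  -- the largest value
  obtain ⟨a, -, ha⟩ := Finset.exists_max_image (Finset.univ : Finset (Fin (N + 1))) v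
    ⟨0, Finset.mem_univ _⟩
  obtain ⟨b, hb', hb⟩ := Finset.exists_max_image ((Finset.univ : Finset (Fin (N + 1))).erase a) v (by
    rw [← Finset.card_pos, Finset.card_erase_of_mem (Finset.mem_univ _), Finset.card_univ,
      Fintype.card_fin]
    omega)
  have hba : b ≠ a := (Finset.mem_erase.1 hb').1
  have hab : a ≠ b := hba.symm
  have hvb : v b ≤ v a := ha b (Finset.mem_univ _)
  have hl : ∀ l, l ≠ a → l ≠ b → v l * m ≤ 2 * D := by
    intro l hla hlb
    have h1 : v l ≤ v b := hb l (Finset.mem_erase.2 ⟨hla, Finset.mem_univ _⟩)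
    have h2 := po_three (fun i => v i * (m / 2 - ‖g i‖)) hterm hab hla hlb
    rw [← hD'] at h2
    have h3 := po_three (fun i => ‖g i‖) (fun i => norm_nonneg _) hab hla hlb
    rw [← hm] at h3
    have h4 : v l * (m / 2 - ‖g a‖) ≤ v a * (m / 2 - ‖g a‖) :=
      mul_le_mul_of_nonneg_right (by linarith) (by linarith [hhalf a])
    have h5 : v l * (m / 2 - ‖g b‖) ≤ v b * (m / 2 - ‖g b‖) :=
      mul_le_mul_of_nonneg_right h1 (by linarith [hhalf b])
    have h6 : v l * (m / 2) ≤
        v l * (m / 2 - ‖g a‖) + v l * (m / 2 - ‖g b‖) + v l * (m / 2 - ‖g l‖) := by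
      have h7 : 0 ≤ v l * (m - (‖g a‖ + ‖g b‖ + ‖g l‖)) :=
        mul_nonneg (hv l) (by linarith)
      linarith
    linarith
  have hrest : (1 - v a - v b) * m ≤ 2 * n * D := by
    have h1 : ∑ l ∈ (Finset.univ.erase a).erase b, v l = 1 - v a - v b := by
      have h2 := Finset.add_sum_erase Finset.univ v (Finset.mem_univ a)
      have h3 := Finset.add_sum_erase (Finset.univ.erase a) v hb'
      rw [hs] at h2
      linarith
    rw [← h1, Finset.sum_mul]
    have h4 : ∑ l ∈ (Finset.univ.erase a).erase b, v l * m ≤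
        ∑ _l ∈ (Finset.univ.erase a).erase b, 2 * D := by
      refine Finset.sum_le_sum fun l hl' => ?_
      have h5 := Finset.mem_erase.1 hl'
      have h6 := Finset.mem_erase.1 h5.2
      exact hl l h6.1 h5.1
    refine h4.trans ?_
    rw [Finset.sum_const, nsmul_eq_mul]
    have h7 : (((Finset.univ.erase a).erase b).card : ℝ) ≤ n := by
      have h8 : ((Finset.univ.erase a).erase b).card ≤ N + 1 := by
        refine (Finset.card_le_card (Finset.subset_univ _)).trans ?_
        rw [Finset.card_univ, Fintype.card_fin]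
      rw [hn]
      exact_mod_cast h8
    nlinarith
  have hrest0 : 0 ≤ 1 - v a - v b := by
    have := po_two v hv hab
    rw [hs] at this
    linarith
  have hgab : ‖g a‖ + ‖g b‖ ≤ m := by
    rw [hm]
    exact po_two (fun i => ‖g i‖) (fun i => norm_nonneg _) hab
  -- the main pair
  obtain ⟨X, hX⟩ : ∃ X : ℝ, X = ‖g a‖ * fE (2 * v a - 1) + ‖g b‖ * fE (2 * v b - 1) +
      32 * n * D := ⟨_, rfl⟩
  have hX0 : 0 ≤ X := by
    rw [hX]
    have h1 := mul_nonneg (norm_nonneg (g a)) (po_fE_nonneg (2 * v a - 1))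
    have h2 := mul_nonneg (norm_nonneg (g b)) (po_fE_nonneg (2 * v b - 1))
    have h3 : 0 ≤ 32 * n * D := by positivity
    linarith
  have hmain : ‖g a - g b‖ * fE (v a - v b) ≤ X := by
    have h1 : fE (v a - v b) ≤ fE (2 * v a - 1) + 16 * (1 - v a - v b) := by
      have h2 := po_fE_lip (v a - v b) (2 * v a - 1)
      have h3 : v a - v b - (2 * v a - 1) = 1 - v a - v b := by ring
      rw [h3, abs_of_nonneg hrest0] at h2
      exact h2
    have h1' : fE (v a - v b) ≤ fE (2 * v b - 1) + 16 * (1 - v a - v b) := by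
      have h2 := po_fE_lip (-(v a - v b)) (2 * v b - 1)
      have h3 : -(v a - v b) - (2 * v b - 1) = 1 - v a - v b := by ring
      rw [h3, abs_of_nonneg hrest0, po_fE_neg] at h2
      exact h2
    have h4 : ‖g a - g b‖ * fE (v a - v b) ≤ (‖g a‖ + ‖g b‖) * fE (v a - v b) :=
      mul_le_mul_of_nonneg_right (norm_sub_le _ _) (po_fE_nonneg _)
    have h5 := mul_le_mul_of_nonneg_left h1 (norm_nonneg (g a))
    have h6 := mul_le_mul_of_nonneg_left h1' (norm_nonneg (g b))
    have h7 : (‖g a‖ + ‖g b‖) * (1 - v a - v b) ≤ m * (1 - v a - v b) :=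
      mul_le_mul_of_nonneg_right hgab hrest0
    rw [hX]
    nlinarith
  -- the other pairs
  have hoth : ∀ i j, Al ω v i j → ¬ (i = a ∧ j = b) → ¬ (i = b ∧ j = a) →
      ‖g i - g j‖ * fE (v i - v j) ≤ 64 * n * D := by
    rintro i j ⟨hij, hi, hj⟩ h1 h2
    have hne : i ≠ j := ne_of_lt hij
    have hmn : m ≤ 16 * n * D := by
      by_cases hva : 7 / 16 ≤ v a
      · obtain ⟨l, hla, hlb, hvl⟩ : ∃ l, l ≠ a ∧ l ≠ b ∧ v a - 1 / 4 - 2 * ω ≤ v l := by
          by_cases hia : i = a
          · refine ⟨j, ?_, ?_, hj a⟩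
            · rw [← hia]; exact hne.symm
            · intro h3
              exact h1 ⟨hia, h3⟩
          · by_cases hib : i = b
            · refine ⟨j, ?_, ?_, hj a⟩
              · intro h3
                exact h2 ⟨hib, h3⟩
              · rw [← hib]; exact hne.symm
            · exact ⟨i, hia, hib, hi a⟩
        have h3 := hl l hla hlb
        have h4 : 1 / 16 ≤ v l := by linarith
        have h5 : 1 / 16 * m ≤ v l * m := mul_le_mul_of_nonneg_right h4 hm0
        nlinarith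
      · have h3 : 1 / 8 ≤ 1 - v a - v b := by linarith
        have h4 : 1 / 8 * m ≤ (1 - v a - v b) * m := mul_le_mul_of_nonneg_right h3 hm0
        linarith
    have h3 : ‖g i - g j‖ ≤ m := by
      refine (norm_sub_le _ _).trans ?_
      rw [hm]
      exact po_two (fun i => ‖g i‖) (fun i => norm_nonneg _) hne
    have h4 : ‖g i - g j‖ * fE (v i - v j) ≤ m * 4 :=
      mul_le_mul h3 (po_fE_le _) (po_fE_nonneg _) hm0
    linarith
  -- sorted pair
  obtain ⟨p, q, hpq, hpq', hpqX⟩ : ∃ p q : Fin (N + 1),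
      (∀ i j, Al ω v i j → ¬ (i = p ∧ j = q) → ‖g i - g j‖ * fE (v i - v j) ≤ 64 * n * D) ∧
      p ≠ q ∧ ‖g p - g q‖ * fE (v p - v q) ≤ X := by
    rcases lt_or_gt_of_ne hab with hlt | hlt
    · refine ⟨a, b, ?_, hab, hmain⟩
      intro i j hij h1
      refine hoth i j hij h1 ?_
      rintro ⟨rfl, rfl⟩
      exact absurd hij.1 (not_lt.2 hlt.le)
    · refine ⟨b, a, ?_, hba, ?_⟩
      · intro i j hij h1
        refine hoth i j hij ?_ h1
        rintro ⟨rfl, rfl⟩
        exact absurd hij.1 (not_lt.2 hlt.le)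
      · rw [norm_sub_rev, show v b - v a = -(v a - v b) by ring, po_fE_neg]
        exact hmain
  have hnD : 0 ≤ 64 * n * D := by positivity
  have hbound : ∀ i j, (if Al ω v i j then ‖g i - g j‖ * fE (v i - v j) else 0) ≤
      (if i = p then (if j = q then X else 0) else 0) + 64 * n * D := by
    intro i j
    by_cases hij : Al ω v i j
    · rw [if_pos hij]
      by_cases hi : i = p
      · by_cases hj : j = q
        · rw [if_pos hi, if_pos hj, hi, hj]
          linarith
        · rw [if_pos hi, if_neg hj, zero_add]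
          exact hpq i j hij fun h => hj h.2
      · rw [if_neg hi, zero_add]
        exact hpq i j hij fun h => hi h.1
    · rw [if_neg hij]
      by_cases hi : i = p
      · by_cases hj : j = q
        · rw [if_pos hi, if_pos hj]
          linarith
        · rw [if_pos hi, if_neg hj, zero_add]
          exact hnD
      · rw [if_neg hi, zero_add]
        exact hnD
  have hsum : ∑ i, ∑ j, (if Al ω v i j then ‖g i - g j‖ * fE (v i - v j) else 0) ≤
      X + n * (n * (64 * n * D)) := by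
    have h1 : ∑ i, ∑ j, (if Al ω v i j then ‖g i - g j‖ * fE (v i - v j) else 0) ≤
        ∑ i, ∑ j, ((if i = p then (if j = q then X else 0) else 0) + 64 * n * D) :=
      Finset.sum_le_sum fun i _ => Finset.sum_le_sum fun j _ => hbound i j
    refine h1.trans (le_of_eq ?_)
    have h2 : ∀ i : Fin (N + 1), ∑ j : Fin (N + 1),
        ((if i = p then (if j = q then X else 0) else 0) + 64 * n * D) =
        (if i = p then X else 0) + n * (64 * n * D) := by
      intro i
      rw [Finset.sum_add_distrib, Finset.sum_const, Finset.card_univ, Fintype.card_fin,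
        nsmul_eq_mul]
      have h3 : ∑ j : Fin (N + 1), (if i = p then (if j = q then X else 0) else 0) =
          if i = p then X else 0 := by
        by_cases hi : i = p
        · simp [hi]
        · simp [hi]
      rw [h3, hn]
      push_cast
      ring
    rw [Finset.sum_congr rfl fun i _ => h2 i, Finset.sum_add_distrib, Finset.sum_const,
      Finset.card_univ, Fintype.card_fin, nsmul_eq_mul]
    have h4 : ∑ i : Fin (N + 1), (if i = p then X else 0) = X := by simp
    rw [h4, hn]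
    push_cast
    ring
  have hXle : X ≤ ∑ i, ‖g i‖ * fE (2 * v i - 1) + 32 * n * D := by
    rw [hX]
    have := po_two (fun i => ‖g i‖ * fE (2 * v i - 1))
      (fun i => mul_nonneg (norm_nonneg _) (po_fE_nonneg _)) hab
    linarith
  have hfin : 32 * n * D + n * (n * (64 * n * D)) ≤ 128 * n ^ 3 * D := by
    have h1 : 32 * n + n * (n * (64 * n)) ≤ 128 * n ^ 3 := by nlinarith [mul_nonneg (by linarith : (0:ℝ) ≤ n) (sq_nonneg n)]
    have h2 := mul_le_mul_of_nonneg_right h1 hD0
    linarith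
  linarith

end Pool.Agent.Helper38.LCA
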