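import Pool.Agent.Helper38.LCA.Exp
import Pool.Agent.Helper38.LCA.Point

/-!
# LCA-08: the mean in one triangle and the weight

`Y = pos y - pos x`, `W = pos w - pos x` with `y = x + dir k`, `w = x + dir (k + 1)`: `|cr Y W| = h²`, `‖Y‖, ‖W‖ ≤ √2 h ≤ (3/2) h` (`fin_cases k`).
* `Rr_le`: `a (y - w) + b (w - x) + c (x - y) = (b - a) W - (c - a) Y`.  For real numbers `β = g·Y`, `γ = g·W` (real scalar products, `g·Y = g.re Y.re + g.im Y.im`):
  `‖β W - γ Y‖ = ‖g‖ |cr Y W| = ‖g‖ h²` (both squares are equal; identity).  So `Rr ≤ ‖g‖ h² + e (‖W‖ + ‖Y‖)`.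
* `EE_le`: for the pair `i, j` take `g = g i - g j`, `e = 2e`: `Rr ≤ h² ‖g i - g j‖ + 6 h e`; `(fE + 32 ω)/2 ≤ fE / 2 + 16 ω`, `fE ≤ 4`, `16 ω ≤ 1`, `‖g i - g j‖ ≤ 2 Gb`:
  `Rr (fE + 32ω)/2 ≤ h² ‖g i - g j‖ fE / 2 + 32 h² Gb ω + 18 h e`; at most `(N+1)²` pairs; `point` for the first part.
-/

namespace Pool.Agent.Helper38.LCA

open Finset Real Pool.Agent.Helper98.LC

private theorem ee_cr : ∀ k : Fin 6,
    (dir k).1 * (dir (k + 1)).2 - (dir k).2 * (dir (k + 1)).1 = 1 := by decide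

private theorem ee_sq : ∀ k : Fin 6, (dir k).1 ^ 2 + (dir k).2 ^ 2 ≤ 2 := by decide

private theorem ee_pos (h : ℝ) (x : V) (k : Fin 6) :
    pos h (x + dir k) - pos h x = ⟨h * ((dir k).1 : ℝ), h * ((dir k).2 : ℝ)⟩ := by
  apply Complex.ext
  · simp only [pos, Complex.sub_re, Prod.fst_add]
    push_cast
    ring
  · simp only [pos, Complex.sub_im, Prod.snd_add]
    push_cast
    ring

private theorem ee_norm {h : ℝ} (hh : 0 ≤ h) (x : V) (k : Fin 6) :
    ‖pos h (x + dir k) - pos h x‖ ≤ 3 / 2 * h := by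
  rw [ee_pos]
  have h1 : ((dir k).1 : ℝ) ^ 2 + ((dir k).2 : ℝ) ^ 2 ≤ 2 := by exact_mod_cast ee_sq k
  refine abs_le_of_sq_le_sq' ?_ (by positivity) |>.2
  rw [← Complex.normSq_eq_norm_sq, Complex.normSq_mk]
  nlinarith [sq_nonneg h]

theorem Rr_le {h : ℝ} (hh : 0 ≤ h) (x : V) (k : Fin 6) {a b c e : ℝ} (g : ℂ)
    (hb : |b - a - (g.re * (pos h (x + dir k) - pos h x).re +
      g.im * (pos h (x + dir k) - pos h x).im)| ≤ e)
    (hc : |c - a - (g.re * (pos h (x + dir (k + 1)) - pos h x).re +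
      g.im * (pos h (x + dir (k + 1)) - pos h x).im)| ≤ e) :
    Rr h x (x + dir k) (x + dir (k + 1)) a b c ≤ h ^ 2 * ‖g‖ + 3 * h * e := by
  have hY := ee_norm hh x k
  have hW := ee_norm hh x (k + 1)
  have eY := ee_pos h x k
  have eW := ee_pos h x (k + 1)
  have hcr : ((dir k).1 : ℝ) * ((dir (k + 1)).2 : ℝ) -
      ((dir k).2 : ℝ) * ((dir (k + 1)).1 : ℝ) = 1 := by exact_mod_cast ee_cr k
  obtain ⟨Y, hYd⟩ : ∃ Y : ℂ, Y = pos h (x + dir k) - pos h x := ⟨_, rfl⟩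
  obtain ⟨W, hWd⟩ : ∃ W : ℂ, W = pos h (x + dir (k + 1)) - pos h x := ⟨_, rfl⟩
  rw [← hYd] at hY eY hb
  rw [← hWd] at hW eW hc
  obtain ⟨s, hs⟩ : ∃ s : ℝ, s = b - a - (g.re * Y.re + g.im * Y.im) := ⟨_, rfl⟩
  obtain ⟨t, ht⟩ : ∃ t : ℝ, t = c - a - (g.re * W.re + g.im * W.im) := ⟨_, rfl⟩
  rw [← hs] at hb
  rw [← ht] at hc
  have h1 : (a : ℂ) * (pos h (x + dir k) - pos h (x + dir (k + 1))) +
      (b : ℂ) * (pos h (x + dir (k + 1)) - pos h x) + (c : ℂ) * (pos h x - pos h (x + dir k)) =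
      ((h ^ 2 : ℝ) : ℂ) * (Complex.I * g) + ((s : ℂ) * W - (t : ℂ) * Y) := by
    have e1 : (a : ℂ) * (pos h (x + dir k) - pos h (x + dir (k + 1))) +
      (b : ℂ) * (pos h (x + dir (k + 1)) - pos h x) + (c : ℂ) * (pos h x - pos h (x + dir k)) =
      ((b - a : ℝ) : ℂ) * W - ((c - a : ℝ) : ℂ) * Y := by
      rw [hYd, hWd]
      push_cast
      ring
    have e2 : b - a = s + (g.re * Y.re + g.im * Y.im) := by rw [hs]; ring
    have e3 : c - a = t + (g.re * W.re + g.im * W.im) := by rw [ht]; ring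
    rw [e1, e2, e3]
    have hc2 : h ^ 2 = Y.re * W.im - Y.im * W.re := by
      rw [eY, eW]
      show h ^ 2 = h * _ * (h * _) - h * _ * (h * _)
      linear_combination (-h ^ 2) * hcr
    rw [hc2]
    apply Complex.ext
    · simp only [Complex.sub_re, Complex.add_re, Complex.mul_re, Complex.ofReal_re,
        Complex.ofReal_im, Complex.I_re, Complex.I_im, Complex.mul_im]
      ring
    · simp only [Complex.sub_im, Complex.add_im, Complex.mul_re, Complex.ofReal_re,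
        Complex.ofReal_im, Complex.I_re, Complex.I_im, Complex.mul_im]
      ring
  unfold Rr
  rw [h1]
  have h2 : ‖((h ^ 2 : ℝ) : ℂ) * (Complex.I * g)‖ = h ^ 2 * ‖g‖ := by
    rw [norm_mul, norm_mul, Complex.norm_I, one_mul, Complex.norm_real, Real.norm_eq_abs,
      abs_of_nonneg (sq_nonneg h)]
  have h3 : ‖(s : ℂ) * W - (t : ℂ) * Y‖ ≤ 3 * h * e := by
    refine (norm_sub_le _ _).trans ?_
    rw [norm_mul, norm_mul, Complex.norm_real, Complex.norm_real, Real.norm_eq_abs,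
      Real.norm_eq_abs]
    have h4 : |s| * ‖W‖ ≤ e * (3 / 2 * h) :=
      mul_le_mul hb hW (norm_nonneg _) ((abs_nonneg _).trans hb)
    have h5 : |t| * ‖Y‖ ≤ e * (3 / 2 * h) :=
      mul_le_mul hc hY (norm_nonneg _) ((abs_nonneg _).trans hc)
    linarith
  refine (norm_add_le _ _).trans ?_
  rw [h2]
  linarith

theorem EE_le {N : ℕ} {h ω e Gb : ℝ} (hh : 0 ≤ h) (hω : 0 ≤ ω) (hω1 : ω ≤ 1 / 16) (he : 0 ≤ e)
    (v : V → Fin (N + 1) → ℝ) (x : V) (hv : ∀ i, 0 ≤ v x i) (hs : ∑ i, v x i = 1)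
    (g : Fin (N + 1) → ℂ) (hg : ∑ i, g i = 0) (hG : ∀ i, ‖g i‖ ≤ Gb)
    (hd : ∀ k i, |v (x + dir k) i - v x i - ((g i).re * (pos h (x + dir k) - pos h x).re +
      (g i).im * (pos h (x + dir k) - pos h x).im)| ≤ e) (k : Fin 6) :
    EE h ω v x k ≤ h ^ 2 / 2 * ∑ i, ‖g i‖ * GK (KN N) (v x i) +
      ((N : ℝ) + 1) ^ 3 * (32 * h ^ 2 * Gb * ω + 18 * h * e + 320 * h * ω ^ 2) := by
  classical
  have hGb : 0 ≤ Gb := (norm_nonneg _).trans (hG 0)
  have hpt := point hω1 (v x) hv hs g hg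
  have hC : 0 ≤ 32 * h ^ 2 * Gb * ω + 18 * h * e := by positivity
  have hterm : ∀ i j, (if Al ω (v x) i j then
      Rr h x (x + dir k) (x + dir (k + 1)) (v x i - v x j) (v (x + dir k) i - v (x + dir k) j)
        (v (x + dir (k + 1)) i - v (x + dir (k + 1)) j) * ((fE (v x i - v x j) + 32 * ω) / 2)
      else 0) ≤ h ^ 2 / 2 * (if Al ω (v x) i j then ‖g i - g j‖ * fE (v x i - v x j) else 0) +
        (32 * h ^ 2 * Gb * ω + 18 * h * e) := by
    intro i j
    by_cases hA : Al ω (v x) i j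
    · rw [if_pos hA, if_pos hA]
      have hdk : ∀ k', |(v (x + dir k') i - v (x + dir k') j) - (v x i - v x j) -
          ((g i - g j).re * (pos h (x + dir k') - pos h x).re +
            (g i - g j).im * (pos h (x + dir k') - pos h x).im)| ≤ 2 * e := by
        intro k'
        have h1 := hd k' i
        have h2 := hd k' j
        rw [abs_le] at h1 h2 ⊢
        rw [Complex.sub_re, Complex.sub_im]
        constructor <;> nlinarith [h1.1, h1.2, h2.1, h2.2]
      have h1 := Rr_le hh x k (g i - g j) (hdk k) (hdk (k + 1))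
      have h2 : 0 ≤ fE (v x i - v x j) := by unfold fE; exact le_max_left _ _
      have h3 : fE (v x i - v x j) ≤ 4 := by
        unfold fE
        refine max_le (by norm_num) ?_
        have := abs_nonneg (v x i - v x j)
        linarith
      have h4 : ‖g i - g j‖ ≤ 2 * Gb := by
        refine (norm_sub_le _ _).trans ?_
        have := hG i
        have := hG j
        linarith
      have h5 : 0 ≤ (fE (v x i - v x j) + 32 * ω) / 2 := by positivity
      have h6 : (fE (v x i - v x j) + 32 * ω) / 2 ≤ 3 := by linarith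
      have h7 := mul_le_mul_of_nonneg_right h1 h5
      refine h7.trans ?_
      have h8 : 3 * h * (2 * e) * ((fE (v x i - v x j) + 32 * ω) / 2) ≤ 3 * h * (2 * e) * 3 :=
        mul_le_mul_of_nonneg_left h6 (by positivity)
      have h9 : h ^ 2 * ω * ‖g i - g j‖ ≤ h ^ 2 * ω * (2 * Gb) :=
        mul_le_mul_of_nonneg_left h4 (by positivity)
      nlinarith
    · rw [if_neg hA, if_neg hA]
      linarith
  have hsum : ∑ i, ∑ j, (if Al ω (v x) i j then
      Rr h x (x + dir k) (x + dir (k + 1)) (v x i - v x j) (v (x + dir k) i - v (x + dir k) j)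
        (v (x + dir (k + 1)) i - v (x + dir (k + 1)) j) * ((fE (v x i - v x j) + 32 * ω) / 2)
      else 0) ≤ h ^ 2 / 2 * ∑ i, ‖g i‖ * GK (KN N) (v x i) +
        ((N : ℝ) + 1) ^ 2 * (32 * h ^ 2 * Gb * ω + 18 * h * e) := by
    refine (Finset.sum_le_sum fun i _ => Finset.sum_le_sum fun j _ => hterm i j).trans ?_
    simp only [Finset.sum_add_distrib, ← Finset.mul_sum, Finset.sum_const, Finset.card_univ,
      Fintype.card_fin, nsmul_eq_mul]
    have h1 := mul_le_mul_of_nonneg_left hpt (show 0 ≤ h ^ 2 / 2 by positivity)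
    push_cast
    nlinarith
  unfold EE
  have hN : ((N : ℝ) + 1) ^ 2 ≤ ((N : ℝ) + 1) ^ 3 := by
    have : (0 : ℝ) ≤ (N : ℝ) := Nat.cast_nonneg N
    exact pow_le_pow_right₀ (by linarith) (by norm_num)
  have h1 := mul_le_mul_of_nonneg_right hN hC
  nlinarith

end Pool.Agent.Helper38.LCA
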