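import Pool.Agent.Helper38.LCA.Defs

/-!
# LCA-03: independent uniform thresholds

`U` is the uniform distribution on `[0, 1/4]` (density 4), `muN N` the product measure.
* For `i ≠ j` the pair `(c i, c j)` has the distribution `U × U`, for distinct `i, j, k` the triple `(c i, (c j, c k))` has the distribution `U × (U × U)`
  (`ProbabilityTheory.iIndepFun_pi`, `iIndepFun.indepFun`, `indepFun_iff_map_prod_eq_prod_map_map`, `measurePreserving_eval`).
* `pair_le`: `∫⁻ g (x - y) dU dU = 16 ∫⁻_{[0,1/4]²} g (x - y) = ∫⁻ g s * 16 * |{y : 0 ≤ y ≤ 1/4, 0 ≤ s + y ≤ 1/4}| ds` (Tonelli, translation `x = s + y`), and the length of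
  `[0, 1/4] ∩ [-s, 1/4 - s]` is `max 0 (1/4 - |s|)`; `16 max 0 (1/4 - |s|) = fE s`.
* `triple_le`: for fixed `x = c i` the measures of `{y : x - y ∈ [α - δ, α]}` and `{y : x - y ∈ [β - δ, β]}` are `≤ 4 δ`.
* `tie_null`: `pair_le` with the indicator function of `{α}`, or `triple_le`-like argument.   `ae_mem`: every coordinate is in `[0, 1/4]` almost surely.
-/

namespace Pool.Agent.Helper38.LCA

open Finset Real Pool.Agent.Helper98.LC MeasureTheory

/-- the uniform distribution on `[0, 1/4]` -/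
noncomputable def U : Measure ℝ := (4 : ENNReal) • volume.restrict (Set.Icc 0 (1 / 4))

instance U_prob : IsProbabilityMeasure U := by
  constructor
  unfold U
  rw [Measure.smul_apply, Measure.restrict_apply_univ, Real.volume_Icc]
  rw [smul_eq_mul, sub_zero, show (4 : ENNReal) = ENNReal.ofReal 4 by simp,
    ← ENNReal.ofReal_mul (by norm_num)]
  norm_num

theorem U_lint (f : ℝ → ENNReal) :
    ∫⁻ x, f x ∂U = 4 * ∫⁻ x, (Set.Icc (0 : ℝ) (1 / 4)).indicator f x := by
  unfold U
  rw [lintegral_smul_measure, lintegral_indicator measurableSet_Icc, smul_eq_mul]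

theorem U_le {A : Set ℝ} (hA : MeasurableSet A) {a b : ℝ} (h : A ⊆ Set.Icc a b) :
    U A ≤ ENNReal.ofReal (4 * (b - a)) := by
  unfold U
  rw [Measure.smul_apply, Measure.restrict_apply hA, smul_eq_mul,
    ENNReal.ofReal_mul (by norm_num)]
  gcongr
  · simp
  · refine (measure_mono (Set.inter_subset_left.trans h)).trans ?_
    rw [Real.volume_Icc]

instance U_noAtoms : NullSingletonClass U := by
  constructor
  intro x
  have := U_le (measurableSet_singleton x) (a := x) (b := x) (by simp)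
  simpa using this

/-- independent uniform thresholds -/
noncomputable def muN (N : ℕ) : Measure (Fin (N + 1) → ℝ) := Measure.pi fun _ => U

instance muN_prob (N : ℕ) : IsProbabilityMeasure (muN N) := by
  unfold muN
  infer_instance

theorem muN_indep (N : ℕ) :
    ProbabilityTheory.iIndepFun (fun (i : Fin (N + 1)) (c : Fin (N + 1) → ℝ) => c i) (muN N) := by
  unfold muN
  exact ProbabilityTheory.iIndepFun_pi (X := fun _ => id) (fun i => aemeasurable_id)

theorem muN_map (N : ℕ) (i : Fin (N + 1)) : (muN N).map (fun c => c i) = U := by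
  unfold muN
  exact (measurePreserving_eval (fun _ : Fin (N + 1) => U) i).map_eq

theorem muN_map2 {N : ℕ} {i j : Fin (N + 1)} (hij : i ≠ j) :
    (muN N).map (fun c => (c i, c j)) = U.prod U := by
  have h := (muN_indep N).indepFun hij
  rw [ProbabilityTheory.indepFun_iff_map_prod_eq_prod_map_map
    (measurable_pi_apply i).aemeasurable (measurable_pi_apply j).aemeasurable] at h
  rw [h, muN_map, muN_map]

theorem muN_map3 {N : ℕ} {i j k : Fin (N + 1)} (hij : i ≠ j) (hik : i ≠ k) (hjk : j ≠ k) :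
    (muN N).map (fun c => ((c j, c k), c i)) = (U.prod U).prod U := by
  have h := (muN_indep N).indepFun_prodMk (fun i => measurable_pi_apply i) j k i hij.symm hik.symm
  rw [ProbabilityTheory.indepFun_iff_map_prod_eq_prod_map_map
    ((measurable_pi_apply j).prodMk (measurable_pi_apply k)).aemeasurable
    (measurable_pi_apply i).aemeasurable] at h
  rw [h, muN_map, muN_map2 hjk]

theorem len_eq (s : ℝ) :
    volume (Set.Icc (0 : ℝ) (1 / 4) ∩ {y | s + y ∈ Set.Icc (0 : ℝ) (1 / 4)}) =
      ENNReal.ofReal (1 / 4 - |s|) := by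
  have : Set.Icc (0 : ℝ) (1 / 4) ∩ {y | s + y ∈ Set.Icc (0 : ℝ) (1 / 4)} =
      Set.Icc (max 0 (-s)) (min (1 / 4) (1 / 4 - s)) := by
    ext y
    simp only [Set.mem_inter_iff, Set.mem_Icc, Set.mem_ofPred_eq, max_le_iff, le_min_iff]
    constructor
    · rintro ⟨⟨h1, h2⟩, h3, h4⟩
      exact ⟨⟨h1, by linarith⟩, h2, by linarith⟩
    · rintro ⟨⟨h1, h2⟩, h3, h4⟩
      exact ⟨⟨h1, by linarith⟩, by linarith, by linarith⟩
  rw [this, Real.volume_Icc]
  congr 1
  rcases le_total 0 s with hs | hs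
  · rw [max_eq_left (by linarith), min_eq_right (by linarith), abs_of_nonneg hs, sub_zero]
  · rw [max_eq_right (by linarith), min_eq_left (by linarith), abs_of_nonpos hs]

theorem pair_le {N : ℕ} {i j : Fin (N + 1)} (hij : i ≠ j) {g : ℝ → ENNReal} (hg : Measurable g) :
    ∫⁻ c, g (c i - c j) ∂(muN N) ≤ ∫⁻ s, g s * ENNReal.ofReal (fE s) := by
  have hG : Measurable fun p : ℝ × ℝ => g (p.1 - p.2) := by fun_prop
  have h1 : ∫⁻ c, g (c i - c j) ∂(muN N) = ∫⁻ p, g (p.1 - p.2) ∂(U.prod U) := by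
    rw [← muN_map2 hij, lintegral_map hG (by fun_prop)]
  have h2 : ∀ y : ℝ, ∫⁻ x, g (x - y) ∂U =
      4 * ∫⁻ s, (Set.Icc (0 : ℝ) (1 / 4)).indicator (fun _ => g s) (s + y) := by
    intro y
    rw [U_lint]
    congr 1
    rw [← lintegral_add_right_eq_self _ y]
    refine lintegral_congr fun s => ?_
    by_cases hs : s + y ∈ Set.Icc (0 : ℝ) (1 / 4)
    · rw [Set.indicator_of_mem hs, Set.indicator_of_mem hs, add_sub_cancel_right]
    · rw [Set.indicator_of_notMem hs, Set.indicator_of_notMem hs]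
  have hmeas : Measurable fun p : ℝ × ℝ =>
      (Set.Icc (0 : ℝ) (1 / 4)).indicator (fun _ => g p.2) (p.2 + p.1) := by
    have : (fun p : ℝ × ℝ => (Set.Icc (0 : ℝ) (1 / 4)).indicator (fun _ => g p.2) (p.2 + p.1)) =
        {p : ℝ × ℝ | p.2 + p.1 ∈ Set.Icc (0 : ℝ) (1 / 4)}.indicator fun p => g p.2 := by
      ext p
      by_cases hs : p.2 + p.1 ∈ Set.Icc (0 : ℝ) (1 / 4)
      · rw [Set.indicator_of_mem hs, Set.indicator_of_mem (by exact hs)]
      · rw [Set.indicator_of_notMem hs, Set.indicator_of_notMem (by exact hs)]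
    rw [this]
    refine Measurable.indicator (by fun_prop) ?_
    exact measurableSet_Icc.preimage (by fun_prop : Measurable fun p : ℝ × ℝ => p.2 + p.1)
  rw [h1, lintegral_prod_symm _ hG.aemeasurable]
  simp only [h2]
  rw [U_lint]
  have h3 : ∀ y : ℝ, (Set.Icc (0 : ℝ) (1 / 4)).indicator (fun y => 4 *
        ∫⁻ s, (Set.Icc (0 : ℝ) (1 / 4)).indicator (fun _ => g s) (s + y)) y =
      ∫⁻ s, 4 * (g s * (Set.Icc (0 : ℝ) (1 / 4) ∩
        {y | s + y ∈ Set.Icc (0 : ℝ) (1 / 4)}).indicator 1 y) := by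
    intro y
    by_cases hy : y ∈ Set.Icc (0 : ℝ) (1 / 4)
    · rw [Set.indicator_of_mem hy, ← lintegral_const_mul]
      · refine lintegral_congr fun s => ?_
        congr 1
        by_cases hs : s + y ∈ Set.Icc (0 : ℝ) (1 / 4)
        · have hys : y ∈ (Set.Icc (0 : ℝ) (1 / 4) ∩
              {y | s + y ∈ Set.Icc (0 : ℝ) (1 / 4)}) := ⟨hy, hs⟩
          rw [Set.indicator_of_mem hs, Set.indicator_of_mem hys, Pi.one_apply, mul_one]
        · rw [Set.indicator_of_notMem hs, Set.indicator_of_notMem (fun h => hs h.2), mul_zero]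
      · exact hmeas.comp (by fun_prop : Measurable fun s : ℝ => (y, s))
    · rw [Set.indicator_of_notMem hy]
      symm
      rw [lintegral_eq_zero_iff' ?_]
      · refine Filter.Eventually.of_forall fun s => ?_
        simp only
        rw [Set.indicator_of_notMem (fun h => hy h.1)]
        simp
      · have : (fun s => 4 * (g s * (Set.Icc (0 : ℝ) (1 / 4) ∩
            {y | s + y ∈ Set.Icc (0 : ℝ) (1 / 4)}).indicator 1 y)) = fun _ => (0 : ENNReal) := by
          ext s
          rw [Set.indicator_of_notMem (fun h => hy h.1)]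
          simp
        rw [this]
        exact aemeasurable_const
  simp only [h3]
  rw [lintegral_lintegral_swap]
  · rw [← lintegral_const_mul']
    · refine lintegral_mono fun s => ?_
      have hms : MeasurableSet (Set.Icc (0 : ℝ) (1 / 4) ∩
          {y | s + y ∈ Set.Icc (0 : ℝ) (1 / 4)}) :=
        measurableSet_Icc.inter (measurableSet_Icc.preimage
          (by fun_prop : Measurable fun y : ℝ => s + y))
      have h4 : ∫⁻ y, 4 * (g s * (Set.Icc (0 : ℝ) (1 / 4) ∩
          {y | s + y ∈ Set.Icc (0 : ℝ) (1 / 4)}).indicator 1 y) =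
          4 * (g s * ENNReal.ofReal (1 / 4 - |s|)) := by
        rw [lintegral_const_mul, lintegral_const_mul, lintegral_indicator_one hms, len_eq]
        · exact Measurable.indicator measurable_one hms
        · exact (Measurable.indicator measurable_one hms).const_mul _
      simp only
      rw [h4]
      unfold fE
      have h5 : ENNReal.ofReal (max 0 (4 - 16 * |s|)) = 16 * ENNReal.ofReal (1 / 4 - |s|) := by
        rw [show (16 : ENNReal) = ENNReal.ofReal 16 by simp, ← ENNReal.ofReal_mul (by norm_num),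
          show (16 : ℝ) * (1 / 4 - |s|) = 4 - 16 * |s| by ring]
        rcases le_total 0 (4 - 16 * |s|) with h | h
        · rw [max_eq_right h]
        · rw [max_eq_left h, ENNReal.ofReal_zero, ENNReal.ofReal_of_nonpos h]
      rw [h5]
      have : (16 : ENNReal) = 4 * 4 := by norm_num
      rw [this]
      apply le_of_eq
      ring
    · simp
  · have : Function.uncurry (fun (y s : ℝ) => 4 * (g s * (Set.Icc (0 : ℝ) (1 / 4) ∩
        {y | s + y ∈ Set.Icc (0 : ℝ) (1 / 4)}).indicator (1 : ℝ → ENNReal) y)) =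
        fun p : ℝ × ℝ => 4 * (g p.2 * (Set.indicator ({p : ℝ × ℝ | p.1 ∈ Set.Icc (0 : ℝ) (1 / 4)} ∩
          {p | p.2 + p.1 ∈ Set.Icc (0 : ℝ) (1 / 4)}) 1 p)) := by
      ext ⟨y, s⟩
      simp only [Function.uncurry]
      congr 2
    rw [this]
    refine (Measurable.const_mul ?_ _).aemeasurable
    refine Measurable.mul (by fun_prop) (Measurable.indicator measurable_one ?_)
    exact (measurableSet_Icc.preimage measurable_fst).inter
      (measurableSet_Icc.preimage (by fun_prop : Measurable fun p : ℝ × ℝ => p.2 + p.1))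

theorem triple_le {N : ℕ} {i j k : Fin (N + 1)} (hij : i ≠ j) (hik : i ≠ k) (hjk : j ≠ k)
    (α β : ℝ) {δ : ℝ} (hδ : 0 ≤ δ) :
    muN N {c | (α - δ ≤ c i - c j ∧ c i - c j ≤ α) ∧ (β - δ ≤ c i - c k ∧ c i - c k ≤ β)} ≤
      ENNReal.ofReal (16 * δ ^ 2) := by
  set S : Set ((ℝ × ℝ) × ℝ) := {p | (α - δ ≤ p.2 - p.1.1 ∧ p.2 - p.1.1 ≤ α) ∧
    (β - δ ≤ p.2 - p.1.2 ∧ p.2 - p.1.2 ≤ β)} with hS
  have hSm : MeasurableSet S := by
    rw [hS]
    have m1 : Measurable fun p : (ℝ × ℝ) × ℝ => p.2 - p.1.1 := by fun_prop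
    have m2 : Measurable fun p : (ℝ × ℝ) × ℝ => p.2 - p.1.2 := by fun_prop
    exact ((measurableSet_le measurable_const m1).inter (measurableSet_le m1 measurable_const)).inter
      ((measurableSet_le measurable_const m2).inter (measurableSet_le m2 measurable_const))
  have h1 : muN N {c | (α - δ ≤ c i - c j ∧ c i - c j ≤ α) ∧ (β - δ ≤ c i - c k ∧ c i - c k ≤ β)} =
      ((U.prod U).prod U) S := by
    rw [← muN_map3 hij hik hjk, Measure.map_apply (by fun_prop) hSm]
    rfl
  rw [h1, Measure.prod_apply_symm hSm]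
  have h2 : ∀ x : ℝ, (U.prod U) ((fun p => (p, x)) ⁻¹' S) ≤ ENNReal.ofReal (16 * δ ^ 2) := by
    intro x
    have h3 : (fun p => (p, x)) ⁻¹' S = Set.Icc (x - α) (x - α + δ) ×ˢ
        Set.Icc (x - β) (x - β + δ) := by
      ext ⟨y, z⟩
      simp only [hS, Set.mem_preimage, Set.mem_ofPred_eq, Set.mem_prod, Set.mem_Icc]
      constructor
      · rintro ⟨⟨h1, h2⟩, h3, h4⟩
        exact ⟨⟨by linarith, by linarith⟩, by linarith, by linarith⟩
      · rintro ⟨⟨h1, h2⟩, h3, h4⟩
        exact ⟨⟨by linarith, by linarith⟩, by linarith, by linarith⟩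
    rw [h3, Measure.prod_prod]
    have e1 := U_le (A := Set.Icc (x - α) (x - α + δ)) measurableSet_Icc subset_rfl
    have e2 := U_le (A := Set.Icc (x - β) (x - β + δ)) measurableSet_Icc subset_rfl
    calc U (Set.Icc (x - α) (x - α + δ)) * U (Set.Icc (x - β) (x - β + δ))
        ≤ ENNReal.ofReal (4 * δ) * ENNReal.ofReal (4 * δ) := by
          rw [show x - α + δ - (x - α) = δ by ring] at e1
          rw [show x - β + δ - (x - β) = δ by ring] at e2
          gcongr
      _ = ENNReal.ofReal (16 * δ ^ 2) := by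
          rw [← ENNReal.ofReal_mul (by positivity)]
          congr 1
          ring
  calc ∫⁻ x, (U.prod U) ((fun p => (p, x)) ⁻¹' S) ∂U ≤ ∫⁻ _x, ENNReal.ofReal (16 * δ ^ 2) ∂U :=
        lintegral_mono h2
    _ = ENNReal.ofReal (16 * δ ^ 2) := by simp

theorem tie_null {N : ℕ} {i j : Fin (N + 1)} (hij : i ≠ j) (α : ℝ) :
    muN N {c | c i - c j = α} = 0 := by
  set S : Set (ℝ × ℝ) := {p | p.1 - p.2 = α} with hS
  have hSm : MeasurableSet S :=
    measurableSet_eq_fun (by fun_prop) (by fun_prop)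
  have h1 : muN N {c | c i - c j = α} = (U.prod U) S := by
    rw [← muN_map2 hij, Measure.map_apply (by fun_prop) hSm]
    rfl
  rw [h1, Measure.prod_apply_symm hSm]
  have h2 : ∀ y : ℝ, U ((fun x => (x, y)) ⁻¹' S) = 0 := by
    intro y
    have h3 : (fun x => (x, y)) ⁻¹' S = {α + y} := by
      ext x
      simp only [hS, Set.mem_preimage, Set.mem_ofPred_eq, Set.mem_singleton_iff]
      constructor
      · intro h
        linarith
      · intro h
        linarith
    rw [h3]
    exact measure_singleton _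
  simp [h2]

theorem ae_mem (N : ℕ) : ∀ᵐ c ∂(muN N), ∀ i, 0 ≤ c i ∧ c i ≤ 1 / 4 := by
  rw [ae_all_iff]
  intro i
  have h1 : ∀ᵐ x ∂U, x ∈ Set.Icc (0 : ℝ) (1 / 4) := by
    unfold U
    exact Measure.ae_smul_measure (ae_restrict_mem measurableSet_Icc) _
  have h2 : ∀ᵐ c ∂(muN N), c i ∈ Set.Icc (0 : ℝ) (1 / 4) := by
    rw [← muN_map N i] at h1
    exact ae_of_ae_map (measurable_pi_apply i).aemeasurable h1
  exact h2

end Pool.Agent.Helper38.LCA
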