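import Pool.Agent.Helper38.LCA.Seg
import Pool.Agent.Helper38.LCA.Unif

/-!
# LCA-07: the mean over the thresholds

`Φ c = ∑ x ∈ B, ∑ t ∈ {0, 1}, (∑ i j, ofReal (tw … (c i - c j)) + ∑ i j l, if Tr … then ofReal (5 h) else 0)` is measurable in `c`.  Its mean with respect to `muN N` is at most the
right side: `tw` is `0` unless `Al ω (v x) i j` (so `i < j`), and then `pair_le` with `g s = ofReal (Rr * Iso … s)` (`Iso_meas`) and `iso_fE` with `δ = 2 ω` (`hosc`) give `≤ ofReal (Rr (fE + 32 ω) / 2)`;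
`triple_le` with `δ = 2 ω`: the measure of `{c | Tr …}` is `≤ ofReal (64 ω²)` (or `Tr` is false), there are `(N+1)³` triples.
The set of all `c` such that `Gen v c` is false is a countable union of null sets (`tie_null`, `V` is countable), and `ae_mem`.  Use `MeasureTheory.exists_notMem_null_le_lintegral` for the function
`Φ` and the union of the null sets, and `SS_le`.
-/

namespace Pool.Agent.Helper38.LCA

open Finset Real Pool.Agent.Helper98.LC

open Classical in
/-- bound for the mean of the interface in a triangle -/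
noncomputable def EE {N : ℕ} (h ω : ℝ) (v : V → Fin (N + 1) → ℝ) (x : V) (k : Fin 6) : ℝ :=
  ∑ i, ∑ j, (if Al ω (v x) i j then
    Rr h x (x + dir k) (x + dir (k + 1)) (v x i - v x j) (v (x + dir k) i - v (x + dir k) j)
        (v (x + dir (k + 1)) i - v (x + dir (k + 1)) j) * ((fE (v x i - v x j) + 32 * ω) / 2)
    else 0) + 5 * h * ((N : ℝ) + 1) ^ 3 * (64 * ω ^ 2)

private theorem ex_Rr_nonneg (h : ℝ) (x y w : V) (a b c : ℝ) : 0 ≤ Rr h x y w a b c := by
  unfold Rr
  exact norm_nonneg _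

private theorem ex_tw_nonneg {N : ℕ} (h ω : ℝ) (v : V → Fin (N + 1) → ℝ) (x : V) (k : Fin 6)
    (i j : Fin (N + 1)) (s : ℝ) : 0 ≤ tw h ω v x k i j s := by
  unfold tw
  split_ifs
  · exact mul_nonneg (ex_Rr_nonneg _ _ _ _ _ _ _) (Iso_nonneg _ _ _ _)
  · exact le_refl _

private theorem ex_tw_meas {N : ℕ} (h ω : ℝ) (v : V → Fin (N + 1) → ℝ) (x : V) (k : Fin 6)
    (i j : Fin (N + 1)) : Measurable (tw h ω v x k i j) := by
  by_cases hA : Al ω (v x) i j
  · have e : tw h ω v x k i j = fun s =>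
        Rr h x (x + dir k) (x + dir (k + 1)) (v x i - v x j) (v (x + dir k) i - v (x + dir k) j)
          (v (x + dir (k + 1)) i - v (x + dir (k + 1)) j) *
        Iso (v x i - v x j) (v (x + dir k) i - v (x + dir k) j)
          (v (x + dir (k + 1)) i - v (x + dir (k + 1)) j) s := by
      funext s
      unfold tw
      rw [if_pos hA]
    rw [e]
    exact (Iso_meas _ _ _).const_mul _
  · have e : tw h ω v x k i j = fun _ => 0 := by
      funext s
      unfold tw
      rw [if_neg hA]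
    rw [e]
    exact measurable_const

private theorem ex_Tr_meas {N : ℕ} (ω : ℝ) (v : Fin (N + 1) → ℝ) (i j l : Fin (N + 1)) :
    MeasurableSet {c : Fin (N + 1) → ℝ | Tr ω v c i j l} := by
  have hm : ∀ a b : Fin (N + 1), Measurable fun c : Fin (N + 1) → ℝ => c a - c b := fun a b =>
    (measurable_pi_apply a).sub (measurable_pi_apply b)
  unfold Tr
  refine MeasurableSet.inter (MeasurableSet.const _) (MeasurableSet.inter ?_ ?_)
  · exact MeasurableSet.inter (measurableSet_le measurable_const (hm i j))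
      (measurableSet_le (hm i j) measurable_const)
  · exact MeasurableSet.inter (measurableSet_le measurable_const (hm i l))
      (measurableSet_le (hm i l) measurable_const)

/-- the bound of a pair -/
private noncomputable def ex_pb {N : ℕ} (h ω : ℝ) (v : V → Fin (N + 1) → ℝ) (x : V) (k : Fin 6)
    (i j : Fin (N + 1)) : ℝ :=
  open Classical in
  if Al ω (v x) i j then
    Rr h x (x + dir k) (x + dir (k + 1)) (v x i - v x j) (v (x + dir k) i - v (x + dir k) j)
        (v (x + dir (k + 1)) i - v (x + dir (k + 1)) j) * ((fE (v x i - v x j) + 32 * ω) / 2)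
    else 0

private theorem ex_fE (s : ℝ) : 0 ≤ fE s := by
  unfold fE
  exact le_max_left _ _

private theorem ex_pb_nonneg {N : ℕ} {h ω : ℝ} (hω : 0 ≤ ω) (v : V → Fin (N + 1) → ℝ) (x : V)
    (k : Fin 6) (i j : Fin (N + 1)) : 0 ≤ ex_pb h ω v x k i j := by
  unfold ex_pb
  split_ifs
  · have := ex_fE (v x i - v x j)
    exact mul_nonneg (ex_Rr_nonneg _ _ _ _ _ _ _) (by positivity)
  · exact le_refl _

private theorem ex_pair {N : ℕ} {h ω : ℝ} (v : V → Fin (N + 1) → ℝ) (x : V)
    (hosc : ∀ k i, |v (x + dir k) i - v x i| ≤ ω) (k : Fin 6) (i j : Fin (N + 1)) :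
    ∫⁻ c, ENNReal.ofReal (tw h ω v x k i j (c i - c j)) ∂(muN N) ≤
      ENNReal.ofReal (ex_pb h ω v x k i j) := by
  by_cases hA : Al ω (v x) i j
  · have hij : i ≠ j := hA.1.ne
    refine (pair_le hij (g := fun s => ENNReal.ofReal (tw h ω v x k i j s))
      (ex_tw_meas h ω v x k i j).ennreal_ofReal).trans ?_
    set R := Rr h x (x + dir k) (x + dir (k + 1)) (v x i - v x j)
      (v (x + dir k) i - v (x + dir k) j)
      (v (x + dir (k + 1)) i - v (x + dir (k + 1)) j) with hR
    have hR0 : 0 ≤ R := ex_Rr_nonneg _ _ _ _ _ _ _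
    have e : ∀ s, ENNReal.ofReal (tw h ω v x k i j s) * ENNReal.ofReal (fE s) =
        ENNReal.ofReal R * (ENNReal.ofReal (Iso (v x i - v x j)
          (v (x + dir k) i - v (x + dir k) j)
          (v (x + dir (k + 1)) i - v (x + dir (k + 1)) j) s) * ENNReal.ofReal (fE s)) := by
      intro s
      unfold tw
      rw [if_pos hA, ENNReal.ofReal_mul hR0, mul_assoc]
    rw [MeasureTheory.lintegral_congr e]
    rw [MeasureTheory.lintegral_const_mul' _ _ ENNReal.ofReal_ne_top]
    have h1 : |(v (x + dir k) i - v (x + dir k) j) - (v x i - v x j)| ≤ 2 * ω := by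
      have a := hosc k i
      have b := hosc k j
      rw [abs_le] at a b ⊢
      constructor <;> linarith [a.1, a.2, b.1, b.2]
    have h2 : |(v (x + dir (k + 1)) i - v (x + dir (k + 1)) j) - (v x i - v x j)| ≤ 2 * ω := by
      have a := hosc (k + 1) i
      have b := hosc (k + 1) j
      rw [abs_le] at a b ⊢
      constructor <;> linarith [a.1, a.2, b.1, b.2]
    have h3 := iso_fE h1 h2
    refine (mul_le_mul_right h3 _).trans ?_
    rw [← ENNReal.ofReal_mul hR0]
    refine ENNReal.ofReal_le_ofReal (le_of_eq ?_)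
    unfold ex_pb
    rw [if_pos hA, ← hR]
    ring
  · have e : ∀ c : Fin (N + 1) → ℝ, ENNReal.ofReal (tw h ω v x k i j (c i - c j)) = 0 := by
      intro c
      unfold tw
      rw [if_neg hA, ENNReal.ofReal_zero]
    rw [MeasureTheory.lintegral_congr e, MeasureTheory.lintegral_zero]
    exact bot_le

open Classical in
private theorem ex_triple {N : ℕ} {h ω : ℝ} (hh : 0 ≤ h) (hω : 0 ≤ ω) (v : Fin (N + 1) → ℝ)
    (i j l : Fin (N + 1)) :
    ∫⁻ c, (if Tr ω v c i j l then ENNReal.ofReal (5 * h) else 0) ∂(muN N) ≤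
      ENNReal.ofReal (5 * h * (64 * ω ^ 2)) := by
  by_cases hd : i ≠ j ∧ i ≠ l ∧ j ≠ l
  · have e : (fun c : Fin (N + 1) → ℝ => if Tr ω v c i j l then ENNReal.ofReal (5 * h) else 0) =
        Set.indicator {c | Tr ω v c i j l} fun _ => ENNReal.ofReal (5 * h) := by
      funext c
      rw [Set.indicator_apply]
      rfl
    rw [e, MeasureTheory.lintegral_indicator_const (ex_Tr_meas ω v i j l)]
    have h1 : muN N {c | Tr ω v c i j l} ≤ ENNReal.ofReal (16 * (2 * ω) ^ 2) := by
      refine (MeasureTheory.measure_mono ?_).trans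
        (triple_le hd.1 hd.2.1 hd.2.2 (v i - v j) (v i - v l) (δ := 2 * ω) (by positivity))
      intro c hc
      exact hc.2
    refine (mul_le_mul_right h1 _).trans ?_
    rw [← ENNReal.ofReal_mul (by positivity)]
    refine ENNReal.ofReal_le_ofReal (le_of_eq ?_)
    ring
  · have e : ∀ c : Fin (N + 1) → ℝ,
        (if Tr ω v c i j l then ENNReal.ofReal (5 * h) else 0) = 0 := by
      intro c
      rw [if_neg fun hc => hd hc.1]
    rw [MeasureTheory.lintegral_congr e, MeasureTheory.lintegral_zero]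
    exact bot_le

open Classical in
/-- the random upper bound -/
private noncomputable def ex_phi {N : ℕ} (h ω : ℝ) (v : V → Fin (N + 1) → ℝ) (x : V) (k : Fin 6)
    (c : Fin (N + 1) → ℝ) : ENNReal :=
  ∑ i, ∑ j, ENNReal.ofReal (tw h ω v x k i j (c i - c j)) +
    ∑ i, ∑ j, ∑ l, (if Tr ω (v x) c i j l then ENNReal.ofReal (5 * h) else 0)

private theorem ex_m1 {N : ℕ} (h ω : ℝ) (v : V → Fin (N + 1) → ℝ) (x : V) (k : Fin 6)
    (i j : Fin (N + 1)) :
    Measurable fun c : Fin (N + 1) → ℝ => ENNReal.ofReal (tw h ω v x k i j (c i - c j)) :=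
  ((ex_tw_meas h ω v x k i j).comp
    ((measurable_pi_apply i).sub (measurable_pi_apply j))).ennreal_ofReal

open Classical in
private theorem ex_m2 {N : ℕ} (h ω : ℝ) (v : Fin (N + 1) → ℝ) (i j l : Fin (N + 1)) :
    Measurable fun c : Fin (N + 1) → ℝ =>
      (if Tr ω v c i j l then ENNReal.ofReal (5 * h) else 0) :=
  Measurable.ite (ex_Tr_meas ω v i j l) measurable_const measurable_const

private theorem ex_phi_meas {N : ℕ} (h ω : ℝ) (v : V → Fin (N + 1) → ℝ) (x : V) (k : Fin 6) :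
    Measurable (ex_phi h ω v x k) := by
  unfold ex_phi
  refine Measurable.add ?_ ?_
  · exact Finset.measurable_sum _ fun i _ => Finset.measurable_sum _ fun j _ =>
      ex_m1 h ω v x k i j
  · exact Finset.measurable_sum _ fun i _ => Finset.measurable_sum _ fun j _ =>
      Finset.measurable_sum _ fun l _ => ex_m2 h ω (v x) i j l

private theorem ex_phi_int {N : ℕ} {h ω : ℝ} (hh : 0 ≤ h) (hω : 0 ≤ ω)
    (v : V → Fin (N + 1) → ℝ) (x : V)
    (hosc : ∀ k i, |v (x + dir k) i - v x i| ≤ ω) (k : Fin 6) :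
    ∫⁻ c, ex_phi h ω v x k c ∂(muN N) ≤ ENNReal.ofReal (EE h ω v x k) := by
  classical
  have e1 : EE h ω v x k = ∑ i, ∑ j, ex_pb h ω v x k i j +
      ∑ _i : Fin (N + 1), ∑ _j : Fin (N + 1), ∑ _l : Fin (N + 1), 5 * h * (64 * ω ^ 2) := by
    unfold EE ex_pb
    congr 1
    simp only [sum_const, card_univ, Fintype.card_fin, nsmul_eq_mul]
    push_cast
    ring
  have hp : ∀ i j, 0 ≤ ex_pb h ω v x k i j := fun i j => ex_pb_nonneg hω v x k i j
  have hq : 0 ≤ 5 * h * (64 * ω ^ 2) := by positivity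
  rw [e1, ENNReal.ofReal_add (sum_nonneg fun i _ => sum_nonneg fun j _ => hp i j)
    (sum_nonneg fun i _ => sum_nonneg fun j _ => sum_nonneg fun l _ => hq)]
  unfold ex_phi
  rw [MeasureTheory.lintegral_add_left (Finset.measurable_sum _ fun i _ =>
    Finset.measurable_sum _ fun j _ => ex_m1 h ω v x k i j)]
  refine add_le_add ?_ ?_
  · rw [MeasureTheory.lintegral_finsetSum _ fun i _ =>
      Finset.measurable_sum _ fun j _ => ex_m1 h ω v x k i j]
    rw [ENNReal.ofReal_sum_of_nonneg fun i _ => sum_nonneg fun j _ => hp i j]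
    refine sum_le_sum fun i _ => ?_
    rw [MeasureTheory.lintegral_finsetSum _ fun j _ => ex_m1 h ω v x k i j]
    rw [ENNReal.ofReal_sum_of_nonneg fun j _ => hp i j]
    exact sum_le_sum fun j _ => ex_pair v x hosc k i j
  · rw [MeasureTheory.lintegral_finsetSum _ fun i _ => Finset.measurable_sum _ fun j _ =>
      Finset.measurable_sum _ fun l _ => ex_m2 h ω (v x) i j l]
    rw [ENNReal.ofReal_sum_of_nonneg fun i _ => sum_nonneg fun j _ => sum_nonneg fun l _ => hq]
    refine sum_le_sum fun i _ => ?_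
    rw [MeasureTheory.lintegral_finsetSum _ fun j _ =>
      Finset.measurable_sum _ fun l _ => ex_m2 h ω (v x) i j l]
    rw [ENNReal.ofReal_sum_of_nonneg fun j _ => sum_nonneg fun l _ => hq]
    refine sum_le_sum fun j _ => ?_
    rw [MeasureTheory.lintegral_finsetSum _ fun l _ => ex_m2 h ω (v x) i j l]
    rw [ENNReal.ofReal_sum_of_nonneg fun l _ => hq]
    exact sum_le_sum fun l _ => ex_triple hh hω (v x) i j l

private theorem ex_EE_nonneg {N : ℕ} {h ω : ℝ} (hh : 0 ≤ h) (hω : 0 ≤ ω)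
    (v : V → Fin (N + 1) → ℝ) (x : V) (k : Fin 6) : 0 ≤ EE h ω v x k := by
  classical
  have hp : ∀ i j, 0 ≤ ex_pb h ω v x k i j := fun i j => ex_pb_nonneg hω v x k i j
  unfold EE
  refine add_nonneg (sum_nonneg fun i _ => sum_nonneg fun j _ => ?_) (by positivity)
  have := hp i j
  unfold ex_pb at this
  exact this

private theorem ex_gen {N : ℕ} (v : V → Fin (N + 1) → ℝ) : muN N {c | ¬ Gen v c} = 0 := by
  have h1 : {c : Fin (N + 1) → ℝ | ¬ Gen v c} ⊆
      ⋃ x : V, ⋃ i : Fin (N + 1), ⋃ j : Fin (N + 1),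
        {c | i ≠ j ∧ c i - c j = v x i - v x j} := by
    intro c hc
    rw [Set.mem_ofPred_eq] at hc
    unfold Gen at hc
    push Not at hc
    obtain ⟨x, i, j, hij, he⟩ := hc
    rw [Set.mem_iUnion]
    refine ⟨x, ?_⟩
    rw [Set.mem_iUnion]
    refine ⟨i, ?_⟩
    rw [Set.mem_iUnion]
    exact ⟨j, hij, he.symm⟩
  refine MeasureTheory.measure_mono_null h1 ?_
  refine MeasureTheory.measure_iUnion_null fun x => ?_
  refine MeasureTheory.measure_iUnion_null fun i => ?_
  refine MeasureTheory.measure_iUnion_null fun j => ?_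
  by_cases hij : i = j
  · have e : {c : Fin (N + 1) → ℝ | i ≠ j ∧ c i - c j = v x i - v x j} = ∅ := by
      ext c
      simp [hij]
    rw [e]
    exact MeasureTheory.measure_empty
  · refine MeasureTheory.measure_mono_null ?_ (tie_null hij (v x i - v x j))
    intro c hc
    exact hc.2

private theorem ex_point {N : ℕ} {h ω : ℝ} (hh : 0 ≤ h) {v : V → Fin (N + 1) → ℝ}
    {c : Fin (N + 1) → ℝ} (hg : Gen v c) (hc : ∀ i, 0 ≤ c i ∧ c i ≤ 1 / 4) (x : V) (k : Fin 6)
    (hosc : ∀ k i, |v (x + dir k) i - v x i| ≤ ω) :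
    ENNReal.ofReal (SS (mkNet h hh v c hg) (lab v c) x k) ≤ ex_phi h ω v x k c := by
  classical
  refine (ENNReal.ofReal_le_ofReal (SS_le hh hg hc x k fun i => ⟨hosc k i, hosc (k + 1) i⟩)).trans ?_
  refine ENNReal.ofReal_add_le.trans ?_
  unfold ex_phi
  refine add_le_add ?_ ?_
  · rw [ENNReal.ofReal_sum_of_nonneg fun i _ => sum_nonneg fun j _ =>
      ex_tw_nonneg h ω v x k i j _]
    refine sum_le_sum fun i _ => ?_
    rw [ENNReal.ofReal_sum_of_nonneg fun j _ => ex_tw_nonneg h ω v x k i j _]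
  · have h0 : ∀ i j l : Fin (N + 1), 0 ≤ (if Tr ω (v x) c i j l then 5 * h else 0) := by
      intro i j l
      split_ifs
      · positivity
      · exact le_refl _
    rw [ENNReal.ofReal_sum_of_nonneg fun i _ => sum_nonneg fun j _ => sum_nonneg fun l _ =>
      h0 i j l]
    refine sum_le_sum fun i _ => ?_
    rw [ENNReal.ofReal_sum_of_nonneg fun j _ => sum_nonneg fun l _ => h0 i j l]
    refine sum_le_sum fun j _ => ?_
    rw [ENNReal.ofReal_sum_of_nonneg fun l _ => h0 i j l]
    refine sum_le_sum fun l _ => ?_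
    split_ifs
    · exact le_refl _
    · rw [ENNReal.ofReal_zero]

private theorem ex_SS_nonneg {N : ℕ} {h : ℝ} (hh : 0 ≤ h) {v : V → Fin (N + 1) → ℝ}
    {c : Fin (N + 1) → ℝ} (hg : Gen v c) (x : V) (k : Fin 6) :
    0 ≤ SS (mkNet h hh v c hg) (lab v c) x k := by
  unfold SS
  refine add_nonneg (add_nonneg ?_ ?_) ?_ <;>
  · split_ifs
    · exact le_refl _
    · exact norm_nonneg _

theorem exists_c {N : ℕ} {h ω : ℝ} (hh : 0 ≤ h) (hω : 0 ≤ ω) (v : V → Fin (N + 1) → ℝ)
    (B : Finset V) (hosc : ∀ x ∈ B, ∀ k i, |v (x + dir k) i - v x i| ≤ ω) :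
    ∃ (c : Fin (N + 1) → ℝ) (hg : Gen v c), (∀ i, 0 ≤ c i ∧ c i ≤ 1 / 4) ∧
      ∑ x ∈ B, (SS (mkNet h hh v c hg) (lab v c) x 0 + SS (mkNet h hh v c hg) (lab v c) x 1) ≤
        ∑ x ∈ B, (EE h ω v x 0 + EE h ω v x 1) := by
  have hm : Measurable fun c => ∑ x ∈ B, (ex_phi h ω v x 0 c + ex_phi h ω v x 1 c) :=
    Finset.measurable_sum _ fun x _ => (ex_phi_meas h ω v x 0).add (ex_phi_meas h ω v x 1)
  have hN : muN N ({c | ¬ Gen v c} ∪ {c | ¬ ∀ i, 0 ≤ c i ∧ c i ≤ 1 / 4}) = 0 :=
    MeasureTheory.measure_union_null (ex_gen v) (ae_mem N)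
  obtain ⟨c, hcN, hcle⟩ := MeasureTheory.exists_notMem_null_le_lintegral hm.aemeasurable hN
  have hg : Gen v c := by
    by_contra hcon
    exact hcN (Or.inl hcon)
  have hc : ∀ i, 0 ≤ c i ∧ c i ≤ 1 / 4 := by
    by_contra hcon
    exact hcN (Or.inr hcon)
  refine ⟨c, hg, hc, ?_⟩
  have hE : ∀ x k, 0 ≤ EE h ω v x k := fun x k => ex_EE_nonneg hh hω v x k
  have hS : ∀ x k, 0 ≤ SS (mkNet h hh v c hg) (lab v c) x k := fun x k => ex_SS_nonneg hh hg x k
  have h1 : ENNReal.ofReal (∑ x ∈ B, (SS (mkNet h hh v c hg) (lab v c) x 0 +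
      SS (mkNet h hh v c hg) (lab v c) x 1)) ≤
      ENNReal.ofReal (∑ x ∈ B, (EE h ω v x 0 + EE h ω v x 1)) := by
    rw [ENNReal.ofReal_sum_of_nonneg fun x _ => add_nonneg (hS x 0) (hS x 1)]
    rw [ENNReal.ofReal_sum_of_nonneg fun x _ => add_nonneg (hE x 0) (hE x 1)]
    have a1 : ∑ x ∈ B, ENNReal.ofReal (SS (mkNet h hh v c hg) (lab v c) x 0 +
        SS (mkNet h hh v c hg) (lab v c) x 1) ≤
        ∑ x ∈ B, (ex_phi h ω v x 0 c + ex_phi h ω v x 1 c) := by
      refine sum_le_sum fun x hx => ?_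
      rw [ENNReal.ofReal_add (hS x 0) (hS x 1)]
      exact add_le_add (ex_point hh hg hc x 0 (hosc x hx)) (ex_point hh hg hc x 1 (hosc x hx))
    refine a1.trans (hcle.trans ?_)
    have hf : ∀ x ∈ B, Measurable fun c => ex_phi h ω v x 0 c + ex_phi h ω v x 1 c :=
      fun x _ => (ex_phi_meas h ω v x 0).add (ex_phi_meas h ω v x 1)
    rw [MeasureTheory.lintegral_finsetSum _ hf]
    refine sum_le_sum fun x hx => ?_
    rw [MeasureTheory.lintegral_add_left (ex_phi_meas h ω v x 0),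
      ENNReal.ofReal_add (hE x 0) (hE x 1)]
    exact add_le_add (ex_phi_int hh hω v x (hosc x hx) 0) (ex_phi_int hh hω v x (hosc x hx) 1)
  exact (ENNReal.ofReal_le_ofReal_iff (sum_nonneg fun x _ => add_nonneg (hE x 0) (hE x 1))).1 h1

end Pool.Agent.Helper38.LCA
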