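import Pool.Agent.Helper38.LCA.Smooth

/-!
# LCA-14: the total variation of a smooth function

* `parts`: integration by parts in both directions `1`, `I` (`integral_mul_fderiv_eq_neg_fderiv_mul_of_integrable`; everything is continuous with compact support because of `φ`):
  `∫ u * dvg φ = - ∫ ((gr u).re φ.re + (gr u).im φ.im)`; `dvg φ = ∂_1 (φ.re) + ∂_I (φ.im)`, the derivatives of `φ.re`, `φ.im` are the real and imaginary parts of the derivative.
* `grad_le`: for `τ > 0` let `φ = - χ (gr u) / √(‖gr u‖² + τ²)` (real scalar times a complex number): `C¹` (`gr_cont`), compact support, `‖φ‖ ≤ χ ≤ 1`.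
  `∫ u * dvg φ = ∫ χ ‖gr u‖² / √(‖gr u‖² + τ²) ≥ ∫ χ (‖gr u‖ - τ)` (`s² / √(s² + τ²) ≥ s - τ`).  So `∫ χ ‖gr u‖ ≤ P0 + τ ∫ χ` for every `τ > 0`.
-/

namespace Pool.Agent.Helper38.LCA

open Finset Real Pool.Agent.Helper98.LC MeasureTheory Pool.Agent.Helper79.HC

theorem parts {u : ℂ → ℝ} (hu : ContDiff ℝ 1 u) {φ : ℂ → ℂ} (hφ : ContDiff ℝ 1 φ)
    (hs : HasCompactSupport φ) :
    ∫ p, u p * dvg φ p = - ∫ p, ((gr u p).re * (φ p).re + (gr u p).im * (φ p).im) := by
  have h1c : ContDiff ℝ 1 (fun p => (φ p).re) := Complex.reCLM.contDiff.comp hφ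
  have h2c : ContDiff ℝ 1 (fun p => (φ p).im) := Complex.imCLM.contDiff.comp hφ
  have h1s : HasCompactSupport (fun p => (φ p).re) := hs.comp_left (g := Complex.re) Complex.zero_re
  have h2s : HasCompactSupport (fun p => (φ p).im) := hs.comp_left (g := Complex.im) Complex.zero_im
  have hφd : Differentiable ℝ φ := hφ.differentiable one_ne_zero
  have hud : Differentiable ℝ u := hu.differentiable one_ne_zero
  have d1 : ∀ p v, fderiv ℝ (fun p => (φ p).re) p v = (fderiv ℝ φ p v).re := by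
    intro p v
    have h := (Complex.reCLM.hasFDerivAt.comp p (hφd p).hasFDerivAt).fderiv
    have h' : fderiv ℝ (fun p => (φ p).re) p = Complex.reCLM.comp (fderiv ℝ φ p) := h
    rw [h']
    rfl
  have d2 : ∀ p v, fderiv ℝ (fun p => (φ p).im) p v = (fderiv ℝ φ p v).im := by
    intro p v
    have h := (Complex.imCLM.hasFDerivAt.comp p (hφd p).hasFDerivAt).fderiv
    have h' : fderiv ℝ (fun p => (φ p).im) p = Complex.imCLM.comp (fderiv ℝ φ p) := h
    rw [h']
    rfl
  have key : ∀ (f : ℂ → ℝ) (v : ℂ), ContDiff ℝ 1 f → HasCompactSupport f →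
      Integrable (fun p => u p * fderiv ℝ f p v) ∧ Integrable (fun p => fderiv ℝ u p v * f p) ∧
      ∫ p, u p * fderiv ℝ f p v = - ∫ p, fderiv ℝ u p v * f p := by
    intro f v hf hfs
    have hfv : Continuous (fun p => fderiv ℝ f p v) :=
      (hf.continuous_fderiv one_ne_zero).clm_apply continuous_const
    have huv : Continuous (fun p => fderiv ℝ u p v) :=
      (hu.continuous_fderiv one_ne_zero).clm_apply continuous_const
    have i1 : Integrable (fun p => u p * fderiv ℝ f p v) :=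
      (hu.continuous.mul hfv).integrable_of_hasCompactSupport
        ((hfs.fderiv_apply (𝕜 := ℝ) v).mul_left)
    have i2 : Integrable (fun p => fderiv ℝ u p v * f p) :=
      (huv.mul hf.continuous).integrable_of_hasCompactSupport hfs.mul_left
    have i3 : Integrable (fun p => u p * f p) :=
      (hu.continuous.mul hf.continuous).integrable_of_hasCompactSupport hfs.mul_left
    exact ⟨i1, i2, integral_mul_fderiv_eq_neg_fderiv_mul_of_integrable i2 i1 i3
      (fun p _ => hud p) (fun p _ => hf.differentiable one_ne_zero p)⟩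
  obtain ⟨a1, a2, a3⟩ := key _ 1 h1c h1s
  obtain ⟨b1, b2, b3⟩ := key _ Complex.I h2c h2s
  have e1 : ∀ p, u p * dvg φ p = u p * fderiv ℝ (fun p => (φ p).re) p 1 +
      u p * fderiv ℝ (fun p => (φ p).im) p Complex.I := by
    intro p
    rw [d1, d2]
    unfold dvg
    ring
  have e2 : ∀ p, (gr u p).re * (φ p).re + (gr u p).im * (φ p).im =
      fderiv ℝ u p 1 * (φ p).re + fderiv ℝ u p Complex.I * (φ p).im := fun p => rfl
  simp only [e1, e2]
  rw [integral_add a1 b1, integral_add a2 b2, a3, b3]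
  ring

theorem grad_le {u : ℂ → ℝ} (hu : ContDiff ℝ 2 u) {P0 : ℝ}
    (hP : ∀ φ, IsTest φ → ∫ p, u p * dvg φ p ≤ P0) {χ : ℂ → ℝ} (hχ : ContDiff ℝ 1 χ)
    (hs : HasCompactSupport χ) (h01 : ∀ p, 0 ≤ χ p ∧ χ p ≤ 1) : ∫ p, χ p * ‖gr u p‖ ≤ P0 := by
  have hg : ContDiff ℝ 1 (gr u) := gr_cont hu
  have hC0 : 0 ≤ ∫ p, χ p := integral_nonneg fun p => (h01 p).1
  have hgn : Continuous (fun p => ‖gr u p‖) := hg.continuous.norm
  have iχ : Integrable χ := hχ.continuous.integrable_of_hasCompactSupport hs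
  have iχg : Integrable (fun p => χ p * ‖gr u p‖) :=
    (hχ.continuous.mul hgn).integrable_of_hasCompactSupport hs.mul_right
  have main : ∀ τ : ℝ, 0 < τ → ∫ p, χ p * ‖gr u p‖ ≤ P0 + τ * ∫ p, χ p := by
    intro τ hτ
    have hpos : ∀ p, 0 < ‖gr u p‖ ^ 2 + τ ^ 2 := fun p => by positivity
    have hR : ContDiff ℝ 1 (fun p => √(‖gr u p‖ ^ 2 + τ ^ 2)) :=
      (ContDiff.add (hg.norm_sq ℝ) contDiff_const).sqrt (fun p => (hpos p).ne')
    have hR0 : ∀ p, 0 < √(‖gr u p‖ ^ 2 + τ ^ 2) := fun p => Real.sqrt_pos.2 (hpos p)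
    have hRle : ∀ p, ‖gr u p‖ ≤ √(‖gr u p‖ ^ 2 + τ ^ 2) := fun p =>
      Real.le_sqrt_of_sq_le (by nlinarith [sq_nonneg τ])
    obtain ⟨φ, hφ⟩ : ∃ φ : ℂ → ℂ, φ = fun p => χ p •
        (-(√(‖gr u p‖ ^ 2 + τ ^ 2))⁻¹ • gr u p) := ⟨_, rfl⟩
    have hφc : ContDiff ℝ 1 φ := by
      rw [hφ]
      exact hχ.smul ((hR.inv fun p => (hR0 p).ne').neg.smul hg)
    have hφs : HasCompactSupport φ := by
      rw [hφ]
      exact hs.smul_right
    have hφb : ∀ z, ‖φ z‖ ≤ 1 := by
      intro z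
      rw [hφ]
      show ‖χ z • (-(√(‖gr u z‖ ^ 2 + τ ^ 2))⁻¹ • gr u z)‖ ≤ 1
      rw [norm_smul, norm_smul, norm_neg, norm_inv, Real.norm_of_nonneg (h01 z).1,
        Real.norm_of_nonneg (hR0 z).le]
      have h1 : (√(‖gr u z‖ ^ 2 + τ ^ 2))⁻¹ * ‖gr u z‖ ≤ 1 := by
        rw [inv_mul_le_iff₀ (hR0 z), mul_one]
        exact hRle z
      have h2 : 0 ≤ (√(‖gr u z‖ ^ 2 + τ ^ 2))⁻¹ * ‖gr u z‖ :=
        mul_nonneg (inv_nonneg.2 (hR0 z).le) (norm_nonneg _)
      exact mul_le_one₀ (h01 z).2 h2 h1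
    have h3 := hP φ ⟨hφc, hφs, hφb⟩
    rw [parts (hu.of_le one_le_two) hφc hφs, ← integral_neg] at h3
    have h4 : ∀ p, χ p * ‖gr u p‖ - τ * χ p ≤
        -((gr u p).re * (φ p).re + (gr u p).im * (φ p).im) := by
      intro p
      have e1 : (φ p).re = χ p * (-(√(‖gr u p‖ ^ 2 + τ ^ 2))⁻¹ * (gr u p).re) := by
        rw [hφ]
        simp
      have e2 : (φ p).im = χ p * (-(√(‖gr u p‖ ^ 2 + τ ^ 2))⁻¹ * (gr u p).im) := by
        rw [hφ]
        simp
      have e3 : ‖gr u p‖ ^ 2 = (gr u p).re * (gr u p).re + (gr u p).im * (gr u p).im := by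
        rw [← Complex.normSq_eq_norm_sq, Complex.normSq_apply]
      have e4 : -((gr u p).re * (φ p).re + (gr u p).im * (φ p).im) =
          χ p * ((√(‖gr u p‖ ^ 2 + τ ^ 2))⁻¹ * ‖gr u p‖ ^ 2) := by
        rw [e1, e2]
        linear_combination (-(χ p) * (√(‖gr u p‖ ^ 2 + τ ^ 2))⁻¹) * e3
      rw [e4]
      have e5 : ‖gr u p‖ - τ ≤ (√(‖gr u p‖ ^ 2 + τ ^ 2))⁻¹ * ‖gr u p‖ ^ 2 := by
        rw [← div_eq_inv_mul, le_div_iff₀ (hR0 p)]
        rcases le_total ‖gr u p‖ τ with h5 | h5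
        · have h6 : (‖gr u p‖ - τ) * √(‖gr u p‖ ^ 2 + τ ^ 2) ≤ 0 :=
            mul_nonpos_of_nonpos_of_nonneg (by linarith) (hR0 p).le
          nlinarith [sq_nonneg ‖gr u p‖]
        · have h6 : √(‖gr u p‖ ^ 2 + τ ^ 2) ≤ ‖gr u p‖ + τ := by
            refine Real.sqrt_le_iff.2 ⟨by positivity, ?_⟩
            nlinarith [norm_nonneg (gr u p)]
          have h7 := mul_le_mul_of_nonneg_left h6 (sub_nonneg.2 h5)
          nlinarith [sq_nonneg τ]
      have h8 := mul_le_mul_of_nonneg_left e5 (h01 p).1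
      linarith
    have i1 : Integrable (fun p => χ p * ‖gr u p‖ - τ * χ p) := iχg.sub (iχ.const_mul τ)
    have hre : Continuous (fun p => (gr u p).re) := Complex.continuous_re.comp hg.continuous
    have him : Continuous (fun p => (gr u p).im) := Complex.continuous_im.comp hg.continuous
    have i2 : Integrable (fun p => -((gr u p).re * (φ p).re + (gr u p).im * (φ p).im)) := by
      have j1 : Integrable (fun p => (gr u p).re * (φ p).re) :=
        (hre.mul (Complex.continuous_re.comp hφc.continuous)).integrable_of_hasCompactSupport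
          ((hφs.comp_left (g := Complex.re) Complex.zero_re).mul_left)
      have j2 : Integrable (fun p => (gr u p).im * (φ p).im) :=
        (him.mul (Complex.continuous_im.comp hφc.continuous)).integrable_of_hasCompactSupport
          ((hφs.comp_left (g := Complex.im) Complex.zero_im).mul_left)
      exact (j1.add j2).neg
    have h5 := integral_mono i1 i2 h4
    rw [integral_sub iχg (iχ.const_mul τ), integral_const_mul] at h5
    linarith
  refine le_of_forall_pos_le_add fun ε hε => ?_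
  have h6 := main (ε / ((∫ p, χ p) + 1)) (by positivity)
  have h7 : ε / ((∫ p, χ p) + 1) * ∫ p, χ p ≤ ε := by
    rw [div_mul_eq_mul_div, div_le_iff₀ (by positivity)]
    nlinarith
  linarith

end Pool.Agent.Helper38.LCA
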