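import Pool.Agent.Helper38.LCA.Defs

/-!
# LCA-02: the integral of the normalised length of the level segments

* `iso1 a b c s = iso1 a c b s`, so `Iso` is symmetric under all permutations of `a, b, c`; `Iso_neg`: `iso1 (-a) (-b) (-c) (-s) = iso1 a b c s`.
* If `a ≤ b ≤ c`: `iso1 b c a s = 0` (both conditions would give `s < b` and `b < s`), `iso1 a b c s = (s - a)/((b - a)(c - a))` for `a < s < b` and `0` otherwise,
  `iso1 c a b s = (c - s)/((c - a)(c - b))` for `b < s < c` and `0` otherwise.  Integrals `(b - a)/(2 (c - a))` and `(c - b)/(2 (c - a))` (or `0` if `a = b`, `b = c`): sum `≤ 1/2`.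
* `iso_fE`: `Iso a b c s ≠ 0` only if `s` is strictly between two of the numbers `a, b, c`, so `|s - a| ≤ δ` and `fE s ≤ fE a + 16 δ` (`fE` is Lipschitz with constant 16).
-/

namespace Pool.Agent.Helper38.LCA

open Finset Real Pool.Agent.Helper98.LC MeasureTheory

private theorem io_fE_nonneg (s : ℝ) : 0 ≤ fE s := le_max_left _ _

private theorem io_fE_lip (s t : ℝ) : fE s ≤ fE t + 16 * |s - t| := by
  unfold fE
  have h1 := abs_sub_abs_le_abs_sub t s
  rw [abs_sub_comm t s] at h1
  have h2 := abs_nonneg (s - t)
  apply max_le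
  · have := le_max_left 0 (4 - 16 * |t|)
    linarith
  · have := le_max_right 0 (4 - 16 * |t|)
    linarith

private theorem io_nonneg1 (a b c s : ℝ) : 0 ≤ iso1 a b c s := by
  unfold iso1
  split_ifs
  · positivity
  · exact le_rfl

private theorem io_neg1 (a b c s : ℝ) : iso1 (-a) (-b) (-c) (-s) = iso1 a b c s := by
  unfold iso1
  have h1 : (-a - -s) * (-b - -s) = (a - s) * (b - s) := by ring
  have h2 : (-a - -s) * (-c - -s) = (a - s) * (c - s) := by ring
  have h3 : |-a - -s| = |a - s| := by
    rw [show -a - -s = -(a - s) by ring, abs_neg]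
  have h4 : |-a - -b| = |a - b| := by
    rw [show -a - -b = -(a - b) by ring, abs_neg]
  have h5 : |-a - -c| = |a - c| := by
    rw [show -a - -c = -(a - c) by ring, abs_neg]
  rw [h1, h2, h3, h4, h5]

private theorem io_meas1 (a b c : ℝ) : Measurable (iso1 a b c) := by
  unfold iso1
  refine Measurable.ite ?_ (by fun_prop) measurable_const
  have h1 : MeasurableSet {s : ℝ | (a - s) * (b - s) < 0} :=
    measurableSet_lt (by fun_prop) measurable_const
  have h2 : MeasurableSet {s : ℝ | (a - s) * (c - s) < 0} :=
    measurableSet_lt (by fun_prop) measurable_const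
  exact h1.inter h2

private theorem io_swap1 (a b c s : ℝ) : iso1 a b c s = iso1 a c b s := by
  unfold iso1
  have h : ((a - s) * (b - s) < 0 ∧ (a - s) * (c - s) < 0) ↔
    ((a - s) * (c - s) < 0 ∧ (a - s) * (b - s) < 0) := and_comm
  by_cases h1 : (a - s) * (b - s) < 0 ∧ (a - s) * (c - s) < 0
  · rw [if_pos h1, if_pos (h.1 h1), mul_comm |a - b|]
  · rw [if_neg h1, if_neg fun h2 => h1 (h.2 h2)]

private theorem io_rot (a b c s : ℝ) : Iso a b c s = Iso b c a s := by
  unfold Iso
  ring

private theorem io_swap (a b c s : ℝ) : Iso a b c s = Iso a c b s := by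
  unfold Iso
  rw [io_swap1 a b c, io_swap1 b c a, io_swap1 c a b]
  ring

theorem Iso_nonneg (a b c s : ℝ) : 0 ≤ Iso a b c s := by
  unfold Iso
  have h1 := io_nonneg1 a b c s
  have h2 := io_nonneg1 b c a s
  have h3 := io_nonneg1 c a b s
  linarith

theorem Iso_neg (a b c s : ℝ) : Iso (-a) (-b) (-c) (-s) = Iso a b c s := by
  unfold Iso
  rw [io_neg1, io_neg1, io_neg1]

theorem Iso_meas (a b c : ℝ) : Measurable (Iso a b c) := by
  unfold Iso
  exact ((io_meas1 a b c).add (io_meas1 b c a)).add (io_meas1 c a b)

/-- the two pieces -/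
private theorem io_int_left {a b k : ℝ} (hab : a ≤ b) (hk : 0 ≤ k) :
    ∫⁻ s in Set.Ioo a b, ENNReal.ofReal (k * (s - a)) = ENNReal.ofReal (k * ((b - a) ^ 2 / 2)) := by
  have hcont : Continuous fun s : ℝ => k * (s - a) := by fun_prop
  rw [← ofReal_integral_eq_lintegral_ofReal]
  · congr 1
    rw [← integral_Ioc_eq_integral_Ioo, ← intervalIntegral.integral_of_le hab,
      intervalIntegral.integral_const_mul, intervalIntegral.integral_comp_sub_right (fun x => x) a,
      integral_id]
    ring
  · exact (hcont.integrableOn_Icc (a := a) (b := b)).mono_set Set.Ioo_subset_Icc_self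
  · refine (ae_restrict_iff' measurableSet_Ioo).2 (Filter.Eventually.of_forall fun s hs => ?_)
    exact mul_nonneg hk (by linarith [hs.1])

private theorem io_int_right {b c k : ℝ} (hbc : b ≤ c) (hk : 0 ≤ k) :
    ∫⁻ s in Set.Ioo b c, ENNReal.ofReal (k * (c - s)) = ENNReal.ofReal (k * ((c - b) ^ 2 / 2)) := by
  have hcont : Continuous fun s : ℝ => k * (c - s) := by fun_prop
  rw [← ofReal_integral_eq_lintegral_ofReal]
  · congr 1
    rw [← integral_Ioc_eq_integral_Ioo, ← intervalIntegral.integral_of_le hbc,
      intervalIntegral.integral_const_mul, intervalIntegral.integral_comp_sub_left (fun x => x) c,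
      integral_id]
    ring
  · exact (hcont.integrableOn_Icc (a := b) (b := c)).mono_set Set.Ioo_subset_Icc_self
  · refine (ae_restrict_iff' measurableSet_Ioo).2 (Filter.Eventually.of_forall fun s hs => ?_)
    exact mul_nonneg hk (by linarith [hs.2])

/-- the values for sorted numbers -/
private theorem io_sorted_pt {a b c : ℝ} (hab : a ≤ b) (hbc : b ≤ c) (s : ℝ) :
    ENNReal.ofReal (Iso a b c s) ≤
      (Set.Ioo a b).indicator (fun s => ENNReal.ofReal (1 / ((b - a) * (c - a)) * (s - a))) s +
      (Set.Ioo b c).indicator (fun s => ENNReal.ofReal (1 / ((c - a) * (c - b)) * (c - s))) s := by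
  have h2 : iso1 b c a s = 0 := by
    unfold iso1
    rw [if_neg]
    rintro ⟨h1, h2⟩
    rcases lt_trichotomy b s with h | h | h
    · have : a - s < 0 := by linarith
      have : 0 < (b - s) * (a - s) := mul_pos_of_neg_of_neg (by linarith) this
      linarith
    · rw [h] at h1
      simp at h1
    · have : 0 < (b - s) * (c - s) := mul_pos (by linarith) (by linarith)
      linarith
  have h1 : iso1 a b c s ≤
      (Set.Ioo a b).indicator (fun s => 1 / ((b - a) * (c - a)) * (s - a)) s := by
    unfold iso1
    by_cases h : (a - s) * (b - s) < 0 ∧ (a - s) * (c - s) < 0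
    · have has : a < s := by
        by_contra h3
        have h4 : 0 ≤ (a - s) * (b - s) := mul_nonneg (by linarith) (by linarith)
        linarith [h.1]
      have hsb : s < b := by
        by_contra h3
        have h4 : 0 ≤ (a - s) * (b - s) :=
          mul_nonneg_of_nonpos_of_nonpos (by linarith) (by linarith)
        linarith [h.1]
      rw [if_pos h, Set.indicator_of_mem (show s ∈ Set.Ioo a b from ⟨has, hsb⟩)]
      rw [abs_of_nonpos (by linarith : a - s ≤ 0), abs_of_nonpos (by linarith : a - b ≤ 0),
        abs_of_nonpos (by linarith : a - c ≤ 0)]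
      apply le_of_eq
      rw [show -(a - b) = b - a by ring, show -(a - c) = c - a by ring]
      ring
    · rw [if_neg h]
      refine Set.indicator_nonneg (fun t ht => ?_) s
      have h5 : 0 ≤ (b - a) * (c - a) := mul_nonneg (by linarith) (by linarith)
      exact mul_nonneg (by positivity) (by linarith [ht.1])
  have h3 : iso1 c a b s ≤
      (Set.Ioo b c).indicator (fun s => 1 / ((c - a) * (c - b)) * (c - s)) s := by
    unfold iso1
    by_cases h : (c - s) * (a - s) < 0 ∧ (c - s) * (b - s) < 0
    · have hsc : s < c := by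
        by_contra h3
        have h4 : 0 ≤ (c - s) * (b - s) :=
          mul_nonneg_of_nonpos_of_nonpos (by linarith) (by linarith)
        linarith [h.2]
      have hbs : b < s := by
        by_contra h3
        have h4 : 0 ≤ (c - s) * (b - s) := mul_nonneg (by linarith) (by linarith)
        linarith [h.2]
      rw [if_pos h, Set.indicator_of_mem (show s ∈ Set.Ioo b c from ⟨hbs, hsc⟩)]
      rw [abs_of_nonneg (by linarith : 0 ≤ c - s), abs_of_nonneg (by linarith : 0 ≤ c - a),
        abs_of_nonneg (by linarith : 0 ≤ c - b)]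
      apply le_of_eq
      ring
    · rw [if_neg h]
      refine Set.indicator_nonneg (fun t ht => ?_) s
      have h5 : 0 ≤ (c - a) * (c - b) := mul_nonneg (by linarith) (by linarith)
      exact mul_nonneg (by positivity) (by linarith [ht.2])
  have h4 : Iso a b c s ≤
      (Set.Ioo a b).indicator (fun s => 1 / ((b - a) * (c - a)) * (s - a)) s +
      (Set.Ioo b c).indicator (fun s => 1 / ((c - a) * (c - b)) * (c - s)) s := by
    unfold Iso
    linarith
  refine (ENNReal.ofReal_le_ofReal h4).trans ?_
  refine ENNReal.ofReal_add_le.trans ?_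
  apply add_le_add
  · by_cases hs : s ∈ Set.Ioo a b
    · rw [Set.indicator_of_mem hs, Set.indicator_of_mem hs]
    · rw [Set.indicator_of_notMem hs, Set.indicator_of_notMem hs, ENNReal.ofReal_zero]
  · by_cases hs : s ∈ Set.Ioo b c
    · rw [Set.indicator_of_mem hs, Set.indicator_of_mem hs]
    · rw [Set.indicator_of_notMem hs, Set.indicator_of_notMem hs, ENNReal.ofReal_zero]

private theorem io_sorted {a b c : ℝ} (hab : a ≤ b) (hbc : b ≤ c) :
    ∫⁻ s, ENNReal.ofReal (Iso a b c s) ≤ ENNReal.ofReal (1 / 2) := by
  refine (lintegral_mono (io_sorted_pt hab hbc)).trans ?_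
  have hm : Measurable ((Set.Ioo a b).indicator
      (fun s => ENNReal.ofReal (1 / ((b - a) * (c - a)) * (s - a)))) :=
    Measurable.indicator (by fun_prop) measurableSet_Ioo
  rw [lintegral_add_left hm, lintegral_indicator measurableSet_Ioo,
    lintegral_indicator measurableSet_Ioo]
  have h1 : 0 ≤ 1 / ((b - a) * (c - a)) :=
    div_nonneg (by norm_num) (mul_nonneg (by linarith) (by linarith))
  have h2 : 0 ≤ 1 / ((c - a) * (c - b)) :=
    div_nonneg (by norm_num) (mul_nonneg (by linarith) (by linarith))
  rw [io_int_left hab h1, io_int_right hbc h2, ← ENNReal.ofReal_add (by positivity) (by positivity)]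
  apply ENNReal.ofReal_le_ofReal
  rcases eq_or_lt_of_le hab with h3 | h3
  · rcases eq_or_lt_of_le hbc with h4 | h4
    · rw [← h4, ← h3]
      norm_num
    · rw [← h3]
      have h5' : a < c := by linarith
      have h5 : (c - a) ≠ 0 := sub_ne_zero.2 h5'.ne'
      have h6 : 1 / ((c - a) * (c - a)) * ((c - a) ^ 2 / 2) = 1 / 2 := by
        field_simp
      rw [h6]
      simp
  · have h7 : (c - a) ≠ 0 := sub_ne_zero.2 (by linarith : a < c).ne'
    have h8 : (b - a) ≠ 0 := sub_ne_zero.2 h3.ne'
    have h9 : 1 / ((b - a) * (c - a)) * ((b - a) ^ 2 / 2) = (b - a) / (2 * (c - a)) := by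
      field_simp
    rcases eq_or_lt_of_le hbc with h4 | h4
    · rw [h9, ← h4, sub_self]
      simp
      have h10 : (b - a) / (2 * (b - a)) = 1 / 2 := by field_simp
      rw [h10]
      norm_num
    · have h10 : (c - b) ≠ 0 := sub_ne_zero.2 h4.ne'
      have h11 : 1 / ((c - a) * (c - b)) * ((c - b) ^ 2 / 2) = (c - b) / (2 * (c - a)) := by
        field_simp
      rw [h9, h11]
      apply le_of_eq
      field_simp
      ring

private theorem io_all (a b c : ℝ) :
    ∫⁻ s, ENNReal.ofReal (Iso a b c s) ≤ ENNReal.ofReal (1 / 2) := by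
  rcases le_total a b with h1 | h1
  · rcases le_total b c with h2 | h2
    · exact io_sorted h1 h2
    · rcases le_total a c with h3 | h3
      · -- a ≤ c ≤ b
        have h : ∀ s, Iso a b c s = Iso a c b s := io_swap a b c
        simp_rw [h]
        exact io_sorted h3 h2
      · -- c ≤ a ≤ b
        have h : ∀ s, Iso a b c s = Iso c a b s := fun s => (io_rot c a b s).symm
        simp_rw [h]
        exact io_sorted h3 h1
  · rcases le_total a c with h2 | h2
    · -- b ≤ a ≤ c
      have h : ∀ s, Iso a b c s = Iso b a c s := fun s => by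
        rw [io_rot a b c s, io_swap b c a s]
      simp_rw [h]
      exact io_sorted h1 h2
    · rcases le_total b c with h3 | h3
      · -- b ≤ c ≤ a
        have h : ∀ s, Iso a b c s = Iso b c a s := io_rot a b c
        simp_rw [h]
        exact io_sorted h3 h2
      · -- c ≤ b ≤ a
        have h : ∀ s, Iso a b c s = Iso c b a s := fun s => by
          rw [← io_rot c a b s, io_swap c a b s]
        simp_rw [h]
        exact io_sorted h3 h1

private theorem io_between {a b s δ : ℝ} (hb : |b - a| ≤ δ) (h : (a - s) * (b - s) < 0) :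
    |s - a| ≤ δ := by
  have h1 := abs_le.1 hb
  rw [abs_le]
  rcases lt_trichotomy a s with h2 | h2 | h2
  · have h3 : s < b := by
      by_contra h4
      have h5 : 0 ≤ (a - s) * (b - s) :=
        mul_nonneg_of_nonpos_of_nonpos (by linarith) (by linarith)
      linarith
    constructor <;> linarith
  · rw [h2] at h
    simp at h
  · have h3 : b < s := by
      by_contra h4
      have h5 : 0 ≤ (a - s) * (b - s) := mul_nonneg (by linarith) (by linarith)
      linarith
    constructor <;> linarith

private theorem io_supp {a b c s δ : ℝ} (hb : |b - a| ≤ δ) (hc : |c - a| ≤ δ)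
    (h : Iso a b c s ≠ 0) : |s - a| ≤ δ := by
  by_contra hn
  apply h
  unfold Iso iso1
  have h1 : ¬ (a - s) * (b - s) < 0 := fun h => hn (io_between hb h)
  have h2 : ¬ (a - s) * (c - s) < 0 := fun h => hn (io_between hc h)
  rw [if_neg fun h => h1 h.1, if_neg fun h => h1 (by rw [mul_comm]; exact h.2),
    if_neg fun h => h2 (by rw [mul_comm]; exact h.1)]
  norm_num

theorem iso_fE {a b c δ : ℝ} (hb : |b - a| ≤ δ) (hc : |c - a| ≤ δ) :
    ∫⁻ s, ENNReal.ofReal (Iso a b c s) * ENNReal.ofReal (fE s) ≤
      ENNReal.ofReal ((fE a + 16 * δ) / 2) := by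
  have hδ : 0 ≤ δ := (abs_nonneg _).trans hb
  have hfa : 0 ≤ fE a + 16 * δ := by
    have := io_fE_nonneg a
    linarith
  have h1 : ∀ s, ENNReal.ofReal (Iso a b c s) * ENNReal.ofReal (fE s) ≤
      ENNReal.ofReal (Iso a b c s) * ENNReal.ofReal (fE a + 16 * δ) := by
    intro s
    by_cases h : Iso a b c s = 0
    · rw [h, ENNReal.ofReal_zero, zero_mul, zero_mul]
    · refine mul_le_mul' le_rfl (ENNReal.ofReal_le_ofReal ?_)
      have h2 := io_supp hb hc h
      have h3 := io_fE_lip s a
      linarith
  refine (lintegral_mono h1).trans ?_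
  rw [lintegral_mul_const _ (Iso_meas a b c).ennreal_ofReal]
  refine (mul_le_mul' (io_all a b c) le_rfl).trans ?_
  rw [← ENNReal.ofReal_mul (by norm_num)]
  apply ENNReal.ofReal_le_ofReal
  apply le_of_eq
  ring

end Pool.Agent.Helper38.LCA
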