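import Pool.Agent.Helper38.LCA.Defs

/-!
# LCA-12: mollification of indicator functions

* `ml_smooth`: `HasCompactSupport.contDiff_convolution_left` (`(bp n).normed` is smooth with compact support, the indicator function is locally integrable).
* `ml_nonneg`, `ml_le_one`, `ml_sum`: `∫ ρ = 1` (`ContDiffBump.integral_normed`), `ρ ≥ 0`; the indicator functions of the sets of a partition have the sum `1`.
* `ml_far`: `ml n E p ≤ sup ρ * vol (E ∩ ball p (rOut))`, and `vol (E \ ball 0 s) → 0` for `s → ∞` since `vol E < ∞` (`tendsto_measure_iInter` …).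
* `ml_ae`: `ContDiffBump.ae_convolution_tendsto_right_of_locallyIntegrable` with `K = 2`.
-/

namespace Pool.Agent.Helper38.LCA

open Finset Real Pool.Agent.Helper98.LC MeasureTheory Convolution Filter Topology

/-- bump functions with radii `1/(n+1)`, `2/(n+1)` -/
noncomputable def bp (n : ℕ) : ContDiffBump (0 : ℂ) where
  rIn := 1 / ((n : ℝ) + 1)
  rOut := 2 / ((n : ℝ) + 1)
  rIn_pos := by positivity
  rIn_lt_rOut := by
    have h : (0 : ℝ) < (n : ℝ) + 1 := by positivity
    rw [div_lt_div_iff_of_pos_right h]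
    norm_num

/-- the mollified indicator function -/
noncomputable def ml (n : ℕ) (E : Set ℂ) : ℂ → ℝ :=
  ((bp n).normed volume) ⋆[ContinuousLinearMap.lsmul ℝ ℝ, volume] (E.indicator fun _ => (1 : ℝ))

theorem ml_eq (n : ℕ) (E : Set ℂ) (p : ℂ) :
    ml n E p = ∫ t, (bp n).normed volume t * E.indicator (fun _ => (1 : ℝ)) (p - t) := by
  unfold ml
  rw [convolution_def]
  rfl

private theorem ml_eq_swap (n : ℕ) (E : Set ℂ) (p : ℂ) :
    ml n E p = ∫ t, (bp n).normed volume (p - t) * E.indicator (fun _ => (1 : ℝ)) t := by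
  unfold ml
  rw [convolution_eq_swap]
  rfl

private theorem ind_nonneg (E : Set ℂ) (x : ℂ) : 0 ≤ E.indicator (fun _ => (1 : ℝ)) x :=
  Set.indicator_nonneg (fun _ _ => zero_le_one) x

private theorem ind_le_one (E : Set ℂ) (x : ℂ) : E.indicator (fun _ => (1 : ℝ)) x ≤ 1 :=
  Set.indicator_le_self' (f := fun _ : ℂ => (1 : ℝ)) (fun _ _ => zero_le_one) x

private theorem ind_locInt {E : Set ℂ} (hE : MeasurableSet E) :
    LocallyIntegrable (E.indicator fun _ => (1 : ℝ)) (volume : Measure ℂ) :=
  (locallyIntegrable_const (1 : ℝ)).indicator hE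

theorem ml_smooth (n : ℕ) {E : Set ℂ} (hE : MeasurableSet E) : ContDiff ℝ 2 (ml n E) := by
  unfold ml
  have h := (bp n).hasCompactSupport_normed (μ := volume).contDiff_convolution_left (n := 2)
    (ContinuousLinearMap.lsmul ℝ ℝ) (bp n).contDiff_normed (ind_locInt hE)
  exact h

theorem ml_nonneg (n : ℕ) (E : Set ℂ) (p : ℂ) : 0 ≤ ml n E p := by
  rw [ml_eq]
  exact integral_nonneg fun t => mul_nonneg ((bp n).nonneg_normed t) (ind_nonneg E _)

theorem ml_le_one (n : ℕ) {E : Set ℂ} (hE : MeasurableSet E) (p : ℂ) : ml n E p ≤ 1 := by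
  rw [ml_eq]
  refine le_of_le_of_eq ?_ ((bp n).integral_normed (μ := volume))
  refine integral_mono_of_nonneg
    (Eventually.of_forall fun t => mul_nonneg ((bp n).nonneg_normed t) (ind_nonneg E _))
    (bp n).integrable_normed (Eventually.of_forall fun t => ?_)
  exact mul_le_of_le_one_right ((bp n).nonneg_normed t) (ind_le_one E _)

private theorem ml_integrable (n : ℕ) {E : Set ℂ} (hE : MeasurableSet E) (p : ℂ) :
    Integrable (fun t => (bp n).normed volume t * E.indicator (fun _ => (1 : ℝ)) (p - t))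
      (volume : Measure ℂ) := by
  refine (bp n).integrable_normed (μ := volume).mono' ?_ (Eventually.of_forall fun t => ?_)
  · have h1 : Measurable fun t : ℂ => E.indicator (fun _ => (1 : ℝ)) (p - t) :=
      (measurable_const.indicator hE).comp (measurable_const.sub measurable_id)
    exact ((bp n).continuous_normed (μ := volume).measurable.mul h1).aestronglyMeasurable
  · rw [Real.norm_eq_abs,
      abs_of_nonneg (mul_nonneg ((bp n).nonneg_normed t) (ind_nonneg E _))]
    exact mul_le_of_le_one_right ((bp n).nonneg_normed t) (ind_le_one E _)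

theorem ml_sum (n : ℕ) {N : ℕ} {E : Fin (N + 1) → Set ℂ} (hE : IsPart E) (p : ℂ) :
    ∑ i, ml n (E i) p = 1 := by
  have h1 : ∀ x : ℂ, ∑ i, (E i).indicator (fun _ => (1 : ℝ)) x = 1 := by
    intro x
    have hx : x ∈ ⋃ i, E i := by
      rw [hE.cover]
      exact Set.mem_univ x
    obtain ⟨i, hi⟩ := Set.mem_iUnion.1 hx
    rw [Finset.sum_eq_single i]
    · exact Set.indicator_of_mem hi _
    · intro j _ hj
      refine Set.indicator_of_notMem ?_ _
      intro hjx
      exact (Set.disjoint_left.1 (hE.disj j i hj)) hjx hi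
    · intro h
      exact absurd (Finset.mem_univ i) h
  simp_rw [ml_eq]
  rw [← integral_finsetSum _ fun i _ => ml_integrable n (hE.meas i) p]
  refine Eq.trans ?_ ((bp n).integral_normed (μ := volume))
  refine integral_congr_ae (Eventually.of_forall fun t => ?_)
  change ∑ i, (bp n).normed volume t * (E i).indicator (fun _ => (1 : ℝ)) (p - t) = _
  rw [← Finset.mul_sum, h1, mul_one]

theorem ml_far (n : ℕ) {E : Set ℂ} (hE : MeasurableSet E) (hv : volume E < ⊤) {κ : ℝ}
    (hκ : 0 < κ) : ∃ r, 0 < r ∧ ∀ p, r ≤ ‖p‖ → ml n E p ≤ κ := by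
  obtain ⟨C, hC0, hC⟩ : ∃ C : ℝ, 0 < C ∧ ∀ x, (bp n).normed volume x ≤ C := by
    refine ⟨|1 / (volume : Measure ℂ).real (Metric.closedBall 0 (bp n).rIn)| + 1, by positivity,
      fun x => ?_⟩
    refine ((bp n).normed_le_div_measure_closedBall_rIn volume x).trans ?_
    have := le_abs_self (1 / (volume : Measure ℂ).real (Metric.closedBall 0 (bp n).rIn))
    linarith
  have hlim : Tendsto (fun k : ℕ => volume (E \ Metric.ball (0 : ℂ) k)) atTop
      (𝓝 (volume (⋂ k : ℕ, E \ Metric.ball (0 : ℂ) k))) := by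
    refine tendsto_measure_iInter_atTop
      (fun k => (hE.diff measurableSet_ball).nullMeasurableSet) ?_ ⟨0, ?_⟩
    · intro k l hkl
      exact Set.sdiff_subset_sdiff_right (Metric.ball_subset_ball (by exact_mod_cast hkl))
    · exact (lt_of_le_of_lt (measure_mono Set.sdiff_subset) hv).ne
  have hemp : (⋂ k : ℕ, E \ Metric.ball (0 : ℂ) k) = ∅ := by
    rw [Set.eq_empty_iff_forall_notMem]
    intro x hx
    obtain ⟨k, hk⟩ := exists_nat_gt ‖x‖
    have h1 := (Set.mem_iInter.1 hx k).2
    exact h1 (by rw [mem_ball_zero_iff]; exact hk)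
  rw [hemp, measure_empty] at hlim
  have hev := (ENNReal.tendsto_nhds_zero.1 hlim) (ENNReal.ofReal (κ / C))
    (by rw [gt_iff_lt, ENNReal.ofReal_pos]; positivity)
  obtain ⟨k, hk⟩ := hev.exists
  have hro := (bp n).rOut_pos
  refine ⟨(k : ℝ) + (bp n).rOut, by positivity, fun p hp => ?_⟩
  have hS : MeasurableSet (E \ Metric.ball (0 : ℂ) k) := hE.diff measurableSet_ball
  have hfin : volume (E \ Metric.ball (0 : ℂ) k) < ⊤ :=
    lt_of_le_of_lt (measure_mono Set.sdiff_subset) hv
  have hle : ml n E p ≤ ∫ t, C * (E \ Metric.ball (0 : ℂ) k).indicator (fun _ => (1 : ℝ)) t := by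
    rw [ml_eq_swap]
    refine integral_mono_of_nonneg
      (Eventually.of_forall fun t => mul_nonneg ((bp n).nonneg_normed _) (ind_nonneg E _)) ?_
      (Eventually.of_forall fun t => ?_)
    · refine Integrable.const_mul ?_ C
      exact (integrable_indicator_iff hS).2 (integrableOn_const hfin.ne)
    · change (bp n).normed volume (p - t) * E.indicator (fun _ => (1 : ℝ)) t ≤ _
      by_cases ht : t ∈ E
      · by_cases htb : t ∈ Metric.ball (0 : ℂ) k
        · have h0 : (bp n).normed volume (p - t) = 0 := by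
            by_contra hne
            have h1 : p - t ∈ Function.support ((bp n).normed (volume : Measure ℂ)) := hne
            rw [(bp n).support_normed_eq, mem_ball_zero_iff] at h1
            rw [mem_ball_zero_iff] at htb
            have h2 : ‖p‖ ≤ ‖p - t‖ + ‖t‖ := by
              have := norm_add_le (p - t) t
              rwa [sub_add_cancel] at this
            linarith
          rw [h0, zero_mul]
          exact mul_nonneg hC0.le (ind_nonneg _ _)
        · change (bp n).normed volume (p - t) * E.indicator (fun _ => (1 : ℝ)) t ≤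
            C * (E \ Metric.ball (0 : ℂ) k).indicator (fun _ => (1 : ℝ)) t
          rw [Set.indicator_of_mem ht,
            Set.indicator_of_mem (show t ∈ E \ Metric.ball (0 : ℂ) k from ⟨ht, htb⟩)]
          exact mul_le_mul_of_nonneg_right (hC _) zero_le_one
      · rw [Set.indicator_of_notMem ht, mul_zero]
        exact mul_nonneg hC0.le (ind_nonneg _ _)
  refine hle.trans ?_
  rw [integral_const_mul, integral_indicator hS, setIntegral_const, smul_eq_mul, mul_one]
  have h3 : (volume : Measure ℂ).real (E \ Metric.ball (0 : ℂ) k) ≤ κ / C :=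
    ENNReal.toReal_le_of_le_ofReal (by positivity) hk
  calc C * (volume : Measure ℂ).real (E \ Metric.ball (0 : ℂ) k) ≤ C * (κ / C) :=
        mul_le_mul_of_nonneg_left h3 hC0.le
    _ = κ := by field_simp

theorem ml_ae {E : Set ℂ} (hE : MeasurableSet E) :
    ∀ᵐ p, Tendsto (fun n => ml n E p) atTop (𝓝 (E.indicator (fun _ => (1 : ℝ)) p)) := by
  refine ContDiffBump.ae_convolution_tendsto_right_of_locallyIntegrable (φ := bp) (K := 2) ?_
    (Eventually.of_forall fun n => ?_) (ind_locInt hE)
  · have h := (tendsto_one_div_add_atTop_nhds_zero_nat (𝕜 := ℝ)).const_mul 2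
    rw [mul_zero] at h
    refine h.congr fun n => ?_
    change 2 * (1 / ((n : ℝ) + 1)) = 2 / ((n : ℝ) + 1)
    ring
  · change 2 / ((n : ℝ) + 1) ≤ 2 * (1 / ((n : ℝ) + 1))
    rw [mul_one_div]

end Pool.Agent.Helper38.LCA
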