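import Pool.Agent.Helper38.LCA.GradInt
import Pool.Agent.Helper38.LCA.Mol

/-!
# LCA-15: lower bound for weighted total variations, and the limit

* `lower`: `H t = ∫ s in 0..t, w s`, `H' = w` continuous, so `H ∘ u` is `C¹` and `gr (H ∘ u) p = w (u p) • gr u p` (chain rule).  By `parts`:
  `∫ H (u p) dvg φ p = - ∫ w (u p) ((gr u p).re (φ p).re + (gr u p).im (φ p).im) ≤ ∫ w (u p) ‖gr u p‖ ‖φ p‖ ≤ ∫ χ p * (w (u p) ‖gr u p‖)` (`‖φ p‖ ≤ 1 = χ p` on the support of `φ`,
  `φ p = 0` and `χ ≥ 0` elsewhere; `w (u p) ≥ 0` since `0 ≤ u p ≤ 1`).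
* `lim_int`: dominated convergence (`ml_ae`, `H` is continuous, `|H| ≤ C` on `[0, 1]`, `dvg φ` is continuous with compact support): the limit is `∫ H (1_E p) dvg φ p = H 1 * ∫ p in E, dvg φ p` since `H 0 = 0`.
-/

namespace Pool.Agent.Helper38.LCA

open Finset Real Pool.Agent.Helper98.LC MeasureTheory Pool.Agent.Helper79.HC Filter Topology

private theorem prim {w : ℝ → ℝ} (hw : Continuous w) :
    ContDiff ℝ 1 (fun t => ∫ s in (0 : ℝ)..t, w s) ∧
      ∀ t, HasDerivAt (fun t => ∫ s in (0 : ℝ)..t, w s) (w t) t := by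
  have h : ∀ t, HasDerivAt (fun t => ∫ s in (0 : ℝ)..t, w s) (w t) t := fun t =>
    intervalIntegral.integral_hasDerivAt_right (hw.intervalIntegrable _ _)
      (hw.stronglyMeasurableAtFilter _ _) hw.continuousAt
  refine ⟨?_, h⟩
  rw [contDiff_one_iff_deriv]
  refine ⟨fun t => (h t).differentiableAt, ?_⟩
  have e : deriv (fun t => ∫ s in (0 : ℝ)..t, w s) = w := funext fun t => (h t).deriv
  rw [e]
  exact hw

private theorem dvg_cont {φ : ℂ → ℂ} (hφ : ContDiff ℝ 1 φ) : Continuous (dvg φ) := by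
  have h1 : ∀ v : ℂ, Continuous (fun p => fderiv ℝ φ p v) := fun v =>
    (hφ.continuous_fderiv one_ne_zero).clm_apply continuous_const
  exact (Complex.continuous_re.comp (h1 1)).add (Complex.continuous_im.comp (h1 Complex.I))

private theorem dvg_supp {φ : ℂ → ℂ} (hs : HasCompactSupport φ) : HasCompactSupport (dvg φ) := by
  have h1 : ∀ v : ℂ, HasCompactSupport (fun p => fderiv ℝ φ p v) := fun v =>
    hs.fderiv_apply (𝕜 := ℝ) v
  have a1 := (h1 1).comp_left (g := Complex.re) Complex.zero_re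
  have a2 := (h1 Complex.I).comp_left (g := Complex.im) Complex.zero_im
  exact a1.add a2

private theorem gr_comp {H : ℝ → ℝ} {u : ℂ → ℝ} {p : ℂ} {a : ℝ} (hH : HasDerivAt H a (u p))
    (hu : DifferentiableAt ℝ u p) : gr (fun q => H (u q)) p = (a : ℂ) * gr u p := by
  have h : fderiv ℝ (fun q => H (u q)) p = a • fderiv ℝ u p :=
    (hH.comp_hasFDerivAt p hu.hasFDerivAt).fderiv
  unfold gr
  rw [h]
  apply Complex.ext <;> simp

theorem lower {u : ℂ → ℝ} (hu : ContDiff ℝ 2 u) (h01 : ∀ p, 0 ≤ u p ∧ u p ≤ 1) {w : ℝ → ℝ}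
    (hw : Continuous w) (hw0 : ∀ s, 0 ≤ s → s ≤ 1 → 0 ≤ w s) {χ : ℂ → ℝ} (hχ : Continuous χ)
    (hs : HasCompactSupport χ) (hχ0 : ∀ p, 0 ≤ χ p) {φ : ℂ → ℂ} (hφ : IsTest φ)
    (hχ1 : ∀ p ∈ tsupport φ, χ p = 1) :
    ∫ p, (∫ s in (0 : ℝ)..(u p), w s) * dvg φ p ≤ ∫ p, χ p * (w (u p) * ‖gr u p‖) := by
  obtain ⟨hH, hH'⟩ := prim hw
  have hu1 : ContDiff ℝ 1 u := hu.of_le (by norm_num)
  have hHu : ContDiff ℝ 1 (fun p => ∫ s in (0 : ℝ)..(u p), w s) := hH.comp hu1
  have hg : ∀ p, gr (fun p => ∫ s in (0 : ℝ)..(u p), w s) p = (w (u p) : ℂ) * gr u p := fun p =>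
    gr_comp (H := fun t => ∫ s in (0 : ℝ)..t, w s) (hH' (u p))
      (hu1.differentiable one_ne_zero p)
  rw [parts hHu hφ.smooth hφ.supp, ← integral_neg]
  have hgc : Continuous (gr u) := (gr_cont hu).continuous
  have hgHc : Continuous (gr (fun p => ∫ s in (0 : ℝ)..(u p), w s)) := by
    have e : gr (fun p => ∫ s in (0 : ℝ)..(u p), w s) = fun p => (w (u p) : ℂ) * gr u p :=
      funext hg
    rw [e]
    exact (Complex.continuous_ofReal.comp (hw.comp hu.continuous)).mul hgc
  have hφc : Continuous φ := hφ.smooth.continuous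
  have hφre : HasCompactSupport (fun p => (φ p).re) :=
    hφ.supp.comp_left (g := Complex.re) Complex.zero_re
  have hφim : HasCompactSupport (fun p => (φ p).im) :=
    hφ.supp.comp_left (g := Complex.im) Complex.zero_im
  have i1 : Integrable (fun p => -((gr (fun p => ∫ s in (0 : ℝ)..(u p), w s) p).re * (φ p).re +
      (gr (fun p => ∫ s in (0 : ℝ)..(u p), w s) p).im * (φ p).im)) := by
    refine Integrable.neg (Integrable.add ?_ ?_)
    · exact ((Complex.continuous_re.comp hgHc).mul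
        (Complex.continuous_re.comp hφc)).integrable_of_hasCompactSupport hφre.mul_left
    · exact ((Complex.continuous_im.comp hgHc).mul
        (Complex.continuous_im.comp hφc)).integrable_of_hasCompactSupport hφim.mul_left
  have i2 : Integrable (fun p => χ p * (w (u p) * ‖gr u p‖)) :=
    (hχ.mul ((hw.comp hu.continuous).mul hgc.norm)).integrable_of_hasCompactSupport hs.mul_right
  refine integral_mono i1 i2 fun p => ?_
  change -((gr (fun p => ∫ s in (0 : ℝ)..(u p), w s) p).re * (φ p).re +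
      (gr (fun p => ∫ s in (0 : ℝ)..(u p), w s) p).im * (φ p).im) ≤ χ p * (w (u p) * ‖gr u p‖)
  have hwp : 0 ≤ w (u p) := hw0 _ (h01 p).1 (h01 p).2
  have hR : 0 ≤ χ p * (w (u p) * ‖gr u p‖) :=
    mul_nonneg (hχ0 p) (mul_nonneg hwp (norm_nonneg _))
  by_cases hp : φ p = 0
  · rw [hp]
    simpa using hR
  · have hp' : p ∈ tsupport φ := subset_tsupport φ hp
    rw [hχ1 p hp', one_mul, hg]
    have e : -(((w (u p) : ℂ) * gr u p).re * (φ p).re + ((w (u p) : ℂ) * gr u p).im * (φ p).im) =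
        w (u p) * (-((starRingEnd ℂ (gr u p)) * φ p).re) := by
      simp only [Complex.mul_re, Complex.mul_im, Complex.ofReal_re, Complex.ofReal_im,
        Complex.conj_re, Complex.conj_im]
      ring
    rw [e]
    refine mul_le_mul_of_nonneg_left ?_ hwp
    have h1 : -((starRingEnd ℂ (gr u p)) * φ p).re ≤ ‖(starRingEnd ℂ (gr u p)) * φ p‖ :=
      (neg_le_abs _).trans (Complex.abs_re_le_norm _)
    refine h1.trans ?_
    rw [norm_mul, Complex.norm_conj]
    exact mul_le_of_le_one_right (norm_nonneg _) (hφ.bound p)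

theorem lim_int {E : Set ℂ} (hE : MeasurableSet E) {H : ℝ → ℝ} (hH : Continuous H) (h0 : H 0 = 0)
    {φ : ℂ → ℂ} (hφ : IsTest φ) :
    Tendsto (fun n => ∫ p, H (ml n E p) * dvg φ p) atTop (𝓝 (H 1 * ∫ p in E, dvg φ p)) := by
  have hdc : Continuous (dvg φ) := dvg_cont hφ.smooth
  have hds : HasCompactSupport (dvg φ) := dvg_supp hφ.supp
  obtain ⟨C, hC⟩ := (isCompact_Icc (a := (0 : ℝ)) (b := 1)).exists_bound_of_continuousOn
    hH.continuousOn
  have e : H 1 * ∫ p in E, dvg φ p =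
      ∫ p, H (E.indicator (fun _ => (1 : ℝ)) p) * dvg φ p := by
    rw [← integral_indicator hE, ← integral_const_mul]
    refine integral_congr_ae (Eventually.of_forall fun p => ?_)
    by_cases hp : p ∈ E
    · simp [hp]
    · simp [hp, h0]
  rw [e]
  refine tendsto_integral_of_dominated_convergence (fun p => C * ‖dvg φ p‖) ?_ ?_ ?_ ?_
  · intro n
    exact ((hH.comp (ml_smooth n hE).continuous).mul hdc).aestronglyMeasurable
  · exact ((hdc.integrable_of_hasCompactSupport hds).norm).const_mul C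
  · intro n
    refine Eventually.of_forall fun p => ?_
    rw [norm_mul]
    exact mul_le_mul_of_nonneg_right (hC _ ⟨ml_nonneg n E p, ml_le_one n hE p⟩) (norm_nonneg _)
  · filter_upwards [ml_ae hE] with p hp
    exact ((hH.tendsto _).comp hp).mul_const _

end Pool.Agent.Helper38.LCA
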