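import Pool.Agent.Helper38.LCA.Defs

/-!
# LCA-04: the net of a random labelling

`lab_max`: the choice property.  `qpt_symm`: `dd` changes its sign if the labels are interchanged: numerator and denominator of `qpt` change to the same expression.
`zpt_rot`: the three vertices are permuted cyclically, the sums are equal.
With `dir k + dir (k + 2) = dir (k + 1)`, `dir k + dir (k + 3) = 0` (`decide` on `Fin 6`) this gives `mk_q_rev`, `mk_z_rot`.
`mk_area`: put `p = pos h x`, `e k = pos h (x + dir k) - p = h * dir k` (as a complex number), `cr (e k) (e (k+1)) = h²` for all `k` (`fin_cases k`).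
By `Gen` and `lab_max`: if `lab x ≠ lab y`, then `dd x (lab x) (lab y) > 0 > dd y (lab x) (lab y)`, so `qpt x y = pos x + t (pos y - pos x)`, `0 < t < 1`; in the other case `t = 1/2`.
So `q k - p = t k * e k` with `t k ≥ 0`, and `z k - p = α e k + β e (k + 1)` with `α, β ≥ 0` (all three crossing points of the triangle have this form: the one of the
edge `(x + dir k, x + dir (k+1))` is `(1 - t) e k + t e (k+1)`; `zpt` is a mean of some of them, at least two of the numbers `chg` are `1` if not all labels are equal, or the centroid).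
`∑ k (cr q_k z_k + cr z_k q_{k+1}) = ∑ k (cr (q_k - p) (z_k - p) + cr (z_k - p) (q_{k+1} - p))`, since the additional terms `cr p (q_k - z_k + z_k - q_{k+1})` cancel
(`∑ k q_{k+1} = ∑ k q_k`), and each term is `≥ 0`: `cr (t e_k) (α e_k + β e_{k+1}) = t β h²`, `cr (α e_k + β e_{k+1}) (t' e_{k+1}) = α t' h²`.
`mk_al_std`: all labels around `x` are equal: `t = 1/2`, `α = β = 1/3`, the sum is `6 * (1/6 + 1/6) h² / 2 = h²`.
`lab_eq`: if `v x i > 5/8` (`v ≥ 0`, sum `1`, `c ∈ [0, 1/4]`) then `v x i - c i > 3/8 > v x j ≥ v x j - c j` for `j ≠ i`.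
-/

namespace Pool.Agent.Helper38.LCA

open Finset Real Pool.Agent.Helper98.LC

variable {N : ℕ}

theorem lab_max (v : V → Fin (N + 1) → ℝ) (c : Fin (N + 1) → ℝ) (x : V) (j : Fin (N + 1)) :
    v x j - c j ≤ v x (lab v c x) - c (lab v c x) := by
  exact (Finite.exists_max fun i => v x i - c i).choose_spec j

theorem lab_eq {v : V → Fin (N + 1) → ℝ} {c : Fin (N + 1) → ℝ} (hc : ∀ i, 0 ≤ c i ∧ c i ≤ 1 / 4)
    {x : V} (hv : ∀ i, 0 ≤ v x i) (hs : ∑ i, v x i = 1) {i : Fin (N + 1)} (hi : 5 / 8 < v x i) :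
    lab v c x = i := by
  by_contra hne
  have h1 := lab_max v c x i
  have h2 : v x i + v x (lab v c x) ≤ 1 := by
    have h3 : ∑ j ∈ ({i, lab v c x} : Finset (Fin (N + 1))), v x j ≤ ∑ j, v x j :=
      sum_le_sum_of_subset_of_nonneg (subset_univ _) fun j _ _ => hv j
    rw [sum_pair (fun hh => hne hh.symm), hs] at h3
    exact h3
  have h4 := hc i
  have h5 := hc (lab v c x)
  linarith [h4.1, h4.2, h5.1, h5.2]

theorem qpt_symm (h : ℝ) (v : V → Fin (N + 1) → ℝ) (c : Fin (N + 1) → ℝ) (x y : V) :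
    qpt h v c y x = qpt h v c x y := by
  unfold qpt
  by_cases hl : lab v c x = lab v c y
  · rw [if_pos hl, if_pos hl.symm]
    ring
  · rw [if_neg hl, if_neg (fun hh => hl hh.symm)]
    have e : ∀ (w : V) (i j : Fin (N + 1)), dd v c w j i = - dd v c w i j := by
      intro w i j
      unfold dd
      ring
    rw [e y (lab v c x) (lab v c y), e x (lab v c x) (lab v c y)]
    push_cast
    congr 1 <;> ring

theorem zpt_rot (h : ℝ) (v : V → Fin (N + 1) → ℝ) (c : Fin (N + 1) → ℝ) (x y w : V) :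
    zpt h v c y w x = zpt h v c x y w := by
  unfold zpt
  by_cases hl : lab v c x = lab v c y ∧ lab v c y = lab v c w
  · rw [if_pos hl, if_pos ⟨hl.2, (hl.1.trans hl.2).symm⟩]
    ring
  · rw [if_neg hl, if_neg (fun hh => hl ⟨(hh.1.trans hh.2).symm, hh.1⟩)]
    push_cast
    congr 1 <;> ring

theorem mk_q_rev (h : ℝ) (v : V → Fin (N + 1) → ℝ) (c : Fin (N + 1) → ℝ) (x : V) (k : Fin 6) :
    qpt h v c (x + dir k) (x + dir k + dir (k + 3)) = qpt h v c x (x + dir k) := by
  have h1 : dir k + dir (k + 3) = 0 := by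
    revert k; decide
  rw [add_assoc, h1, add_zero, qpt_symm]

theorem mk_z_rot (h : ℝ) (v : V → Fin (N + 1) → ℝ) (c : Fin (N + 1) → ℝ) (x : V) (k : Fin 6) :
    zpt h v c (x + dir k) (x + dir k + dir (k + 2)) (x + dir k + dir (k + 2 + 1)) =
      zpt h v c x (x + dir k) (x + dir (k + 1)) := by
  have h1 : dir k + dir (k + 2) = dir (k + 1) := by
    revert k; decide
  have h2 : dir k + dir (k + 2 + 1) = 0 := by
    revert k; decide
  rw [add_assoc, add_assoc, h1, h2, add_zero, zpt_rot]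

private theorem mn_dir (k : Fin 6) : (((dir k).1 : ℤ) : ℝ) * (((dir (k + 1)).2 : ℤ) : ℝ) -
    (((dir k).2 : ℤ) : ℝ) * (((dir (k + 1)).1 : ℤ) : ℝ) = 1 := by
  have h : ∀ k : Fin 6, (dir k).1 * (dir (k + 1)).2 - (dir k).2 * (dir (k + 1)).1 = 1 := by
    decide
  exact_mod_cast h k

private theorem mn_pos_re (h : ℝ) (x : V) (k : Fin 6) :
    (pos h (x + dir k) - pos h x).re = h * (((dir k).1 : ℤ) : ℝ) := by
  unfold pos
  rw [Complex.sub_re, Prod.fst_add]
  push_cast
  ring

private theorem mn_pos_im (h : ℝ) (x : V) (k : Fin 6) :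
    (pos h (x + dir k) - pos h x).im = h * (((dir k).2 : ℤ) : ℝ) := by
  unfold pos
  rw [Complex.sub_im, Prod.snd_add]
  push_cast
  ring

private theorem mn_term (h : ℝ) (x : V) (t t' α β : ℝ) (k : Fin 6) {q q' z : ℂ}
    (hq : q = pos h x + (t : ℂ) * (pos h (x + dir k) - pos h x))
    (hq' : q' = pos h x + (t' : ℂ) * (pos h (x + dir (k + 1)) - pos h x))
    (hz : z = pos h x + (α : ℂ) * (pos h (x + dir k) - pos h x) +
      (β : ℂ) * (pos h (x + dir (k + 1)) - pos h x)) :
    (cr q z + cr z q') / 2 = (t * β + α * t') * h ^ 2 / 2 +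
      (cr (pos h x) (q' - pos h x) / 2 - cr (pos h x) (q - pos h x) / 2) := by
  have hc := mn_dir k
  have r1 : q.re = (pos h x).re + t * (h * (((dir k).1 : ℤ) : ℝ)) := by
    rw [hq, Complex.add_re, Complex.re_ofReal_mul, mn_pos_re]
  have r2 : q.im = (pos h x).im + t * (h * (((dir k).2 : ℤ) : ℝ)) := by
    rw [hq, Complex.add_im, Complex.im_ofReal_mul, mn_pos_im]
  have r3 : q'.re = (pos h x).re + t' * (h * (((dir (k + 1)).1 : ℤ) : ℝ)) := by
    rw [hq', Complex.add_re, Complex.re_ofReal_mul, mn_pos_re]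
  have r4 : q'.im = (pos h x).im + t' * (h * (((dir (k + 1)).2 : ℤ) : ℝ)) := by
    rw [hq', Complex.add_im, Complex.im_ofReal_mul, mn_pos_im]
  have r5 : z.re = (pos h x).re + α * (h * (((dir k).1 : ℤ) : ℝ)) +
      β * (h * (((dir (k + 1)).1 : ℤ) : ℝ)) := by
    rw [hz, Complex.add_re, Complex.add_re, Complex.re_ofReal_mul, Complex.re_ofReal_mul,
      mn_pos_re, mn_pos_re]
  have r6 : z.im = (pos h x).im + α * (h * (((dir k).2 : ℤ) : ℝ)) +
      β * (h * (((dir (k + 1)).2 : ℤ) : ℝ)) := by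
    rw [hz, Complex.add_im, Complex.add_im, Complex.im_ofReal_mul, Complex.im_ofReal_mul,
      mn_pos_im, mn_pos_im]
  unfold cr
  rw [Complex.sub_re, Complex.sub_im, Complex.sub_re, Complex.sub_im, r1, r2, r3, r4, r5, r6]
  linear_combination ((t * β + α * t') * h ^ 2 / 2) * hc

private theorem mn_area (h : ℝ) (x : V) (t α β : Fin 6 → ℝ) (q z : Fin 6 → ℂ)
    (hq : ∀ k, q k = pos h x + (t k : ℂ) * (pos h (x + dir k) - pos h x))
    (hz : ∀ k, z k = pos h x + (α k : ℂ) * (pos h (x + dir k) - pos h x) +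
      (β k : ℂ) * (pos h (x + dir (k + 1)) - pos h x)) :
    ∑ k, (cr (q k) (z k) + cr (z k) (q (k + 1))) / 2 =
      ∑ k, (t k * β k + α k * t (k + 1)) * h ^ 2 / 2 := by
  have h1 : ∀ k, (cr (q k) (z k) + cr (z k) (q (k + 1))) / 2 =
      (t k * β k + α k * t (k + 1)) * h ^ 2 / 2 +
      (cr (pos h x) (q (k + 1) - pos h x) / 2 - cr (pos h x) (q k - pos h x) / 2) :=
    fun k => mn_term h x _ _ _ _ k (hq k) (hq (k + 1)) (hz k)
  rw [sum_congr rfl fun k _ => h1 k, sum_add_distrib, sum_sub_distrib]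
  have h2 : ∑ k : Fin 6, cr (pos h x) (q (k + 1) - pos h x) / 2 =
      ∑ k : Fin 6, cr (pos h x) (q k - pos h x) / 2 :=
    Equiv.sum_comp (Equiv.addRight (1 : Fin 6)) (fun k => cr (pos h x) (q k - pos h x) / 2)
  rw [h2, sub_self, add_zero]

private theorem mn_qform (h : ℝ) {v : V → Fin (N + 1) → ℝ} {c : Fin (N + 1) → ℝ}
    (hg : Gen v c) (x y : V) :
    ∃ t : ℝ, 0 ≤ t ∧ t ≤ 1 ∧ qpt h v c x y = pos h x + (t : ℂ) * (pos h y - pos h x) := by
  unfold qpt
  split_ifs with hl
  · refine ⟨1 / 2, by norm_num, by norm_num, ?_⟩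
    push_cast
    ring
  · set a := dd v c x (lab v c x) (lab v c y) with ha
    set b := dd v c y (lab v c x) (lab v c y) with hb
    have ha0 : 0 ≤ a := by
      have := lab_max v c x (lab v c y)
      rw [ha]
      unfold dd
      linarith
    have hb0 : b ≤ 0 := by
      have := lab_max v c y (lab v c x)
      rw [hb]
      unfold dd
      linarith
    have ha1 : a ≠ 0 := by
      intro h0
      apply hg x (lab v c x) (lab v c y) hl
      rw [ha] at h0
      unfold dd at h0
      linarith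
    have hab : 0 < a - b := by
      have := lt_of_le_of_ne ha0 ha1.symm
      linarith
    have habc : ((a : ℂ) - (b : ℂ)) ≠ 0 := by
      have : (((a - b : ℝ)) : ℂ) ≠ 0 := by exact_mod_cast hab.ne'
      push_cast at this
      exact this
    refine ⟨a / (a - b), div_nonneg ha0 hab.le, ?_, ?_⟩
    · rw [div_le_one hab]
      linarith
    · push_cast
      field_simp
      ring

private theorem mn_chg (v : V → Fin (N + 1) → ℝ) (c : Fin (N + 1) → ℝ) (x y : V) :
    0 ≤ chg v c x y := by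
  unfold chg
  split_ifs
  · exact le_refl _
  · exact zero_le_one

private theorem mn_zform (h : ℝ) {v : V → Fin (N + 1) → ℝ} {c : Fin (N + 1) → ℝ}
    (hg : Gen v c) (x y w : V) :
    ∃ α β : ℝ, 0 ≤ α ∧ 0 ≤ β ∧ zpt h v c x y w = pos h x + (α : ℂ) * (pos h y - pos h x) +
      (β : ℂ) * (pos h w - pos h x) := by
  unfold zpt
  split_ifs with hl
  · refine ⟨1 / 3, 1 / 3, by norm_num, by norm_num, ?_⟩
    push_cast
    ring
  · obtain ⟨t1, a1, b1, e1⟩ := mn_qform h hg x y
    obtain ⟨t2, a2, b2, e2⟩ := mn_qform h hg y w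
    obtain ⟨t3, a3, b3, e3⟩ := mn_qform h hg w x
    have c1 := mn_chg v c x y
    have c2 := mn_chg v c y w
    have c3 := mn_chg v c w x
    have hS : 0 < chg v c x y + chg v c y w + chg v c w x := by
      by_cases hxy : lab v c x = lab v c y
      · have hyw : lab v c y ≠ lab v c w := fun hh => hl ⟨hxy, hh⟩
        have : chg v c y w = 1 := if_neg hyw
        linarith
      · have : chg v c x y = 1 := if_neg hxy
        linarith
    have hSc : ((chg v c x y : ℂ) + (chg v c y w : ℂ) + (chg v c w x : ℂ)) ≠ 0 := by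
      have : ((chg v c x y + chg v c y w + chg v c w x : ℝ) : ℂ) ≠ 0 := by
        exact_mod_cast hS.ne'
      push_cast at this
      exact this
    refine ⟨(chg v c x y * t1 + chg v c y w * (1 - t2)) /
        (chg v c x y + chg v c y w + chg v c w x),
      (chg v c y w * t2 + chg v c w x * (1 - t3)) /
        (chg v c x y + chg v c y w + chg v c w x), ?_, ?_, ?_⟩
    · exact div_nonneg (add_nonneg (mul_nonneg c1 a1) (mul_nonneg c2 (by linarith))) hS.le
    · exact div_nonneg (add_nonneg (mul_nonneg c2 a2) (mul_nonneg c3 (by linarith))) hS.le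
    · rw [e1, e2, e3]
      push_cast
      field_simp
      ring

theorem mk_area {h : ℝ} (hh : 0 ≤ h) {v : V → Fin (N + 1) → ℝ} {c : Fin (N + 1) → ℝ}
    (hg : Gen v c) (x : V) :
    0 ≤ ∑ k : Fin 6, (cr (qpt h v c x (x + dir k)) (zpt h v c x (x + dir k) (x + dir (k + 1))) +
      cr (zpt h v c x (x + dir k) (x + dir (k + 1))) (qpt h v c x (x + dir (k + 1)))) / 2 := by
  choose t ht0 ht1 ht using fun k : Fin 6 => mn_qform h hg x (x + dir k)
  choose α β hα hβ hz using fun k : Fin 6 => mn_zform h hg x (x + dir k) (x + dir (k + 1))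
  have h1 := mn_area h x t α β (fun k => qpt h v c x (x + dir k))
    (fun k => zpt h v c x (x + dir k) (x + dir (k + 1))) ht hz
  refine le_of_le_of_eq (sum_nonneg fun k _ => ?_) h1.symm
  have a1 := mul_nonneg (ht0 k) (hβ k)
  have a2 := mul_nonneg (hα k) (ht0 (k + 1))
  positivity

/-- the net -/
noncomputable def mkNet (h : ℝ) (hh : 0 ≤ h) (v : V → Fin (N + 1) → ℝ) (c : Fin (N + 1) → ℝ)
    (hg : Gen v c) : Net where
  q x k := qpt h v c x (x + dir k)
  z x k := zpt h v c x (x + dir k) (x + dir (k + 1))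
  q_rev := mk_q_rev h v c
  z_rot := mk_z_rot h v c
  area_nonneg := mk_area hh hg

theorem mk_al_std {h : ℝ} (hh : 0 ≤ h) {v : V → Fin (N + 1) → ℝ} {c : Fin (N + 1) → ℝ}
    (hg : Gen v c) {x : V} (hx : ∀ k, lab v c (x + dir k) = lab v c x) :
    (mkNet h hh v c hg).al x = h ^ 2 := by
  have h0 : ∀ k, qpt h v c x (x + dir k) =
      pos h x + (((1 / 2 : ℝ)) : ℂ) * (pos h (x + dir k) - pos h x) := by
    intro k
    unfold qpt
    rw [if_pos (hx k).symm]
    push_cast
    ring
  have h1 : ∀ k, zpt h v c x (x + dir k) (x + dir (k + 1)) =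
      pos h x + (((1 / 3 : ℝ)) : ℂ) * (pos h (x + dir k) - pos h x) +
        (((1 / 3 : ℝ)) : ℂ) * (pos h (x + dir (k + 1)) - pos h x) := by
    intro k
    unfold zpt
    rw [if_pos ⟨(hx k).symm, (hx k).trans (hx (k + 1)).symm⟩]
    push_cast
    ring
  have h2 := mn_area h x (fun _ => 1 / 2) (fun _ => 1 / 3) (fun _ => 1 / 3)
    (fun k => qpt h v c x (x + dir k))
    (fun k => zpt h v c x (x + dir k) (x + dir (k + 1))) h0 h1
  refine Eq.trans h2 ?_
  rw [sum_const, card_univ, Fintype.card_fin]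
  simp only [nsmul_eq_mul]
  push_cast
  ring

end Pool.Agent.Helper38.LCA
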