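import Pool.Agent.Helper38.LCA.Smooth

/-!
# LCA-10: Riemann sums and counting

For `x ∈ V` let `Q x = {p | h x.1 ≤ p.re < h (x.1 + 1), h x.2 ≤ p.im < h (x.2 + 1)}` (half open square with the corner `pos h x`, area `h²`; the squares are pairwise disjoint and
cover the plane: `x = (⌊p.re / h⌋, ⌊p.im / h⌋)`).
* `riemann`: `F` is uniformly continuous on `Sq r`: `|F p - F q| ≤ κ' = κ / (4 r² + 1)` for `‖p - q‖ ≤ η`; let `h₀ = η / 2`.  For `x ∈ box n`: `Q x ⊆ Sq (h (n + 1)) ⊆ Sq r` and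
  `F (pos h x) ≤ F p + κ'` for `p ∈ Q x`.  So `h² F (pos h x) ≤ ∫_{Q x} (F + κ')`; the sum over `x` is `≤ ∫_{Sq r} (F + κ')` (disjoint subsets, `F ≥ 0`), `|Sq r| = 4 r²` (`r ≥ 0`;
  if `r < 0` then no `n` satisfies the hypothesis).
* `count`: if `3/4 < u p` then `p ∈ Sq r` and `p ∈ Q x`, `x = (⌊p.re/h⌋, ⌊p.im/h⌋)`; `|x.1|, |x.2| ≤ r/h + 1 ≤ n`, so `x ∈ box n`, and all the points `pos h x`, `pos h (x + dir k)` are in `Sq (r + 2h) ⊆ Sq R` with distance `≤ 3h`
  from `p`, so `u > 3/4 - 3 L h ≥ 5/8` there.  So `{3/4 < u} ⊆ ⋃ x ∈ good, Q x`.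
-/

namespace Pool.Agent.Helper38.LCA

open Finset Real Pool.Agent.Helper98.LC MeasureTheory

/-- the half open square with the corner `pos h x` -/
private def Qs (h : ℝ) (x : V) : Set ℂ :=
  {p | h * (x.1 : ℝ) ≤ p.re ∧ p.re < h * ((x.1 : ℝ) + 1) ∧
    h * (x.2 : ℝ) ≤ p.im ∧ p.im < h * ((x.2 : ℝ) + 1)}

private theorem Qs_eq (h : ℝ) (x : V) :
    Qs h x = Complex.measurableEquivRealProd ⁻¹'
      (Set.Ico (h * (x.1 : ℝ)) (h * ((x.1 : ℝ) + 1)) ×ˢ
        Set.Ico (h * (x.2 : ℝ)) (h * ((x.2 : ℝ) + 1))) := by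
  ext p
  simp only [Qs, Set.mem_ofPred_eq, Set.mem_preimage, Set.mem_prod, Set.mem_Ico,
    Complex.measurableEquivRealProd_apply]
  tauto

private theorem Qs_meas (h : ℝ) (x : V) : MeasurableSet (Qs h x) := by
  rw [Qs_eq]
  exact Complex.measurableEquivRealProd.measurable (measurableSet_Ico.prod measurableSet_Ico)

private theorem Qs_vol {h : ℝ} (hh : 0 < h) (x : V) :
    volume (Qs h x) = ENNReal.ofReal (h ^ 2) := by
  rw [Qs_eq, Complex.volume_preserving_equiv_real_prod.measure_preimage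
    (measurableSet_Ico.prod measurableSet_Ico).nullMeasurableSet, Measure.volume_eq_prod,
    Measure.prod_prod, Real.volume_Ico, Real.volume_Ico, ← ENNReal.ofReal_mul (by nlinarith)]
  congr 1
  ring

private theorem Sq_vol {r : ℝ} (hr : 0 ≤ r) :
    volume (Sq r) = ENNReal.ofReal (4 * r ^ 2) := by
  have e : Sq r = Complex.measurableEquivRealProd ⁻¹' (Set.Icc (-r) r ×ˢ Set.Icc (-r) r) := by
    ext p
    simp only [Sq, Set.mem_ofPred_eq, Set.mem_preimage, Set.mem_prod, Set.mem_Icc,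
      Complex.measurableEquivRealProd_apply, abs_le]
  rw [e, Complex.volume_preserving_equiv_real_prod.measure_preimage
    (measurableSet_Icc.prod measurableSet_Icc).nullMeasurableSet, Measure.volume_eq_prod,
    Measure.prod_prod, Real.volume_Icc, ← ENNReal.ofReal_mul (by linarith)]
  congr 1
  ring

private theorem Qs_disj {h : ℝ} (hh : 0 < h) {x y : V} (hxy : x ≠ y) :
    Disjoint (Qs h x) (Qs h y) := by
  rw [Set.disjoint_left]
  rintro p ⟨h1, h2, h3, h4⟩ ⟨h5, h6, h7, h8⟩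
  apply hxy
  have key : ∀ a b : ℤ, h * (a : ℝ) < h * ((b : ℝ) + 1) → a ≤ b := by
    intro a b hab
    have := lt_of_mul_lt_mul_left hab hh.le
    have h' : a < b + 1 := by exact_mod_cast this
    omega
  have a1 := key x.1 y.1 (by linarith)
  have a2 := key y.1 x.1 (by linarith)
  have a3 := key x.2 y.2 (by linarith)
  have a4 := key y.2 x.2 (by linarith)
  exact Prod.ext (le_antisymm a1 a2) (le_antisymm a3 a4)

/-- the square of a point -/
private theorem mem_Qs {h : ℝ} (hh : 0 < h) (p : ℂ) :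
    p ∈ Qs h ((⌊p.re / h⌋, ⌊p.im / h⌋) : V) := by
  have key : ∀ t : ℝ, h * ((⌊t / h⌋ : ℤ) : ℝ) ≤ t ∧ t < h * (((⌊t / h⌋ : ℤ) : ℝ) + 1) := by
    intro t
    have a1 := Int.floor_le (t / h)
    have a2 := Int.lt_floor_add_one (t / h)
    have e : h * (t / h) = t := by field_simp
    constructor
    · calc h * ((⌊t / h⌋ : ℤ) : ℝ) ≤ h * (t / h) := mul_le_mul_of_nonneg_left a1 hh.le
        _ = t := e
    · calc t = h * (t / h) := e.symm
        _ < h * (((⌊t / h⌋ : ℤ) : ℝ) + 1) := mul_lt_mul_of_pos_left a2 hh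
  exact ⟨(key p.re).1, (key p.re).2, (key p.im).1, (key p.im).2⟩

/-- Riemann sums are at most the integral plus `κ` (the constant is outside the integral). -/
theorem riemann' {F : ℂ → ℝ} (hF : Continuous F) (h0 : ∀ p, 0 ≤ F p) (r : ℝ) {κ : ℝ}
    (hκ : 0 < κ) :
    ∃ h₀, 0 < h₀ ∧ ∀ h, 0 < h → h ≤ h₀ → ∀ n : ℕ, h * (n + 1) ≤ r →
      ∑ x ∈ box n, h ^ 2 * F (pos h x) ≤ (∫ p in Sq r, F p) + κ := by
  have hκ' : 0 < κ / (4 * r ^ 2 + 1) := by positivity
  have huc : UniformContinuousOn F (Sq r) :=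
    (Sq_compact r).uniformContinuousOn_of_continuous hF.continuousOn
  rw [Metric.uniformContinuousOn_iff] at huc
  obtain ⟨η, hη, H⟩ := huc _ hκ'
  refine ⟨η / 4, by positivity, ?_⟩
  intro h hh hh0 n hn
  have hn0 : (0 : ℝ) ≤ (n : ℝ) := Nat.cast_nonneg n
  have hr : 0 ≤ r := by
    have : 0 ≤ h * ((n : ℝ) + 1) := by positivity
    linarith
  have hint : IntegrableOn (fun p => F p + κ / (4 * r ^ 2 + 1)) (Sq r) :=
    (hF.add continuous_const).continuousOn.integrableOn_compact (Sq_compact r)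
  have hintF : IntegrableOn (fun p => F p) (Sq r) :=
    hF.continuousOn.integrableOn_compact (Sq_compact r)
  have hsub : ∀ x ∈ Helper98.LC.box n, Qs h x ⊆ Sq r := by
    intro x hx p hp
    simp only [Helper98.LC.box, mem_product, mem_Icc] at hx
    obtain ⟨⟨a1, a2⟩, a3, a4⟩ := hx
    obtain ⟨h1, h2, h3, h4⟩ := hp
    have b1 : (-(n : ℝ)) ≤ (x.1 : ℝ) := by exact_mod_cast a1
    have b2 : (x.1 : ℝ) ≤ (n : ℝ) := by exact_mod_cast a2
    have b3 : (-(n : ℝ)) ≤ (x.2 : ℝ) := by exact_mod_cast a3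
    have b4 : (x.2 : ℝ) ≤ (n : ℝ) := by exact_mod_cast a4
    refine ⟨abs_le.2 ⟨?_, ?_⟩, abs_le.2 ⟨?_, ?_⟩⟩ <;> nlinarith
  have hpos : ∀ x ∈ Helper98.LC.box n, pos h x ∈ Qs h x := by
    intro x _
    refine ⟨le_rfl, ?_, le_rfl, ?_⟩
    · show h * (x.1 : ℝ) < h * ((x.1 : ℝ) + 1)
      nlinarith
    · show h * (x.2 : ℝ) < h * ((x.2 : ℝ) + 1)
      nlinarith
  have hone : ∀ x ∈ Helper98.LC.box n,
      h ^ 2 * F (pos h x) ≤ ∫ p in Qs h x, (F p + κ / (4 * r ^ 2 + 1)) := by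
    intro x hx
    have e : h ^ 2 * F (pos h x) = ∫ _p in Qs h x, F (pos h x) := by
      rw [setIntegral_const, smul_eq_mul, Measure.real, Qs_vol hh,
        ENNReal.toReal_ofReal (by positivity)]
    rw [e]
    refine setIntegral_mono_on ?_ (hint.mono_set (hsub x hx)) (Qs_meas h x) ?_
    · refine integrableOn_const ?_ ?_
      · rw [Qs_vol hh]
        exact ENNReal.ofReal_ne_top
      · exact enorm_ne_top
    · intro p hp
      have hd : dist (pos h x) p < η := by
        obtain ⟨h1, h2, h3, h4⟩ := hp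
        rw [dist_eq_norm]
        refine lt_of_le_of_lt (Complex.norm_le_abs_re_add_abs_im _) ?_
        have c1 : |(pos h x - p).re| ≤ h := by
          rw [Complex.sub_re]
          show |h * (x.1 : ℝ) - p.re| ≤ h
          rw [abs_le]
          constructor <;> linarith
        have c2 : |(pos h x - p).im| ≤ h := by
          rw [Complex.sub_im]
          show |h * (x.2 : ℝ) - p.im| ≤ h
          rw [abs_le]
          constructor <;> linarith
        linarith
      have := H (pos h x) (hsub x hx (hpos x hx)) p (hsub x hx hp) hd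
      rw [Real.dist_eq, abs_lt] at this
      linarith [this.2]
  calc ∑ x ∈ Helper98.LC.box n, h ^ 2 * F (pos h x)
      ≤ ∑ x ∈ Helper98.LC.box n, ∫ p in Qs h x, (F p + κ / (4 * r ^ 2 + 1)) := Finset.sum_le_sum hone
    _ = ∫ p in ⋃ x ∈ Helper98.LC.box n, Qs h x, (F p + κ / (4 * r ^ 2 + 1)) := by
        rw [integral_biUnion_finset (Helper98.LC.box n) (fun x _ => Qs_meas h x)
          (fun x _ y _ hxy => Qs_disj hh hxy) (fun x hx => hint.mono_set (hsub x hx))]
    _ ≤ ∫ p in Sq r, (F p + κ / (4 * r ^ 2 + 1)) := by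
        refine setIntegral_mono_set hint ?_ ?_
        · refine Filter.Eventually.of_forall fun p => ?_
          have := h0 p
          simp only [Pi.zero_apply]
          positivity
        · exact (Set.iUnion₂_subset hsub).eventuallyLE
    _ = (∫ p in Sq r, F p) + 4 * r ^ 2 * (κ / (4 * r ^ 2 + 1)) := by
        have hintc : IntegrableOn (fun _ : ℂ => κ / (4 * r ^ 2 + 1)) (Sq r) volume :=
          continuous_const.continuousOn.integrableOn_compact (Sq_compact r)
        rw [integral_add hintF hintc, setIntegral_const,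
          smul_eq_mul, Measure.real, Sq_vol hr, ENNReal.toReal_ofReal (by positivity)]
    _ ≤ (∫ p in Sq r, F p) + κ := by
        have : 4 * r ^ 2 * (κ / (4 * r ^ 2 + 1)) ≤ κ := by
          rw [← mul_div_assoc, div_le_iff₀ (by positivity)]
          nlinarith
        linarith

/-- Attention: here the constant `κ` is inside of the integral (precedence of `∫`); the form with
the constant outside is `riemann'`. -/
theorem riemann {F : ℂ → ℝ} (hF : Continuous F) (h0 : ∀ p, 0 ≤ F p) (r : ℝ) {κ : ℝ} (hκ : 0 < κ) :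
    ∃ h₀, 0 < h₀ ∧ ∀ h, 0 < h → h ≤ h₀ → ∀ n : ℕ, h * (n + 1) ≤ r →
      ∑ x ∈ box n, h ^ 2 * F (pos h x) ≤ ∫ p in Sq r, F p + κ := by
  rcases le_or_gt r 0 with hr | hr
  · refine ⟨1, one_pos, fun h hh _ n hn => ?_⟩
    exfalso
    have hn0 : (0 : ℝ) ≤ (n : ℝ) := Nat.cast_nonneg n
    have : 0 < h * ((n : ℝ) + 1) := by positivity
    linarith
  · obtain ⟨h₀, hh₀, H⟩ := riemann' hF h0 r (κ := 4 * r ^ 2 * κ) (by positivity)
    refine ⟨h₀, hh₀, fun h hh hle n hn => ?_⟩
    refine (H h hh hle n hn).trans (le_of_eq ?_)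
    have hintF : IntegrableOn (fun p => F p) (Sq r) volume :=
      hF.continuousOn.integrableOn_compact (Sq_compact r)
    have hintc : IntegrableOn (fun _ : ℂ => κ) (Sq r) volume :=
      continuous_const.continuousOn.integrableOn_compact (Sq_compact r)
    rw [integral_add hintF hintc, setIntegral_const,
      smul_eq_mul, Measure.real, Sq_vol hr.le, ENNReal.toReal_ofReal (by positivity)]

open Classical in
theorem count {u : ℂ → ℝ} {r R L h : ℝ} (hr : 0 < r) (hh : 0 < h) (hR : r + 2 * h ≤ R)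
    (hL : ∀ p ∈ Sq R, ∀ q ∈ Sq R, |u q - u p| ≤ L * ‖q - p‖) (hLh : 3 * L * h ≤ 1 / 8)
    (hL0 : 0 ≤ L) (hu : ∀ p, 3 / 4 < u p → p ∈ Sq r) {n : ℕ} (hn : r + h ≤ h * n) :
    volume {p | 3 / 4 < u p} ≤ ENNReal.ofReal (h ^ 2 *
      ((box n).filter fun x => 5 / 8 < u (pos h x) ∧ ∀ k, 5 / 8 < u (pos h (x + dir k))).card) := by
  have near : ∀ p, 3 / 4 < u p → ∀ y : V, p ∈ Sq r →
      |h * (y.1 : ℝ) - p.re| ≤ 2 * h → |h * (y.2 : ℝ) - p.im| ≤ 2 * h → 5 / 8 < u (pos h y) := by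
    intro p hp y hpr h1 h2
    obtain ⟨r1, r2⟩ := hpr
    have hpR : p ∈ Sq R := ⟨by linarith, by linarith⟩
    have hyR : pos h y ∈ Sq R := by
      rw [abs_le] at h1 h2 r1 r2
      refine ⟨?_, ?_⟩
      · show |h * (y.1 : ℝ)| ≤ R
        rw [abs_le]
        constructor <;> linarith
      · show |h * (y.2 : ℝ)| ≤ R
        rw [abs_le]
        constructor <;> linarith
    have hn3 : ‖pos h y - p‖ ≤ 3 * h := by
      have e : ‖pos h y - p‖ ^ 2 =
          (h * (y.1 : ℝ) - p.re) ^ 2 + (h * (y.2 : ℝ) - p.im) ^ 2 := by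
        rw [Complex.sq_norm, Complex.normSq_apply, Complex.sub_re, Complex.sub_im]
        show (h * (y.1 : ℝ) - p.re) * (h * (y.1 : ℝ) - p.re) +
          (h * (y.2 : ℝ) - p.im) * (h * (y.2 : ℝ) - p.im) = _
        ring
      have s1 : (h * (y.1 : ℝ) - p.re) ^ 2 ≤ (2 * h) ^ 2 := by
        rw [← sq_abs]
        exact pow_le_pow_left₀ (abs_nonneg _) h1 2
      have s2 : (h * (y.2 : ℝ) - p.im) ^ 2 ≤ (2 * h) ^ 2 := by
        rw [← sq_abs]
        exact pow_le_pow_left₀ (abs_nonneg _) h2 2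
      refine (pow_le_pow_iff_left₀ (norm_nonneg _) (by positivity) two_ne_zero).1 ?_
      rw [e]
      nlinarith [sq_nonneg h]
    have := hL p hpR (pos h y) hyR
    have h3 : L * ‖pos h y - p‖ ≤ L * (3 * h) := mul_le_mul_of_nonneg_left hn3 hL0
    rw [abs_le] at this
    linarith [this.1]
  have hcov : {p | 3 / 4 < u p} ⊆
      ⋃ x ∈ (Helper98.LC.box n).filter fun x => 5 / 8 < u (pos h x) ∧ ∀ k, 5 / 8 < u (pos h (x + dir k)),
        Qs h x := by
    intro p hp
    have hp' : 3 / 4 < u p := hp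
    have hpr := hu p hp'
    have hQ := mem_Qs hh p
    set x : V := (⌊p.re / h⌋, ⌊p.im / h⌋) with hx
    obtain ⟨q1, q2, q3, q4⟩ := hQ
    have hpr' := hpr
    obtain ⟨r1, r2⟩ := hpr'
    rw [abs_le] at r1 r2
    rw [Set.mem_iUnion₂]
    refine ⟨x, ?_, ⟨q1, q2, q3, q4⟩⟩
    rw [mem_filter]
    refine ⟨?_, ?_, ?_⟩
    · simp only [Helper98.LC.box, mem_product, mem_Icc]
      have key1 : ∀ a : ℤ, -(r) ≤ h * ((a : ℝ) + 1) → -(n : ℤ) ≤ a := by
        intro a ha
        have : h * (-(n : ℝ)) ≤ h * (a : ℝ) := by nlinarith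
        have := le_of_mul_le_mul_left this hh
        exact_mod_cast this
      have key2 : ∀ a : ℤ, h * (a : ℝ) ≤ r → a ≤ (n : ℤ) := by
        intro a ha
        have : h * (a : ℝ) ≤ h * (n : ℝ) := by nlinarith
        have := le_of_mul_le_mul_left this hh
        exact_mod_cast this
      exact ⟨⟨key1 _ (by linarith), key2 _ (by linarith)⟩,
        key1 _ (by linarith), key2 _ (by linarith)⟩
    · refine near p hp' x hpr ?_ ?_
      · rw [abs_le]
        constructor <;> linarith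
      · rw [abs_le]
        constructor <;> linarith
    · intro k
      have d1 : -1 ≤ ((dir k).1 : ℤ) ∧ (dir k).1 ≤ (1 : ℤ) := by
        fin_cases k <;> simp [dir]
      have d2 : -1 ≤ ((dir k).2 : ℤ) ∧ (dir k).2 ≤ (1 : ℤ) := by
        fin_cases k <;> simp [dir]
      have e1 : (((x + dir k).1 : ℤ) : ℝ) = (x.1 : ℝ) + ((dir k).1 : ℝ) := by
        rw [Prod.fst_add]
        push_cast
        ring
      have e2 : (((x + dir k).2 : ℤ) : ℝ) = (x.2 : ℝ) + ((dir k).2 : ℝ) := by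
        rw [Prod.snd_add]
        push_cast
        ring
      have f1 : (-1 : ℝ) ≤ ((dir k).1 : ℝ) := by exact_mod_cast d1.1
      have f2 : ((dir k).1 : ℝ) ≤ 1 := by exact_mod_cast d1.2
      have f3 : (-1 : ℝ) ≤ ((dir k).2 : ℝ) := by exact_mod_cast d2.1
      have f4 : ((dir k).2 : ℝ) ≤ 1 := by exact_mod_cast d2.2
      refine near p hp' (x + dir k) hpr ?_ ?_
      · rw [e1, abs_le]
        constructor <;> nlinarith
      · rw [e2, abs_le]
        constructor <;> nlinarith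
  calc volume {p | 3 / 4 < u p}
      ≤ volume (⋃ x ∈ (Helper98.LC.box n).filter fun x =>
          5 / 8 < u (pos h x) ∧ ∀ k, 5 / 8 < u (pos h (x + dir k)), Qs h x) :=
        measure_mono hcov
    _ ≤ ∑ x ∈ (Helper98.LC.box n).filter fun x =>
          5 / 8 < u (pos h x) ∧ ∀ k, 5 / 8 < u (pos h (x + dir k)), volume (Qs h x) :=
        measure_biUnion_finset_le _ _
    _ = ENNReal.ofReal (h ^ 2 *
      ((Helper98.LC.box n).filter fun x => 5 / 8 < u (pos h x) ∧ ∀ k, 5 / 8 < u (pos h (x + dir k))).card) := by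
        rw [Finset.sum_congr rfl (fun x _ => Qs_vol hh x), Finset.sum_const, nsmul_eq_mul,
          mul_comm (h ^ 2), ENNReal.ofReal_mul (by positivity), ENNReal.ofReal_natCast]

end Pool.Agent.Helper38.LCA
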