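import Pool.Agent.Helper38.LCA.Defs
import Pool.Agent.Helper98.LC.B.Area

/-!
# LCA-05: the perimeter as a sum over triangles

`A d = ‖G.z d.1 d.2 - G.q d.1 d.2‖` for a dart `d`.  `G.w d = A d + A (rev d)` (`zl_rev`, `q_rev`; see `Pool/Agent/Helper98/LC/B/Dart.lean`), and `rev` is an involution on `darts c n`
(`mem_darts`, `isCut_rev`), so `per2 G c n = 2 ∑ d ∈ darts c n, A d`.
Every dart is one of the three darts of the triangle on its left side, whose base vertex `x` and type `t ∈ {0, 1}` are: `(x, 0)`, `(x, 1)`;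
`(y, 2)` with `y = x + dir 0`, type 0; `(y, 3)` with `y = x + dir 1`, type 1; `(y, 4)` with `y = x + dir 1`, type 0; `(y, 5)` with `y = x + dir 2`, type 1.
These are exactly the darts in the three terms of `SS G c x t` (`G.z` by `z_rot`, once or twice).  For every direction `k` the sum over the darts `(y, k) ∈ darts c n` is `≤` the sum
over `x ∈ box (n + 2)` of the corresponding term (injective map `y ↦ x`, `y ∈ box (n + 1)` implies `x ∈ box (n + 2)`, all terms are `≥ 0`).
-/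

namespace Pool.Agent.Helper38.LCA

open Finset Real Pool.Agent.Helper98.LC

variable {ι : Type} [DecidableEq ι]

/-- the half of the interface at a dart, on its left side -/
private noncomputable def trF (G : Net) (c : V → ι) (k : Fin 6) (y : V) : ℝ :=
  if c y = c (y + dir k) then 0 else ‖G.z y k - G.q y k‖

private theorem trF_nonneg (G : Net) (c : V → ι) (k : Fin 6) (y : V) : 0 ≤ trF G c k y := by
  unfold trF
  split_ifs
  · exact le_rfl
  · positivity

private theorem tr_mem_box {n : ℕ} {x : V} :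
    x ∈ box n ↔ (-(n : ℤ) ≤ x.1 ∧ x.1 ≤ n) ∧ (-(n : ℤ) ≤ x.2 ∧ x.2 ≤ n) := by
  unfold Helper98.LC.box
  rw [mem_product, mem_Icc, mem_Icc]

private theorem tr_shift (s : V) (hs : -1 ≤ s.1 ∧ s.1 ≤ 1 ∧ -1 ≤ s.2 ∧ s.2 ≤ 1) (f : V → ℝ)
    (hf : ∀ y, 0 ≤ f y) (n : ℕ) :
    ∑ y ∈ box (n + 1), f y ≤ ∑ x ∈ box (n + 2), f (x + s) := by
  have h1 : ∑ x ∈ box (n + 2), f (x + s) =
      ∑ y ∈ (box (n + 2)).map (addRightEmbedding s), f y := by
    rw [sum_map]
    rfl
  rw [h1]
  refine sum_le_sum_of_subset_of_nonneg ?_ fun y _ _ => hf y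
  intro y hy
  rw [mem_map]
  refine ⟨y - s, ?_, ?_⟩
  · rw [tr_mem_box] at hy ⊢
    rw [Prod.fst_sub, Prod.snd_sub]
    push_cast at hy ⊢
    omega
  · rw [addRightEmbedding_apply, sub_add_cancel]

private theorem tr_w (G : Net) (d : V × Fin 6) :
    G.w d = ‖G.z (rev d).1 (rev d).2 - G.q (rev d).1 (rev d).2‖ + ‖G.z d.1 d.2 - G.q d.1 d.2‖ := by
  have h1 := zl_rev G d
  unfold Net.zl at h1
  have h2 : G.q (rev d).1 (rev d).2 = G.q d.1 d.2 := by
    obtain ⟨x, k⟩ := d
    exact G.q_rev x k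
  rw [h1, h2]
  unfold Net.w
  rw [norm_sub_rev (G.q d.1 d.2)]

private theorem tr_per (G : Net) {c : V → ι} {o : ι} {n : ℕ} (h : OutBox c o n) :
    per2 G c n = 2 * ∑ k : Fin 6, ∑ y ∈ box (n + 1), trF G c k y := by
  have h1 : ∑ d ∈ darts c n, ‖G.z (rev d).1 (rev d).2 - G.q (rev d).1 (rev d).2‖ =
      ∑ d ∈ darts c n, ‖G.z d.1 d.2 - G.q d.1 d.2‖ := by
    refine sum_nbij' rev rev ?_ ?_ ?_ ?_ ?_
    · intro d hd
      rw [mem_darts h] at hd ⊢
      exact (isCut_rev c d).2 hd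
    · intro d hd
      rw [mem_darts h] at hd ⊢
      exact (isCut_rev c d).2 hd
    · intro d _
      exact rev_rev d
    · intro d _
      exact rev_rev d
    · intro d _
      rfl
  have h2 : ∑ d ∈ darts c n, ‖G.z d.1 d.2 - G.q d.1 d.2‖ =
      ∑ k : Fin 6, ∑ y ∈ box (n + 1), trF G c k y := by
    unfold darts
    rw [sum_filter, sum_product_right]
    refine sum_congr rfl fun k _ => sum_congr rfl fun y _ => ?_
    unfold trF tip
    by_cases hc : c y = c (y + dir k)
    · rw [if_pos hc, if_neg (by simpa using hc)]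
    · rw [if_neg hc, if_pos hc]
  unfold per2
  rw [sum_congr rfl fun d _ => tr_w G d, sum_add_distrib, h1, h2]
  ring

private theorem tr_z_rot2 (G : Net) (x : V) (k : Fin 6) :
    G.z (x + dir (k + 1)) (k + 4) = G.z x k := by
  have e : dir k + dir (k + 2) = dir (k + 1) := by revert k; decide
  have e2 : k + 2 + 2 = k + 4 := by revert k; decide
  have h := G.z_rot (x + dir k) (k + 2)
  rw [add_assoc, e, e2] at h
  rw [h]
  exact G.z_rot x k

private theorem tr_SS (G : Net) (c : V → ι) (x : V) (k : Fin 6) :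
    SS G c x k = trF G c k x + trF G c (k + 2) (x + dir k) + trF G c (k + 4) (x + dir (k + 1)) := by
  have e : dir k + dir (k + 2) = dir (k + 1) := by revert k; decide
  have e2 : dir (k + 1) + dir (k + 4) = 0 := by revert k; decide
  unfold SS trF
  rw [add_assoc x (dir k), e, add_assoc x (dir (k + 1)), e2, add_zero, G.z_rot, tr_z_rot2]

theorem per2_le_tri {ι : Type} [DecidableEq ι] (G : Net) {c : V → ι} {o : ι} {n : ℕ}
    (h : OutBox c o n) :
    per2 G c n ≤ 2 * ∑ x ∈ box (n + 2), (SS G c x 0 + SS G c x 1) := by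
  rw [tr_per G h]
  refine mul_le_mul_of_nonneg_left ?_ (by norm_num)
  have hz : ∀ k y, 0 ≤ trF G c k y := trF_nonneg G c
  have h0 := tr_shift 0 (by norm_num) (trF G c 0) (hz 0) n
  have h1 := tr_shift 0 (by norm_num) (trF G c 1) (hz 1) n
  have h2 := tr_shift (dir 0) (by decide) (trF G c 2) (hz 2) n
  have h3 := tr_shift (dir 1) (by decide) (trF G c 3) (hz 3) n
  have h4 := tr_shift (dir 1) (by decide) (trF G c 4) (hz 4) n
  have h5 := tr_shift (dir 2) (by decide) (trF G c 5) (hz 5) n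
  have hS : ∑ x ∈ box (n + 2), (SS G c x 0 + SS G c x 1) =
      ∑ x ∈ box (n + 2), trF G c 0 (x + 0) + ∑ x ∈ box (n + 2), trF G c 1 (x + 0) +
      ∑ x ∈ box (n + 2), trF G c 2 (x + dir 0) + ∑ x ∈ box (n + 2), trF G c 3 (x + dir 1) +
      ∑ x ∈ box (n + 2), trF G c 4 (x + dir 1) + ∑ x ∈ box (n + 2), trF G c 5 (x + dir 2) := by
    rw [← sum_add_distrib, ← sum_add_distrib, ← sum_add_distrib, ← sum_add_distrib,
      ← sum_add_distrib]
    refine sum_congr rfl fun x _ => ?_
    rw [tr_SS, tr_SS, add_zero]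
    have a1 : (0 : Fin 6) + 2 = 2 := rfl
    have a2 : (0 : Fin 6) + 4 = 4 := rfl
    have a3 : (0 : Fin 6) + 1 = 1 := rfl
    have a4 : (1 : Fin 6) + 2 = 3 := rfl
    have a5 : (1 : Fin 6) + 4 = 5 := rfl
    have a6 : (1 : Fin 6) + 1 = 2 := rfl
    rw [a1, a2, a3, a4, a5, a6]
    ring
  rw [hS, Fin.sum_univ_six]
  linarith

end Pool.Agent.Helper38.LCA
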