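import Pool.Agent.Helper38.LCA.EEle
import Pool.Agent.Helper38.LCA.Tri
import Pool.Agent.Helper38.LCA.Riemann

/-!
# LCA-11: from a smooth partition to a net

`R = r + 3`, `F p = ∑ i ‖gr (u i) p‖ GK (KN N) (u i p)`, continuous and `≥ 0` (`point` with `ω = 0`: the left side is `≥ 0`; `gr_sum`).  `L` is a common Lipschitz constant on `Sq R` and a bound for the
gradients (`lip_Sq`, maximum or sum over `i`).  Let `κ₁ > 0` be small, `η` from `lin_Sq` (minimum over `i`), `h₀` from `riemann` (radius `R`, `κ = δ/8`), `h ≤ min (1/2) h₀ (η/2)`, `3 L h ≤ 1/8`, `2 L h ≤ 1/16` and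
`(N+1)³ (64 h L² + 36 κ₁ + 1280 h L²) (2R + 2)² ≤ δ/8` or similar (see below).  `n = ⌈(r + h)/h⌉`, so `r + h ≤ h n ≤ r + 2h`, `h (n + 3) ≤ r + 5h ≤ R`.  `v x i = u i (pos h x)`, `B = box (n + 2)`.
All points `pos h x`, `pos h (x + dir k)`, `x ∈ B`, are in `Sq R`; distance `≤ √2 h ≤ 2 h`; `ω = 2 L h`, `e = 2 κ₁ h`.
* `exists_c` gives `c`, `Gen`.  `G = mkNet …`, labelling `lab v c`.
* `OutBox`: for `x ∉ box n`: `‖pos h x‖ ≥ h (n + 1) ≥ r`, so `v x 0 ≥ 7/8 > 5/8` and `lab_eq`.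
* `per2 G c n ≤ 2 ∑ B (SS 0 + SS 1) ≤ 2 ∑ B (EE 0 + EE 1)` (`per2_le_tri`) and `EE_le` with `g i = gr (u i) (pos h x)`, `Gb = L`: `EE 0 + EE 1 ≤ h² F (pos h x) + h² κ₂`,
  `κ₂ = 2 (N+1)³ (64 h L² + 36 κ₁ + 1280 h L²)`; the number of `x ∈ B` is `(2n + 5)² ≤ (2R/h)²·…`, `h² |B| ≤ (2 R)²`.  With `riemann`: `per2 ≤ 2 (∫_{Sq R} F + δ/8) + 8 R² κ₂ ≤ ∑ P + 2 κ + δ`.
* Areas: `count` for `u i.succ` (`3/4 < u i.succ p` implies `u 0 p ≤ 1/4`, so `‖p‖ < r` by `far`, `p ∈ Sq r`).  For the good `x ∈ box n` all seven labels are `i.succ` (`lab_eq`), so `al x = h²` (`mk_al_std`) and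
  `ar = (∑ al)/A0 ≥ h² #good / A0 ≥ (A0 - κ)/A0` (`SmoothPart.vol`, `al ≥ 0`).
-/

namespace Pool.Agent.Helper38.LCA

open Finset Real Pool.Agent.Helper98.LC MeasureTheory

lemma no_dir (k : Fin 6) : (-1 ≤ (dir k).1 ∧ (dir k).1 ≤ 1) ∧ (-1 ≤ (dir k).2 ∧ (dir k).2 ≤ 1) := by
  fin_cases k <;> simp [dir]

lemma no_mem_box {n : ℕ} {x : V} :
    x ∈ Helper98.LC.box n ↔ (-(n : ℤ) ≤ x.1 ∧ x.1 ≤ n) ∧ (-(n : ℤ) ≤ x.2 ∧ x.2 ≤ n) := by
  unfold Helper98.LC.box
  rw [mem_product, mem_Icc, mem_Icc]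

lemma no_box_nbr {m : ℕ} {x : V} (hx : x ∈ Helper98.LC.box m) (k : Fin 6) : x + dir k ∈ Helper98.LC.box (m + 1) := by
  rw [no_mem_box] at hx ⊢
  obtain ⟨⟨h1, h2⟩, h3, h4⟩ := no_dir k
  obtain ⟨⟨h5, h6⟩, h7, h8⟩ := hx
  rw [Prod.fst_add, Prod.snd_add]
  push_cast
  omega

lemma no_box_card (m : ℕ) : ((Helper98.LC.box m).card : ℝ) = (2 * (m : ℝ) + 1) ^ 2 := by
  unfold Helper98.LC.box
  rw [card_product, Int.card_Icc]
  have h1 : ((m : ℤ) + 1 - -(m : ℤ)).toNat = 2 * m + 1 := by omega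
  rw [h1]
  push_cast
  ring

lemma no_mem_Sq {h R : ℝ} (hh : 0 ≤ h) {m : ℕ} (hm : h * m ≤ R) {x : V} (hx : x ∈ Helper98.LC.box m) :
    pos h x ∈ Sq R := by
  rw [no_mem_box] at hx
  obtain ⟨⟨h5, h6⟩, h7, h8⟩ := hx
  have e1 : |(x.1 : ℝ)| ≤ m := by
    rw [abs_le]
    constructor
    · exact_mod_cast h5
    · exact_mod_cast h6
  have e2 : |(x.2 : ℝ)| ≤ m := by
    rw [abs_le]
    constructor
    · exact_mod_cast h7
    · exact_mod_cast h8
  constructor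
  · show |h * (x.1 : ℝ)| ≤ R
    rw [abs_mul, abs_of_nonneg hh]
    exact (mul_le_mul_of_nonneg_left e1 hh).trans hm
  · show |h * (x.2 : ℝ)| ≤ R
    rw [abs_mul, abs_of_nonneg hh]
    exact (mul_le_mul_of_nonneg_left e2 hh).trans hm

lemma no_dist {h : ℝ} (hh : 0 ≤ h) (x : V) (k : Fin 6) :
    ‖pos h (x + dir k) - pos h x‖ ≤ 2 * h := by
  obtain ⟨⟨h1, h2⟩, h3, h4⟩ := no_dir k
  have a1 : |((dir k).1 : ℝ)| ≤ 1 := by
    rw [abs_le]
    constructor
    · exact_mod_cast h1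
    · exact_mod_cast h2
  have a2 : |((dir k).2 : ℝ)| ≤ 1 := by
    rw [abs_le]
    constructor
    · exact_mod_cast h3
    · exact_mod_cast h4
  have e1 : (pos h (x + dir k) - pos h x).re = h * ((dir k).1 : ℝ) := by
    simp only [pos, Complex.sub_re, Prod.fst_add]
    push_cast
    ring
  have e2 : (pos h (x + dir k) - pos h x).im = h * ((dir k).2 : ℝ) := by
    simp only [pos, Complex.sub_im, Prod.snd_add]
    push_cast
    ring
  have h5 := Complex.norm_le_abs_re_add_abs_im (pos h (x + dir k) - pos h x)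
  rw [e1, e2, abs_mul, abs_mul, abs_of_nonneg hh] at h5
  nlinarith

lemma no_out {h : ℝ} (hh : 0 < h) {n : ℕ} {x : V} (hx : x ∉ Helper98.LC.box n) :
    h * (n : ℝ) ≤ ‖pos h x‖ := by
  rw [no_mem_box] at hx
  have key : (n : ℝ) ≤ |(x.1 : ℝ)| ∨ (n : ℝ) ≤ |(x.2 : ℝ)| := by
    by_contra hcon
    push Not at hcon
    obtain ⟨c1, c2⟩ := hcon
    rw [abs_lt] at c1 c2
    apply hx
    obtain ⟨d1, d2⟩ := c1
    obtain ⟨d3, d4⟩ := c2
    have f1 : -(n : ℤ) < x.1 := by exact_mod_cast d1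
    have f2 : x.1 < (n : ℤ) := by exact_mod_cast d2
    have f3 : -(n : ℤ) < x.2 := by exact_mod_cast d3
    have f4 : x.2 < (n : ℤ) := by exact_mod_cast d4
    omega
  have e1 : |(pos h x).re| = h * |(x.1 : ℝ)| := by
    show |h * (x.1 : ℝ)| = _
    rw [abs_mul, abs_of_pos hh]
  have e2 : |(pos h x).im| = h * |(x.2 : ℝ)| := by
    show |h * (x.2 : ℝ)| = _
    rw [abs_mul, abs_of_pos hh]
  rcases key with key | key
  · refine (mul_le_mul_of_nonneg_left key hh.le).trans ?_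
    rw [← e1]
    exact Complex.abs_re_le_norm _
  · refine (mul_le_mul_of_nonneg_left key hh.le).trans ?_
    rw [← e2]
    exact Complex.abs_im_le_norm _

lemma no_fE_cont : Continuous fE := by
  unfold fE
  fun_prop

lemma no_fE_nonneg (s : ℝ) : 0 ≤ fE s := le_max_left _ _

lemma no_GK_cont (K : ℝ) : Continuous (GK K) := by
  unfold GK
  exact (no_fE_cont.comp (by fun_prop)).add (by fun_prop)

lemma no_F_cont {N : ℕ} {u : Fin (N + 1) → ℂ → ℝ} (hu : ∀ i, ContDiff ℝ 2 (u i)) :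
    Continuous fun p => ∑ i, ‖gr (u i) p‖ * GK (KN N) (u i p) := by
  refine continuous_finsetSum _ fun i _ => ?_
  exact ((gr_cont (hu i)).continuous.norm).mul ((no_GK_cont _).comp (hu i).continuous)

lemma no_F_nonneg {N : ℕ} {u : Fin (N + 1) → ℂ → ℝ} (hu : ∀ i, ContDiff ℝ 2 (u i))
    (h0 : ∀ i p, 0 ≤ u i p) (hs : ∀ p, ∑ i, u i p = 1) (p : ℂ) :
    0 ≤ ∑ i, ‖gr (u i) p‖ * GK (KN N) (u i p) := by
  classical
  refine le_trans ?_ (point (ω := 0) (by norm_num) (fun i => u i p) (fun i => h0 i p) (hs p)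
    (fun i => gr (u i) p) (gr_sum hu hs p))
  refine sum_nonneg fun i _ => sum_nonneg fun j _ => ?_
  split_ifs
  · exact mul_nonneg (norm_nonneg _) (no_fE_nonneg _)
  · exact le_rfl

lemma no_riemann {F : ℂ → ℝ} (hF : Continuous F) (h0 : ∀ p, 0 ≤ F p) (r : ℝ) {κ : ℝ}
    (hκ : 0 < κ) :
    ∃ h₀, 0 < h₀ ∧ ∀ h, 0 < h → h ≤ h₀ → ∀ n : ℕ, h * (n + 1) ≤ r →
      ∑ x ∈ Helper98.LC.box n, h ^ 2 * F (pos h x) ≤ (∫ p in Sq r, F p) + κ := by
  have hfin : volume (Sq r) < ⊤ := (Sq_compact r).measure_lt_top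
  obtain ⟨m, hm⟩ : ∃ m, m = volume.real (Sq r) := ⟨_, rfl⟩
  have hm0 : 0 ≤ m := by rw [hm]; exact measureReal_nonneg
  obtain ⟨h₀, hh₀, H⟩ := riemann hF h0 r (κ := κ / (m + 1)) (by positivity)
  refine ⟨h₀, hh₀, fun h hh hh' n hn => (H h hh hh' n hn).trans ?_⟩
  rw [integral_add (hF.continuousOn.integrableOn_compact (Sq_compact r))
    (integrableOn_const hfin.ne), setIntegral_const, ← hm, smul_eq_mul]
  have h1 : m * (κ / (m + 1)) ≤ κ := by
    rw [mul_div_assoc', div_le_iff₀ (by positivity)]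
    nlinarith
  linarith

/-- the choice of the mesh -/
lemma no_mesh {L h₀ η M R δ : ℝ} (hL : 0 ≤ L) (hh₀ : 0 < h₀) (hη : 0 < η) (hM : 0 < M)
    (hR : 0 < R) (hδ : 0 < δ) :
    ∃ h : ℝ, 0 < h ∧ h ≤ 1 / 2 ∧ h ≤ h₀ ∧ 2 * h ≤ η ∧ 3 * L * h ≤ 1 / 8 ∧ 2 * L * h ≤ 1 / 16 ∧
      21504 * M * R ^ 2 * L ^ 2 * h ≤ δ / 4 := by
  refine ⟨min (min (1 / 2) h₀) (min (η / 2) (min (1 / (32 * (L + 1)))
    (δ / (86016 * M * R ^ 2 * (L ^ 2 + 1))))), ?_, ?_, ?_, ?_, ?_, ?_, ?_⟩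
  · refine lt_min (lt_min (by norm_num) hh₀) (lt_min (by positivity) (lt_min (by positivity)
      (by positivity)))
  · exact (min_le_left _ _).trans (min_le_left _ _)
  · exact (min_le_left _ _).trans (min_le_right _ _)
  · have h1 : min (min (1 / 2) h₀) (min (η / 2) (min (1 / (32 * (L + 1)))
      (δ / (86016 * M * R ^ 2 * (L ^ 2 + 1))))) ≤ η / 2 := (min_le_right _ _).trans (min_le_left _ _)
    linarith
  · have h1 : min (min (1 / 2) h₀) (min (η / 2) (min (1 / (32 * (L + 1)))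
      (δ / (86016 * M * R ^ 2 * (L ^ 2 + 1))))) ≤ 1 / (32 * (L + 1)) :=
      (min_le_right _ _).trans ((min_le_right _ _).trans (min_le_left _ _))
    have h2 : 3 * L * (1 / (32 * (L + 1))) ≤ 1 / 8 := by
      rw [mul_one_div, div_le_div_iff₀ (by positivity) (by norm_num)]
      nlinarith
    exact (mul_le_mul_of_nonneg_left h1 (by positivity)).trans h2
  · have h1 : min (min (1 / 2) h₀) (min (η / 2) (min (1 / (32 * (L + 1)))
      (δ / (86016 * M * R ^ 2 * (L ^ 2 + 1))))) ≤ 1 / (32 * (L + 1)) :=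
      (min_le_right _ _).trans ((min_le_right _ _).trans (min_le_left _ _))
    have h2 : 2 * L * (1 / (32 * (L + 1))) ≤ 1 / 16 := by
      rw [mul_one_div, div_le_div_iff₀ (by positivity) (by norm_num)]
      nlinarith
    exact (mul_le_mul_of_nonneg_left h1 (by positivity)).trans h2
  · have h1 : min (min (1 / 2) h₀) (min (η / 2) (min (1 / (32 * (L + 1)))
      (δ / (86016 * M * R ^ 2 * (L ^ 2 + 1))))) ≤ δ / (86016 * M * R ^ 2 * (L ^ 2 + 1)) :=
      (min_le_right _ _).trans ((min_le_right _ _).trans (min_le_right _ _))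
    have h2 : 21504 * M * R ^ 2 * L ^ 2 * (δ / (86016 * M * R ^ 2 * (L ^ 2 + 1))) ≤ δ / 4 := by
      rw [mul_div_assoc', div_le_div_iff₀ (by positivity) (by norm_num)]
      have h3 : 0 ≤ M * R ^ 2 * δ := by positivity
      nlinarith
    exact (mul_le_mul_of_nonneg_left h1 (by positivity)).trans h2

/-- the size of the grid -/
lemma no_size {r h : ℝ} (hr : 0 < r) (hh : 0 < h) :
    ∃ n : ℕ, r + h ≤ h * n ∧ h * n ≤ r + 2 * h := by
  refine ⟨⌈(r + h) / h⌉₊, ?_, ?_⟩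
  · have h1 := Nat.le_ceil ((r + h) / h)
    rw [div_le_iff₀ hh] at h1
    linarith
  · have h1 := Nat.ceil_lt_add_one (show 0 ≤ (r + h) / h by positivity)
    have h2 : h * ((r + h) / h) = r + h := by field_simp
    nlinarith

theorem net_of_smooth {N : ℕ} {E : Fin (N + 1) → Set ℂ} {κ r : ℝ} {u : Fin (N + 1) → ℂ → ℝ}
    (hu : SmoothPart E κ r u) (hr : 0 < r) (hκ : 0 ≤ κ) {δ : ℝ} (hδ : 0 < δ) :
    ∃ (G : Net) (n : ℕ) (c : V → Fin (N + 1)), OutBox c 0 n ∧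
      (∀ i : Fin N, (A0 - κ) / A0 ≤ ar G c n i.succ) ∧
      per2 G c n ≤ ∑ i, P (E i) + 2 * κ + δ := by
  classical
  have hA0 : 0 < A0 := by unfold A0; positivity
  obtain ⟨R, hR⟩ : ∃ R, R = r + 3 := ⟨_, rfl⟩
  have hRpos : 0 < R := by rw [hR]; linarith
  have lipAll := fun i => lip_Sq (hu.smooth i) R
  choose L0 hL0 hLip0 hGr0 using lipAll
  obtain ⟨L, hL⟩ : ∃ L, L = ∑ i, L0 i := ⟨_, rfl⟩
  have hLi : ∀ i, L0 i ≤ L := fun i => by
    rw [hL]; exact single_le_sum (fun j _ => hL0 j) (mem_univ i)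
  have hLnn : 0 ≤ L := (hL0 0).trans (hLi 0)
  have hLip : ∀ i, ∀ p ∈ Sq R, ∀ q ∈ Sq R, |u i q - u i p| ≤ L * ‖q - p‖ := fun i p hp q hq =>
    (hLip0 i p hp q hq).trans (mul_le_mul_of_nonneg_right (hLi i) (norm_nonneg _))
  have hGr : ∀ i, ∀ p ∈ Sq R, ‖gr (u i) p‖ ≤ L := fun i p hp => (hGr0 i p hp).trans (hLi i)
  obtain ⟨M, hM⟩ : ∃ M, M = ((N : ℝ) + 1) ^ 3 := ⟨_, rfl⟩
  have hMpos : 0 < M := by rw [hM]; positivity
  obtain ⟨κ₁, hκ₁⟩ : ∃ κ₁, κ₁ = δ / (2304 * M * R ^ 2) := ⟨_, rfl⟩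
  have hκ₁pos : 0 < κ₁ := by rw [hκ₁]; positivity
  have linAll := fun i => lin_Sq (hu.smooth i) R hκ₁pos
  choose η0 hη0 hlin0 using linAll
  obtain ⟨i0, hi0⟩ := Finite.exists_min η0
  obtain ⟨F, hF⟩ : ∃ F : ℂ → ℝ, F = fun p => ∑ i, ‖gr (u i) p‖ * GK (KN N) (u i p) := ⟨_, rfl⟩
  have hFc : Continuous F := by rw [hF]; exact no_F_cont hu.smooth
  have hFn : ∀ p, 0 ≤ F p := by
    rw [hF]; exact no_F_nonneg hu.smooth hu.nonneg hu.sum_eq
  obtain ⟨h₀, hh₀, hriem⟩ := no_riemann hFc hFn R (κ := δ / 8) (by positivity)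
  obtain ⟨h, hh, hh1, hh2, hh3, hh4, hh5, hh6⟩ :=
    no_mesh hLnn hh₀ (hη0 i0) hMpos hRpos hδ
  obtain ⟨n, hn1, hn2⟩ := no_size hr hh
  have hn3 : h * ((n + 2 : ℕ) + 1 : ℝ) ≤ R := by
    push_cast
    rw [hR]
    nlinarith
  have hn4 : h * ((n + 2 + 1 : ℕ) : ℝ) ≤ R := by
    push_cast at hn3 ⊢
    linarith
  have hn5 : h * ((n + 2 : ℕ) : ℝ) ≤ R := by
    push_cast at hn3 ⊢
    linarith
  have hin : ∀ x ∈ Helper98.LC.box (n + 2), pos h x ∈ Sq R := fun x hx => no_mem_Sq hh.le hn5 hx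
  have hin' : ∀ x ∈ Helper98.LC.box (n + 2), ∀ k, pos h (x + dir k) ∈ Sq R := fun x hx k =>
    no_mem_Sq hh.le hn4 (no_box_nbr hx k)
  obtain ⟨v, hv⟩ : ∃ v : V → Fin (N + 1) → ℝ, v = fun x i => u i (pos h x) := ⟨_, rfl⟩
  have hv0 : ∀ x i, 0 ≤ v x i := fun x i => by rw [hv]; exact hu.nonneg i _
  have hvs : ∀ x, ∑ i, v x i = 1 := fun x => by rw [hv]; exact hu.sum_eq _
  have hosc : ∀ x ∈ Helper98.LC.box (n + 2), ∀ k i, |v (x + dir k) i - v x i| ≤ 2 * L * h := by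
    intro x hx k i
    rw [hv]
    refine (hLip i _ (hin x hx) _ (hin' x hx k)).trans ?_
    have := mul_le_mul_of_nonneg_left (no_dist hh.le x k) hLnn
    linarith
  obtain ⟨c, hg, hc, hsum⟩ := exists_c hh.le (by positivity : 0 ≤ 2 * L * h) v (Helper98.LC.box (n + 2)) hosc
  have hout : OutBox (lab v c) 0 n := by
    intro x hx
    refine lab_eq hc (hv0 x) (hvs x) ?_
    have h1 : r ≤ ‖pos h x‖ := by
      have := no_out hh hx
      linarith
    have h2 := hu.far _ h1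
    rw [hv]
    show 5 / 8 < u 0 (pos h x)
    linarith
  refine ⟨mkNet h hh.le v c hg, n, lab v c, hout, ?_, ?_⟩
  · intro i
    have hsq : ∀ p, 3 / 4 < u i.succ p → p ∈ Sq r := by
      intro p hp
      have h1 : ‖p‖ < r := by
        by_contra hcon
        push Not at hcon
        have h2 := hu.far p hcon
        have h3 : u 0 p + u i.succ p ≤ ∑ j, u j p := by
          have h4 : ∑ j ∈ ({0, i.succ} : Finset (Fin (N + 1))), u j p ≤ ∑ j, u j p :=
            sum_le_sum_of_subset_of_nonneg (subset_univ _) fun j _ _ => hu.nonneg j p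
          rw [sum_pair (Fin.succ_ne_zero i).symm] at h4
          exact h4
        rw [hu.sum_eq] at h3
        linarith
      exact ⟨(Complex.abs_re_le_norm p).trans h1.le, (Complex.abs_im_le_norm p).trans h1.le⟩
    have hcount := count (u := u i.succ) (L := L) hr hh (by rw [hR]; linarith) (hLip i.succ) hh4
      hLnn hsq hn1
    have hvol := (hu.vol i).trans hcount
    rw [ENNReal.ofReal_le_ofReal_iff (by positivity)] at hvol
    unfold ar
    rw [div_le_div_iff_of_pos_right hA0]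
    refine hvol.trans ?_
    set good := (Helper98.LC.box n).filter fun x =>
      5 / 8 < u i.succ (pos h x) ∧ ∀ k, 5 / 8 < u i.succ (pos h (x + dir k)) with hgood
    have hlab : ∀ x ∈ good, lab v c x = i.succ ∧ ∀ k, lab v c (x + dir k) = i.succ := by
      intro x hx
      rw [hgood, mem_filter] at hx
      refine ⟨lab_eq hc (hv0 x) (hvs x) ?_, fun k => lab_eq hc (hv0 _) (hvs _) ?_⟩
      · rw [hv]; exact hx.2.1
      · rw [hv]; exact hx.2.2 k
    have hsub : good ⊆ (Helper98.LC.box n).filter fun x => lab v c x = i.succ := by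
      intro x hx
      rw [mem_filter]
      exact ⟨(mem_filter.1 hx).1, (hlab x hx).1⟩
    have h1 : ∑ x ∈ good, (mkNet h hh.le v c hg).al x ≤
        ∑ x ∈ (Helper98.LC.box n).filter fun x => lab v c x = i.succ, (mkNet h hh.le v c hg).al x :=
      sum_le_sum_of_subset_of_nonneg hsub fun x _ _ => (mkNet h hh.le v c hg).area_nonneg x
    refine le_trans (le_of_eq ?_) h1
    have h2 : ∑ x ∈ good, (mkNet h hh.le v c hg).al x = ∑ x ∈ good, h ^ 2 := by
      refine sum_congr rfl fun x hx => ?_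
      apply mk_al_std
      intro k
      rw [(hlab x hx).2 k, (hlab x hx).1]
    rw [h2, sum_const, nsmul_eq_mul]
    ring
  · have h1 := per2_le_tri (mkNet h hh.le v c hg) hout
    have hEE : ∀ x ∈ Helper98.LC.box (n + 2), ∀ k, EE h (2 * L * h) v x k ≤
        h ^ 2 / 2 * F (pos h x) + h ^ 2 * (M * (1344 * L ^ 2 * h + 36 * κ₁)) := by
      intro x hx k
      have h2 := EE_le (N := N) (h := h) (ω := 2 * L * h) (e := 2 * κ₁ * h) (Gb := L) hh.le
        (by positivity) hh5 (by positivity) v x (hv0 x) (hvs x) (fun i => gr (u i) (pos h x))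
        (gr_sum hu.smooth hu.sum_eq _) (fun i => hGr i _ (hin x hx)) (by
          intro k i
          have h3 := hlin0 i _ (hin x hx) _ (hin' x hx k)
            ((no_dist hh.le x k).trans (hh3.trans (hi0 i)))
          rw [hv]
          refine h3.trans ?_
          have := mul_le_mul_of_nonneg_left (no_dist hh.le x k) hκ₁pos.le
          linarith) k
      refine h2.trans (le_of_eq ?_)
      rw [hF, hv, hM]
      ring
    have h2 : ∑ x ∈ Helper98.LC.box (n + 2), (EE h (2 * L * h) v x 0 + EE h (2 * L * h) v x 1) ≤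
        ∑ x ∈ Helper98.LC.box (n + 2), (h ^ 2 * F (pos h x) +
          2 * h ^ 2 * (M * (1344 * L ^ 2 * h + 36 * κ₁))) := by
      refine sum_le_sum fun x hx => ?_
      have a1 := hEE x hx 0
      have a2 := hEE x hx 1
      linarith
    have h2s : ∑ x ∈ Helper98.LC.box (n + 2), (h ^ 2 * F (pos h x) +
          2 * h ^ 2 * (M * (1344 * L ^ 2 * h + 36 * κ₁))) =
        ∑ x ∈ Helper98.LC.box (n + 2), h ^ 2 * F (pos h x) +
          (2 * ((n + 2 : ℕ) : ℝ) + 1) ^ 2 *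
          (2 * h ^ 2 * (M * (1344 * L ^ 2 * h + 36 * κ₁))) := by
      rw [sum_add_distrib, sum_const, nsmul_eq_mul, no_box_card]
    rw [h2s] at h2
    have h3 := hriem h hh hh2 (n + 2) hn3
    have h4 := hu.per R (by rw [hR]; linarith)
    have h5 : h ^ 2 * (2 * ((n + 2 : ℕ) : ℝ) + 1) ^ 2 ≤ 4 * R ^ 2 := by
      have h6 : h * (2 * ((n + 2 : ℕ) : ℝ) + 1) ≤ 2 * R := by
        push_cast at hn3 ⊢
        nlinarith
      have h7 : 0 ≤ h * (2 * ((n + 2 : ℕ) : ℝ) + 1) := by positivity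
      nlinarith
    have h6 : 2304 * M * R ^ 2 * κ₁ = δ := by
      rw [hκ₁]
      field_simp
    have h7 : (2 * ((n + 2 : ℕ) : ℝ) + 1) ^ 2 *
        (2 * h ^ 2 * (M * (1344 * L ^ 2 * h + 36 * κ₁))) ≤ δ / 4 := by
      have h8 : 0 ≤ 2 * (M * (1344 * L ^ 2 * h + 36 * κ₁)) := by positivity
      have h9 := mul_le_mul_of_nonneg_right h5 h8
      have h10 : 4 * R ^ 2 * (2 * (M * (1344 * L ^ 2 * h + 36 * κ₁))) =
          (21504 * M * R ^ 2 * L ^ 2 * h) / 2 + (2304 * M * R ^ 2 * κ₁) / 8 := by ring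
      rw [h10, h6] at h9
      nlinarith
    have h8 : ∫ p in Sq R, F p ≤ (∑ i, P (E i)) / 2 + κ := by rw [hF]; exact h4
    have h9 := h1.trans (mul_le_mul_of_nonneg_left (hsum.trans h2) (by norm_num : (0 : ℝ) ≤ 2))
    have h10 : ∑ x ∈ Helper98.LC.box (n + 2), h ^ 2 * F (pos h x) ≤
        (∑ i, P (E i)) / 2 + κ + δ / 8 := h3.trans (by linarith)
    refine h9.trans ?_
    linarith

end Pool.Agent.Helper38.LCA
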