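import Pool.Agent.Helper38.LCA.MkNet
import Pool.Agent.Helper38.LCA.IsoInt

/-!
# LCA-06: the interface in one triangle

`x`, `y = x + dir k`, `w = x + dir (k + 1)`, `Tr` means that three labels may meet.
* All labels equal: `SS = 0`.
* Two labels: let `a` be the vertex with the isolated label `i`, `b, b'` the two others with the label `j`.  `zpt` is the midpoint of the two crossing points `q₁ = qpt a b`, `q₂ = qpt a b'`
  (`qpt_symm`), so `SS = ‖q₁ - q₂‖`.  With `f = v · i - v · j`, `s = c i - c j`, `D = dd · i j = f - s`: `D a > 0 > D b, D b'` (`lab_max`, `Gen`),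
  `q₁ = pos a + D a / (D a - D b) (pos b - pos a)`, so `q₁ - q₂ = D a ((D a - D b') (pos b - pos a) - (D a - D b) (pos b' - pos a)) / ((D a - D b)(D a - D b'))` and
  `(D a - D b') (pos b - pos a) - (D a - D b) (pos b' - pos a) = f a (pos b - pos b') + f b (pos b' - pos a) + f b' (pos a - pos b)`, whose norm is `Rr` (invariant under permutations).
  So `SS = Rr * iso1 (f a) (f b) (f b') s ≤ Rr * Iso (f x) (f y) (f w) s`.  If `i > j` replace `f, s` by `-f, -s` (`Iso_neg`, `Rr` does not change).
  `Al ω (v x) i j` (for the smaller and the larger of the two labels): a label `i` of one of the vertices `p` satisfies `v p i ≥ v p l - c l + c i ≥ v p l - 1/4`, so `v x i ≥ v x l - 1/4 - 2 ω`.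
* Three labels `i, j, l` at `x, y, w`: all crossing points and the centre are in the triangle with the diameter `√2 h`: `SS ≤ 3 √2 h ≤ 5 h`, and
  `v x i - v x j - 2ω ≤ v y i - v y j ≤ c i - c j ≤ v x i - v x j`, the same with `l` (`lab_max`).
-/

namespace Pool.Agent.Helper38.LCA

open Finset Real Pool.Agent.Helper98.LC

/-- three labels may meet -/
def Tr {N : ℕ} (ω : ℝ) (v c : Fin (N + 1) → ℝ) (i j l : Fin (N + 1)) : Prop :=
  (i ≠ j ∧ i ≠ l ∧ j ≠ l) ∧ (v i - v j - 2 * ω ≤ c i - c j ∧ c i - c j ≤ v i - v j) ∧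
    (v i - v l - 2 * ω ≤ c i - c l ∧ c i - c l ≤ v i - v l)

open Classical in
/-- the contribution of two labels -/
noncomputable def tw {N : ℕ} (h ω : ℝ) (v : V → Fin (N + 1) → ℝ) (x : V) (k : Fin 6)
    (i j : Fin (N + 1)) (s : ℝ) : ℝ :=
  if Al ω (v x) i j then
    Rr h x (x + dir k) (x + dir (k + 1)) (v x i - v x j) (v (x + dir k) i - v (x + dir k) j)
        (v (x + dir (k + 1)) i - v (x + dir (k + 1)) j) *
      Iso (v x i - v x j) (v (x + dir k) i - v (x + dir k) j)
        (v (x + dir (k + 1)) i - v (x + dir (k + 1)) j) s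
  else 0

private theorem sg_iso1_nonneg (a b c s : ℝ) : 0 ≤ iso1 a b c s := by
  unfold iso1
  split_ifs
  · positivity
  · exact le_rfl

private theorem sg_iso_rot (a b c s : ℝ) : Iso b c a s = Iso a b c s := by
  unfold Iso
  ring

private theorem sg_iso1_neg (a b c s : ℝ) : iso1 (-a) (-b) (-c) (-s) = iso1 a b c s := by
  unfold iso1
  have e1 : (-a - -s) * (-b - -s) = (a - s) * (b - s) := by ring
  have e2 : (-a - -s) * (-c - -s) = (a - s) * (c - s) := by ring
  have e3 : |(-a - -s)| = |a - s| := by rw [← abs_neg]; congr 1; ring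
  have e4 : |(-a - -b)| = |a - b| := by rw [← abs_neg]; congr 1; ring
  have e5 : |(-a - -c)| = |a - c| := by rw [← abs_neg]; congr 1; ring
  rw [e1, e2, e3, e4, e5]

private theorem sg_iso_neg (a b c s : ℝ) : Iso (-a) (-b) (-c) (-s) = Iso a b c s := by
  unfold Iso
  rw [sg_iso1_neg, sg_iso1_neg, sg_iso1_neg]

private theorem sg_Rr_rot (h : ℝ) (x y w : V) (a b c : ℝ) :
    Rr h y w x b c a = Rr h x y w a b c := by
  unfold Rr
  congr 1
  ring

private theorem sg_Rr_neg (h : ℝ) (x y w : V) (a b c : ℝ) :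
    Rr h x y w (-a) (-b) (-c) = Rr h x y w a b c := by
  unfold Rr
  rw [← norm_neg]
  congr 1
  push_cast
  ring

/-- the interface in a triangle -/
private noncomputable def TS {N : ℕ} (h : ℝ) (v : V → Fin (N + 1) → ℝ) (c : Fin (N + 1) → ℝ)
    (x y w : V) : ℝ :=
  (if lab v c x = lab v c y then 0 else ‖zpt h v c x y w - qpt h v c x y‖) +
  (if lab v c y = lab v c w then 0 else ‖zpt h v c x y w - qpt h v c y w‖) +
  (if lab v c w = lab v c x then 0 else ‖zpt h v c x y w - qpt h v c w x‖)

private theorem sg_TS_rot {N : ℕ} (h : ℝ) (v : V → Fin (N + 1) → ℝ) (c : Fin (N + 1) → ℝ)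
    (x y w : V) : TS h v c y w x = TS h v c x y w := by
  unfold TS
  rw [zpt_rot]
  ring

/-- the contribution of two labels in a triangle -/
private noncomputable def FF {N : ℕ} (h : ℝ) (v : V → Fin (N + 1) → ℝ) (c : Fin (N + 1) → ℝ)
    (x y w : V) (i j : Fin (N + 1)) : ℝ :=
  Rr h x y w (v x i - v x j) (v y i - v y j) (v w i - v w j) *
    Iso (v x i - v x j) (v y i - v y j) (v w i - v w j) (c i - c j)

private theorem sg_FF_rot {N : ℕ} (h : ℝ) (v : V → Fin (N + 1) → ℝ) (c : Fin (N + 1) → ℝ)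
    (x y w : V) (i j : Fin (N + 1)) : FF h v c y w x i j = FF h v c x y w i j := by
  unfold FF
  rw [sg_Rr_rot, sg_iso_rot]

private theorem sg_FF_symm {N : ℕ} (h : ℝ) (v : V → Fin (N + 1) → ℝ) (c : Fin (N + 1) → ℝ)
    (x y w : V) (i j : Fin (N + 1)) : FF h v c x y w j i = FF h v c x y w i j := by
  unfold FF
  have e : ∀ a b : ℝ, a - b = -(b - a) := fun a b => by ring
  rw [e (v x j) (v x i), e (v y j) (v y i), e (v w j) (v w i), e (c j) (c i), sg_Rr_neg,
    sg_iso_neg]

private theorem sg_FF_nonneg {N : ℕ} (h : ℝ) (v : V → Fin (N + 1) → ℝ) (c : Fin (N + 1) → ℝ)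
    (x y w : V) (i j : Fin (N + 1)) : 0 ≤ FF h v c x y w i j := by
  unfold FF Iso
  exact mul_nonneg (norm_nonneg _)
    (add_nonneg (add_nonneg (sg_iso1_nonneg _ _ _ _) (sg_iso1_nonneg _ _ _ _))
      (sg_iso1_nonneg _ _ _ _))

private theorem sg_dd_pos {N : ℕ} {v : V → Fin (N + 1) → ℝ} {c : Fin (N + 1) → ℝ}
    (hg : Gen v c) {p : V} {i j : Fin (N + 1)} (hi : lab v c p = i) (hij : i ≠ j) :
    0 < (v p i - v p j) - (c i - c j) := by
  have h1 := lab_max v c p j
  rw [hi] at h1
  have h2 := hg p i j hij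
  have h3 : 0 ≤ (v p i - v p j) - (c i - c j) := by linarith
  rcases h3.lt_or_eq with h4 | h4
  · exact h4
  · exact absurd (by linarith) h2

private theorem sg_two {N : ℕ} {h : ℝ} {v : V → Fin (N + 1) → ℝ} {c : Fin (N + 1) → ℝ}
    (hg : Gen v c) {p q r : V} (hqr : lab v c q = lab v c r) (hpq : lab v c p ≠ lab v c q) :
    TS h v c p q r ≤ FF h v c p q r (lab v c p) (lab v c q) := by
  set i := lab v c p with hi
  set j := lab v c q with hj
  have hDp : 0 < (v p i - v p j) - (c i - c j) := sg_dd_pos hg hi.symm hpq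
  have hDq : 0 < (v q j - v q i) - (c j - c i) := sg_dd_pos hg hj.symm (Ne.symm hpq)
  have hDr : 0 < (v r j - v r i) - (c j - c i) := sg_dd_pos hg hqr.symm (Ne.symm hpq)
  set D := (v p i - v p j) - (c i - c j) with hD
  have hq : qpt h v c p q = ((D : ℂ) * pos h q -
      (((v q i - v q j) - (c i - c j) : ℝ) : ℂ) * pos h p) /
      ((D - ((v q i - v q j) - (c i - c j)) : ℝ) : ℂ) := by
    unfold qpt
    rw [if_neg (by rw [← hi, ← hj]; exact hpq), ← hi, ← hj]
    have e1 : dd v c p i j = D := by unfold dd; rw [hD]; ring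
    have e2 : dd v c q i j = (v q i - v q j) - (c i - c j) := by unfold dd; ring
    rw [e1, e2]
  have hr : qpt h v c r p = ((D : ℂ) * pos h r -
      (((v r i - v r j) - (c i - c j) : ℝ) : ℂ) * pos h p) /
      ((D - ((v r i - v r j) - (c i - c j)) : ℝ) : ℂ) := by
    rw [← qpt_symm]
    unfold qpt
    rw [if_neg (by rw [← hi, ← hqr]; exact hpq), ← hi, ← hqr]
    have e1 : dd v c p i j = D := by unfold dd; rw [hD]; ring
    have e2 : dd v c r i j = (v r i - v r j) - (c i - c j) := by unfold dd; ring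
    rw [e1, e2]
  have hz : zpt h v c p q r = (qpt h v c p q + qpt h v c r p) / 2 := by
    unfold zpt
    rw [if_neg (by rw [← hi, ← hj]; exact fun hh => hpq hh.1)]
    have c1 : chg v c p q = 1 := by unfold chg; rw [if_neg (by rw [← hi, ← hj]; exact hpq)]
    have c2 : chg v c q r = 0 := by unfold chg; rw [if_pos (by rw [← hj]; exact hqr)]
    have c3 : chg v c r p = 1 := by
      unfold chg
      rw [if_neg (by rw [← hi, ← hqr]; exact Ne.symm hpq)]
    rw [c1, c2, c3]
    push_cast
    ring
  have hTS : TS h v c p q r = ‖qpt h v c p q - qpt h v c r p‖ := by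
    unfold TS
    rw [if_neg (by rw [← hi, ← hj]; exact hpq), if_pos (by rw [← hj]; exact hqr),
      if_neg (by rw [← hi, ← hqr]; exact Ne.symm hpq), hz]
    have e1 : (qpt h v c p q + qpt h v c r p) / 2 - qpt h v c p q =
        -((qpt h v c p q - qpt h v c r p) / 2) := by ring
    have e2 : (qpt h v c p q + qpt h v c r p) / 2 - qpt h v c r p =
        (qpt h v c p q - qpt h v c r p) / 2 := by ring
    rw [e1, e2, norm_neg, norm_div]
    norm_num
  have hA : 0 < D - ((v q i - v q j) - (c i - c j)) := by linarith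
  have hB : 0 < D - ((v r i - v r j) - (c i - c j)) := by linarith
  have hAc : ((D - ((v q i - v q j) - (c i - c j)) : ℝ) : ℂ) ≠ 0 := by exact_mod_cast hA.ne'
  have hBc : ((D - ((v r i - v r j) - (c i - c j)) : ℝ) : ℂ) ≠ 0 := by exact_mod_cast hB.ne'
  have hdiff : qpt h v c p q - qpt h v c r p = (D : ℂ) *
      (((v p i - v p j : ℝ) : ℂ) * (pos h q - pos h r) +
        ((v q i - v q j : ℝ) : ℂ) * (pos h r - pos h p) +
        ((v r i - v r j : ℝ) : ℂ) * (pos h p - pos h q)) /
      (((D - ((v q i - v q j) - (c i - c j)) : ℝ) : ℂ) *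
        ((D - ((v r i - v r j) - (c i - c j)) : ℝ) : ℂ)) := by
    rw [hq, hr, div_sub_div _ _ hAc hBc]
    congr 1
    rw [hD]
    push_cast
    ring
  have h1 : TS h v c p q r = Rr h p q r (v p i - v p j) (v q i - v q j) (v r i - v r j) *
      iso1 (v p i - v p j) (v q i - v q j) (v r i - v r j) (c i - c j) := by
    rw [hTS, hdiff, norm_div, norm_mul, norm_mul, Complex.norm_real, Complex.norm_real,
      Complex.norm_real]
    unfold iso1 Rr
    rw [if_pos ⟨by nlinarith, by nlinarith⟩]
    rw [Real.norm_eq_abs, Real.norm_eq_abs, Real.norm_eq_abs]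
    have e1 : v p i - v p j - (v q i - v q j) = D - ((v q i - v q j) - (c i - c j)) := by
      rw [hD]; ring
    have e2 : v p i - v p j - (v r i - v r j) = D - ((v r i - v r j) - (c i - c j)) := by
      rw [hD]; ring
    rw [e1, e2, ← hD]
    ring
  rw [h1]
  unfold FF Iso
  apply mul_le_mul_of_nonneg_left _ (norm_nonneg _)
  have := sg_iso1_nonneg (v q i - v q j) (v r i - v r j) (v p i - v p j) (c i - c j)
  have := sg_iso1_nonneg (v r i - v r j) (v p i - v p j) (v q i - v q j) (c i - c j)
  linarith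

private theorem sg_qform {N : ℕ} (h : ℝ) {v : V → Fin (N + 1) → ℝ} {c : Fin (N + 1) → ℝ}
    (hg : Gen v c) (x y : V) :
    ∃ t : ℝ, 0 ≤ t ∧ t ≤ 1 ∧ qpt h v c x y = pos h x + (t : ℂ) * (pos h y - pos h x) := by
  unfold qpt
  split_ifs with hl
  · refine ⟨1 / 2, by norm_num, by norm_num, ?_⟩
    push_cast
    ring
  · set a := dd v c x (lab v c x) (lab v c y) with ha
    set b := dd v c y (lab v c x) (lab v c y) with hb
    have ha0 : 0 < a := by
      have := sg_dd_pos hg (rfl : lab v c x = lab v c x) hl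
      rw [ha]
      unfold dd
      linarith
    have hb0 : b < 0 := by
      have := sg_dd_pos hg (rfl : lab v c y = lab v c y) (Ne.symm hl)
      rw [hb]
      unfold dd
      linarith
    have hab : 0 < a - b := by linarith
    have habc : ((a : ℂ) - (b : ℂ)) ≠ 0 := by
      have : (((a - b : ℝ)) : ℂ) ≠ 0 := by exact_mod_cast hab.ne'
      push_cast at this
      exact this
    refine ⟨a / (a - b), div_nonneg ha0.le hab.le, ?_, ?_⟩
    · rw [div_le_one hab]
      linarith
    · push_cast
      field_simp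
      ring

private theorem sg_comb {a b : ℝ} {A B : ℂ} (ha : 0 ≤ a) (hb : 0 ≤ b) :
    ‖(a : ℂ) * A + (b : ℂ) * B‖ ≤ a * ‖A‖ + b * ‖B‖ := by
  refine (norm_add_le _ _).trans (le_of_eq ?_)
  rw [norm_mul, norm_mul, Complex.norm_real, Complex.norm_real, Real.norm_of_nonneg ha,
    Real.norm_of_nonneg hb]

private theorem sg_three {N : ℕ} {h : ℝ} {v : V → Fin (N + 1) → ℝ} {c : Fin (N + 1) → ℝ}
    (hg : Gen v c) {x y w : V} (h1 : lab v c x ≠ lab v c y) (h2 : lab v c y ≠ lab v c w)
    (h3 : lab v c w ≠ lab v c x) (e1 : ‖pos h y - pos h x‖ ≤ 2 * h)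
    (e2 : ‖pos h w - pos h y‖ ≤ 2 * h) (e3 : ‖pos h x - pos h w‖ ≤ 2 * h) :
    TS h v c x y w ≤ 4 * h := by
  obtain ⟨t1, a1, b1, q1⟩ := sg_qform h hg x y
  obtain ⟨t2, a2, b2, q2⟩ := sg_qform h hg y w
  obtain ⟨t3, a3, b3, q3⟩ := sg_qform h hg w x
  have hz : zpt h v c x y w = (qpt h v c x y + qpt h v c y w + qpt h v c w x) / 3 := by
    unfold zpt
    rw [if_neg (fun hh => h1 hh.1)]
    have c1 : chg v c x y = 1 := if_neg h1
    have c2 : chg v c y w = 1 := if_neg h2
    have c3 : chg v c w x = 1 := if_neg h3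
    rw [c1, c2, c3]
    push_cast
    ring
  unfold TS
  rw [if_neg h1, if_neg h2, if_neg h3, hz]
  have d12 : ‖qpt h v c y w - qpt h v c x y‖ ≤
      (1 - t1) * ‖pos h y - pos h x‖ + t2 * ‖pos h w - pos h y‖ := by
    have : qpt h v c y w - qpt h v c x y = ((1 - t1 : ℝ) : ℂ) * (pos h y - pos h x) +
        (t2 : ℂ) * (pos h w - pos h y) := by
      rw [q1, q2]; push_cast; ring
    rw [this]
    exact sg_comb (by linarith) a2
  have d23 : ‖qpt h v c w x - qpt h v c y w‖ ≤
      (1 - t2) * ‖pos h w - pos h y‖ + t3 * ‖pos h x - pos h w‖ := by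
    have : qpt h v c w x - qpt h v c y w = ((1 - t2 : ℝ) : ℂ) * (pos h w - pos h y) +
        (t3 : ℂ) * (pos h x - pos h w) := by
      rw [q2, q3]; push_cast; ring
    rw [this]
    exact sg_comb (by linarith) a3
  have d31 : ‖qpt h v c x y - qpt h v c w x‖ ≤
      (1 - t3) * ‖pos h x - pos h w‖ + t1 * ‖pos h y - pos h x‖ := by
    have : qpt h v c x y - qpt h v c w x = ((1 - t3 : ℝ) : ℂ) * (pos h x - pos h w) +
        (t1 : ℂ) * (pos h y - pos h x) := by
      rw [q1, q3]; push_cast; ring
    rw [this]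
    exact sg_comb (by linarith) a1
  have key : ∀ A B C : ℂ, ‖(A + B + C) / 3 - A‖ ≤ (‖B - A‖ + ‖A - C‖) / 3 := by
    intro A B C
    have : (A + B + C) / 3 - A = ((B - A) - (A - C)) / 3 := by ring
    rw [this, norm_div]
    have := norm_sub_le (B - A) (A - C)
    have h3 : ‖(3 : ℂ)‖ = 3 := by norm_num
    rw [h3]
    linarith
  have k1 := key (qpt h v c x y) (qpt h v c y w) (qpt h v c w x)
  have k2 := key (qpt h v c y w) (qpt h v c w x) (qpt h v c x y)
  have k3 := key (qpt h v c w x) (qpt h v c x y) (qpt h v c y w)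
  have r2 : qpt h v c y w + qpt h v c w x + qpt h v c x y =
      qpt h v c x y + qpt h v c y w + qpt h v c w x := by ring
  have r3 : qpt h v c w x + qpt h v c x y + qpt h v c y w =
      qpt h v c x y + qpt h v c y w + qpt h v c w x := by ring
  rw [r2] at k2
  rw [r3] at k3
  nlinarith [norm_nonneg (pos h y - pos h x), norm_nonneg (pos h w - pos h y),
    norm_nonneg (pos h x - pos h w)]

private theorem sg_edge {h : ℝ} (hh : 0 ≤ h) (x : V) (k : Fin 6) :
    ‖pos h (x + dir k) - pos h x‖ ≤ 2 * h := by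
  refine (Complex.norm_le_abs_re_add_abs_im _).trans ?_
  have e1 : (pos h (x + dir k) - pos h x).re = h * (((dir k).1 : ℤ) : ℝ) := by
    unfold pos
    rw [Complex.sub_re, Prod.fst_add]
    push_cast
    ring
  have e2 : (pos h (x + dir k) - pos h x).im = h * (((dir k).2 : ℤ) : ℝ) := by
    unfold pos
    rw [Complex.sub_im, Prod.snd_add]
    push_cast
    ring
  rw [e1, e2, abs_mul, abs_mul, abs_of_nonneg hh]
  have h1 : |(((dir k).1 : ℤ) : ℝ)| ≤ 1 := by
    have : ∀ k : Fin 6, |(dir k).1| ≤ 1 := by decide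
    exact_mod_cast this k
  have h2 : |(((dir k).2 : ℤ) : ℝ)| ≤ 1 := by
    have : ∀ k : Fin 6, |(dir k).2| ≤ 1 := by decide
    exact_mod_cast this k
  nlinarith

private theorem sg_SS {N : ℕ} {h : ℝ} (hh : 0 ≤ h) {v : V → Fin (N + 1) → ℝ}
    {c : Fin (N + 1) → ℝ} (hg : Gen v c) (x : V) (k : Fin 6) :
    SS (mkNet h hh v c hg) (lab v c) x k = TS h v c x (x + dir k) (x + dir (k + 1)) := by
  have h1 : x + dir k + dir (k + 2) = x + dir (k + 1) := by
    rw [add_assoc]
    congr 1
    revert k; decide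
  have h2 : x + dir (k + 1) + dir (k + 4) = x := by
    rw [add_assoc]
    have : ∀ k : Fin 6, dir (k + 1) + dir (k + 4) = 0 := by decide
    rw [this k, add_zero]
  unfold SS TS
  show (if lab v c x = lab v c (x + dir k) then 0 else
      ‖zpt h v c x (x + dir k) (x + dir (k + 1)) - qpt h v c x (x + dir k)‖) +
    (if lab v c (x + dir k) = lab v c (x + dir (k + 1)) then 0 else
      ‖zpt h v c x (x + dir k) (x + dir (k + 1)) -
        qpt h v c (x + dir k) (x + dir k + dir (k + 2))‖) +
    (if lab v c (x + dir (k + 1)) = lab v c x then 0 else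
      ‖zpt h v c x (x + dir k) (x + dir (k + 1)) -
        qpt h v c (x + dir (k + 1)) (x + dir (k + 1) + dir (k + 4))‖) = _
  rw [h1, h2]

open Classical in
theorem SS_le {N : ℕ} {h : ℝ} (hh : 0 ≤ h) {v : V → Fin (N + 1) → ℝ} {c : Fin (N + 1) → ℝ}
    (hg : Gen v c) (hc : ∀ i, 0 ≤ c i ∧ c i ≤ 1 / 4) {ω : ℝ} (x : V) (k : Fin 6)
    (hosc : ∀ i, |v (x + dir k) i - v x i| ≤ ω ∧ |v (x + dir (k + 1)) i - v x i| ≤ ω) :
    SS (mkNet h hh v c hg) (lab v c) x k ≤
      ∑ i, ∑ j, tw h ω v x k i j (c i - c j) +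
      ∑ i, ∑ j, ∑ l, (if Tr ω (v x) c i j l then 5 * h else 0) := by
  rw [sg_SS]
  have hω : 0 ≤ ω := (abs_nonneg _).trans (hosc 0).1
  set y := x + dir k with hy
  set w := x + dir (k + 1) with hw
  have htw : ∀ i j, 0 ≤ tw h ω v x k i j (c i - c j) := by
    intro i j
    unfold tw
    split_ifs
    · exact sg_FF_nonneg h v c x y w i j
    · exact le_rfl
  have h5 : ∀ i j l, 0 ≤ (if Tr ω (v x) c i j l then 5 * h else 0) := by
    intro i j l
    split_ifs
    · linarith
    · exact le_rfl
  have hS1 : 0 ≤ ∑ i, ∑ j, tw h ω v x k i j (c i - c j) :=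
    sum_nonneg fun i _ => sum_nonneg fun j _ => htw i j
  have hS2 : 0 ≤ ∑ i, ∑ j, ∑ l, (if Tr ω (v x) c i j l then 5 * h else 0) :=
    sum_nonneg fun i _ => sum_nonneg fun j _ => sum_nonneg fun l _ => h5 i j l
  -- the labels are admissible
  have hAl0 : ∀ p : V, (∀ i, |v p i - v x i| ≤ ω) → ∀ l,
      v x l - 1 / 4 - 2 * ω ≤ v x (lab v c p) := by
    intro p hp l
    have a1 := lab_max v c p l
    have a2 := abs_le.1 (hp l)
    have a3 := abs_le.1 (hp (lab v c p))
    have a4 := hc l
    have a5 := hc (lab v c p)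
    linarith [a2.1, a2.2, a3.1, a3.2, a4.1, a4.2, a5.1, a5.2]
  have hxx : ∀ i, |v x i - v x i| ≤ ω := fun i => by rw [sub_self, abs_zero]; exact hω
  have hyy : ∀ i, |v y i - v x i| ≤ ω := fun i => (hosc i).1
  have hww : ∀ i, |v w i - v x i| ≤ ω := fun i => (hosc i).2
  have hF : ∀ p q : V, (∀ i, |v p i - v x i| ≤ ω) → (∀ i, |v q i - v x i| ≤ ω) →
      lab v c p ≠ lab v c q → FF h v c x y w (lab v c p) (lab v c q) ≤
        ∑ i, ∑ j, tw h ω v x k i j (c i - c j) := by
    have hsort : ∀ i j : Fin (N + 1), i < j → (∀ l, v x l - 1 / 4 - 2 * ω ≤ v x i) →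
        (∀ l, v x l - 1 / 4 - 2 * ω ≤ v x j) → FF h v c x y w i j ≤
          ∑ i, ∑ j, tw h ω v x k i j (c i - c j) := by
      intro i j hij hi hj
      have a1 : FF h v c x y w i j = tw h ω v x k i j (c i - c j) := by
        unfold tw
        rw [if_pos ⟨hij, hi, hj⟩]
        rfl
      rw [a1]
      refine le_trans ?_ (single_le_sum (f := fun i => ∑ j, tw h ω v x k i j (c i - c j))
        (fun i _ => sum_nonneg fun j _ => htw i j) (mem_univ i))
      exact single_le_sum (f := fun j => tw h ω v x k i j (c i - c j))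
        (fun j _ => htw i j) (mem_univ j)
    intro p q hp hq hpq
    rcases lt_or_gt_of_ne hpq with hlt | hlt
    · exact hsort _ _ hlt (hAl0 p hp) (hAl0 q hq)
    · rw [← sg_FF_symm]
      exact hsort _ _ hlt (hAl0 q hq) (hAl0 p hp)
  by_cases h1 : lab v c x = lab v c y
  · by_cases h2 : lab v c y = lab v c w
    · have : TS h v c x y w = 0 := by
        unfold TS
        rw [if_pos h1, if_pos h2, if_pos (h1.trans h2).symm]
        ring
      rw [this]
      linarith
    · -- `w` is isolated
      have hne : lab v c w ≠ lab v c x := fun hh => h2 (h1.symm.trans hh.symm)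
      have a1 := sg_two (h := h) hg (p := w) (q := x) (r := y) h1 hne
      rw [← sg_TS_rot h v c w x y, ← sg_FF_rot h v c w x y] at a1
      have a2 := hF w x hww hxx hne
      linarith
  · by_cases h2 : lab v c y = lab v c w
    · -- `x` is isolated
      have a1 := sg_two (h := h) hg (p := x) (q := y) (r := w) h2 h1
      have a2 := hF x y hxx hyy h1
      linarith
    · by_cases h3 : lab v c w = lab v c x
      · -- `y` is isolated
        have hne : lab v c y ≠ lab v c w := h2
        have a1 := sg_two (h := h) hg (p := y) (q := w) (r := x) h3 hne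
        rw [sg_TS_rot h v c x y w, sg_FF_rot h v c x y w] at a1
        have a2 := hF y w hyy hww hne
        linarith
      · -- three labels
        have e2 : ‖pos h w - pos h y‖ ≤ 2 * h := by
          have h4 : w = y + dir (k + 2) := by
            have h5 : ∀ k : Fin 6, dir (k + 1) = dir k + dir (k + 2) := by decide
            rw [hw, hy, add_assoc, ← h5 k]
          rw [h4]
          exact sg_edge hh y (k + 2)
        have e3 : ‖pos h x - pos h w‖ ≤ 2 * h := by
          rw [norm_sub_rev]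
          exact sg_edge hh x (k + 1)
        have a1 := sg_three (h := h) hg h1 h2 h3 (sg_edge hh x k) e2 e3
        have hTr : Tr ω (v x) c (lab v c x) (lab v c y) (lab v c w) := by
          have b1 := lab_max v c x (lab v c y)
          have b2 := lab_max v c x (lab v c w)
          have b3 := lab_max v c y (lab v c x)
          have b4 := lab_max v c w (lab v c x)
          have c1 := abs_le.1 (hyy (lab v c x))
          have c2 := abs_le.1 (hyy (lab v c y))
          have c3 := abs_le.1 (hww (lab v c x))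
          have c4 := abs_le.1 (hww (lab v c w))
          refine ⟨⟨h1, fun hh => h3 hh.symm, h2⟩, ⟨?_, ?_⟩, ⟨?_, ?_⟩⟩
          · linarith [c1.1, c1.2, c2.1, c2.2]
          · linarith
          · linarith [c3.1, c3.2, c4.1, c4.2]
          · linarith
        have a3 : 5 * h ≤ ∑ i, ∑ j, ∑ l, (if Tr ω (v x) c i j l then 5 * h else 0) := by
          have b1 : (if Tr ω (v x) c (lab v c x) (lab v c y) (lab v c w) then 5 * h
              else 0) = 5 * h := by rw [if_pos hTr]
          refine le_trans (le_of_eq b1.symm) ?_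
          refine le_trans ?_ (single_le_sum
            (f := fun i => ∑ j, ∑ l, (if Tr ω (v x) c i j l then 5 * h else 0))
            (fun i _ => sum_nonneg fun j _ => sum_nonneg fun l _ => h5 i j l)
            (mem_univ (lab v c x)))
          refine le_trans ?_ (single_le_sum
            (f := fun j => ∑ l, (if Tr ω (v x) c (lab v c x) j l then 5 * h else 0))
            (fun j _ => sum_nonneg fun l _ => h5 _ j l) (mem_univ (lab v c y)))
          exact single_le_sum
            (f := fun l => (if Tr ω (v x) c (lab v c x) (lab v c y) l then 5 * h else 0))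
            (fun l _ => h5 _ _ l) (mem_univ (lab v c w))
        linarith

end Pool.Agent.Helper38.LCA
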