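import Pool.Agent.Helper38.LCA.Defs

/-!
# LCA-09: smooth functions on a square

`Sq r` is compact and convex (`{|re| ≤ r} ∩ {|im| ≤ r}`, closed and bounded).
* `lip_Sq`: `‖fderiv ℝ u p‖ ≤ L` on the compact set `Sq r` (continuity of `fderiv`), mean value inequality on the convex set (`Convex.norm_image_sub_le_of_norm_fderiv_le`).
* `lin_Sq`: `fderiv ℝ u` is uniformly continuous on `Sq r`: there is `η > 0` with `‖fderiv ℝ u p - fderiv ℝ u q‖ ≤ κ` for `p, q ∈ Sq r`, `‖p - q‖ ≤ η`.  Mean value inequality for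
  `t ↦ u t - fderiv ℝ u p t` on the convex set `Sq r ∩ closedBall p η`; `fderiv ℝ u p z = (gr u p).re * z.re + (gr u p).im * z.im` (linearity, `z = z.re + z.im I`).
* `gr_bd`: `gr u` is continuous.   `gr_sum`: `∑ u i = 1` is constant.
-/

namespace Pool.Agent.Helper38.LCA

open Finset Real Pool.Agent.Helper98.LC

private theorem Sq_closed (r : ℝ) : IsClosed (Sq r) :=
  (isClosed_le (continuous_abs.comp Complex.continuous_re) continuous_const).inter
    (isClosed_le (continuous_abs.comp Complex.continuous_im) continuous_const)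

theorem Sq_compact (r : ℝ) : IsCompact (Sq r) := by
  refine Metric.isCompact_of_isClosed_isBounded (Sq_closed r) ?_
  refine (Metric.isBounded_closedBall (x := (0 : ℂ)) (r := r + r)).subset fun p hp => ?_
  rw [mem_closedBall_zero_iff]
  exact (Complex.norm_le_abs_re_add_abs_im p).trans (add_le_add hp.1 hp.2)

theorem Sq_convex (r : ℝ) : Convex ℝ (Sq r) := by
  have e : Sq r = Complex.reLm ⁻¹' (Set.Icc (-r) r) ∩ Complex.imLm ⁻¹' (Set.Icc (-r) r) := by
    ext p
    simp only [Sq, Set.mem_ofPred_eq, Set.mem_inter_iff, Set.mem_preimage, Set.mem_Icc, abs_le,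
      Complex.reLm_coe, Complex.imLm_coe]
  rw [e]
  exact ((convex_Icc (-r) r).linear_preimage Complex.reLm).inter
    ((convex_Icc (-r) r).linear_preimage Complex.imLm)

theorem Sq_meas (r : ℝ) : MeasurableSet (Sq r) := (Sq_closed r).measurableSet

theorem gr_apply {u : ℂ → ℝ} (p z : ℂ) :
    fderiv ℝ u p z = (gr u p).re * z.re + (gr u p).im * z.im := by
  have e : z = z.re • (1 : ℂ) + z.im • Complex.I := by
    rw [Complex.real_smul, Complex.real_smul, mul_one]
    exact (Complex.re_add_im z).symm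
  conv_lhs => rw [e]
  rw [map_add, map_smul, map_smul, smul_eq_mul, smul_eq_mul]
  simp only [gr]
  ring

theorem gr_cont {u : ℂ → ℝ} (hu : ContDiff ℝ 2 u) : ContDiff ℝ 1 (gr u) := by
  have h1 : ContDiff ℝ 1 (fderiv ℝ u) := hu.fderiv_right (by norm_num)
  have h2 : ∀ z : ℂ, ContDiff ℝ 1 (fun p => ((fderiv ℝ u p z : ℝ) : ℂ)) := fun z =>
    Complex.ofRealCLM.contDiff.comp (h1.clm_apply contDiff_const)
  have e : gr u = fun p => ((fderiv ℝ u p 1 : ℝ) : ℂ) +
      ((fderiv ℝ u p Complex.I : ℝ) : ℂ) * Complex.I := by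
    funext p
    exact Complex.mk_eq_add_mul_I _ _
  rw [e]
  exact (h2 1).add ((h2 Complex.I).mul contDiff_const)

private theorem norm_gr_le {u : ℂ → ℝ} (p : ℂ) : ‖gr u p‖ ≤ 2 * ‖fderiv ℝ u p‖ := by
  refine (Complex.norm_le_abs_re_add_abs_im _).trans ?_
  have h1 : |fderiv ℝ u p 1| ≤ ‖fderiv ℝ u p‖ := by
    have h := (fderiv ℝ u p).le_opNorm 1
    rwa [norm_one, mul_one, Real.norm_eq_abs] at h
  have h2 : |fderiv ℝ u p Complex.I| ≤ ‖fderiv ℝ u p‖ := by
    have h := (fderiv ℝ u p).le_opNorm Complex.I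
    rwa [Complex.norm_I, mul_one, Real.norm_eq_abs] at h
  simp only [gr]
  linarith

theorem lip_Sq {u : ℂ → ℝ} (hu : ContDiff ℝ 2 u) (r : ℝ) :
    ∃ L, 0 ≤ L ∧ (∀ p ∈ Sq r, ∀ q ∈ Sq r, |u q - u p| ≤ L * ‖q - p‖) ∧
      ∀ p ∈ Sq r, ‖gr u p‖ ≤ L := by
  have hc : Continuous (fderiv ℝ u) := hu.continuous_fderiv (by norm_num)
  obtain ⟨C, hC⟩ := (Sq_compact r).exists_bound_of_continuousOn hc.continuousOn
  refine ⟨2 * max C 0, by positivity, fun p hp q hq => ?_, fun p hp => ?_⟩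
  · have h := (Sq_convex r).norm_image_sub_le_of_norm_fderiv_le (𝕜 := ℝ) (f := u) (C := max C 0)
      (fun x _ => hu.differentiable (by norm_num) x) (fun x hx => (hC x hx).trans (le_max_left _ _))
      hp hq
    rw [Real.norm_eq_abs] at h
    refine h.trans (mul_le_mul_of_nonneg_right ?_ (norm_nonneg _))
    have := le_max_right C 0
    linarith
  · refine (norm_gr_le p).trans ?_
    have := (hC p hp).trans (le_max_left C 0)
    linarith

theorem lin_Sq {u : ℂ → ℝ} (hu : ContDiff ℝ 2 u) (r : ℝ) {κ : ℝ} (hκ : 0 < κ) :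
    ∃ η, 0 < η ∧ ∀ p ∈ Sq r, ∀ q ∈ Sq r, ‖q - p‖ ≤ η →
      |u q - u p - ((gr u p).re * (q - p).re + (gr u p).im * (q - p).im)| ≤ κ * ‖q - p‖ := by
  have hc : Continuous (fderiv ℝ u) := hu.continuous_fderiv (by norm_num)
  have huc := (Sq_compact r).uniformContinuousOn_of_continuous hc.continuousOn
  rw [Metric.uniformContinuousOn_iff] at huc
  obtain ⟨δ, hδ, h⟩ := huc κ hκ
  refine ⟨δ / 2, half_pos hδ, fun p hp q hq hpq => ?_⟩
  have hconv : Convex ℝ (Sq r ∩ Metric.closedBall p (δ / 2)) :=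
    (Sq_convex r).inter (convex_closedBall p (δ / 2))
  have h1 := hconv.norm_image_sub_le_of_norm_fderiv_le' (𝕜 := ℝ) (f := u) (C := κ)
    (φ := fderiv ℝ u p) (fun x _ => hu.differentiable (by norm_num) x) (fun x hx => by
      have h2 := h x hx.1 p hp (lt_of_le_of_lt (Metric.mem_closedBall.mp hx.2) (half_lt_self hδ))
      rw [dist_eq_norm] at h2
      exact h2.le) (x := p) (y := q)
    ⟨hp, Metric.mem_closedBall_self (half_pos hδ).le⟩
    ⟨hq, by rw [Metric.mem_closedBall, dist_eq_norm]; exact hpq⟩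
  rw [Real.norm_eq_abs, gr_apply] at h1
  exact h1

theorem gr_sum {N : ℕ} {u : Fin (N + 1) → ℂ → ℝ} (hu : ∀ i, ContDiff ℝ 2 (u i))
    (hs : ∀ p, ∑ i, u i p = 1) (p : ℂ) : ∑ i, gr (u i) p = 0 := by
  have h1 : HasFDerivAt (fun q => ∑ i, u i q) (∑ i, fderiv ℝ (u i) p) p :=
    HasFDerivAt.fun_sum fun i _ => ((hu i).differentiable (by norm_num) p).hasFDerivAt
  have e : (fun q => ∑ i, u i q) = fun _ => (1 : ℝ) := funext hs
  rw [e] at h1
  have h2 : ∑ i, fderiv ℝ (u i) p = 0 := h1.unique (hasFDerivAt_const (1 : ℝ) p)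
  have h3 : ∀ z : ℂ, ∑ i, fderiv ℝ (u i) p z = 0 := by
    intro z
    have h4 := congrArg (fun T : ℂ →L[ℝ] ℝ => T z) h2
    simpa [ContinuousLinearMap.sum_apply] using h4
  apply Complex.ext
  · rw [Complex.re_sum]
    exact h3 1
  · rw [Complex.im_sum]
    exact h3 Complex.I

end Pool.Agent.Helper38.LCA
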